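import Mathlib

set_option autoImplicit false

/-!
Commutator width of finitely generated soluble groups: the square trick.
-/

namespace Pool.Agent.Helper354.CWidth

open Subgroup
open scoped commutatorElement

/-! ### products of commutators -/

/-- `g` is a product of `n` commutators -/
def PC {G : Type*} [Group G] (n : ℕ) (g : G) : Prop :=
  ∃ l : List (G × G), l.length = n ∧ g = (l.map (fun p => ⁅p.1, p.2⁆)).prod

section PC
variable {G : Type*} [Group G]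

theorem PC.zero : PC 0 (1 : G) := ⟨[], rfl, rfl⟩

theorem PC.mul {m n : ℕ} {g h : G} (hg : PC m g) (hh : PC n h) : PC (m + n) (g * h) := by
  obtain ⟨l, hl, rfl⟩ := hg
  obtain ⟨l', hl', rfl⟩ := hh
  exact ⟨l ++ l', by simp [hl, hl'], by simp⟩

theorem PC.comm (a b : G) : PC 1 ⁅a, b⁆ := ⟨[(a, b)], rfl, by simp⟩

theorem PC.inv {n : ℕ} {g : G} (hg : PC n g) : PC n g⁻¹ := by
  obtain ⟨l, hl, rfl⟩ := hg
  induction l generalizing n with
  | nil => subst hl; exact ⟨[], rfl, by simp⟩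
  | cons p l ih =>
    subst hl
    have h1 := ih rfl
    simp only [List.map_cons, List.prod_cons, mul_inv_rev, commutatorElement_inv,
      List.length_cons]
    exact h1.mul (PC.comm _ _)

theorem PC.one (n : ℕ) : PC n (1 : G) := by
  induction n with
  | zero => exact PC.zero
  | succ n ih =>
    have := ih.mul (PC.comm (1 : G) 1)
    simpa using this

theorem PC.mono {m n : ℕ} (h : m ≤ n) {g : G} (hg : PC m g) : PC n g := by
  have := hg.mul (PC.one (G := G) (n - m))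
  rw [mul_one] at this
  convert this using 1
  omega

theorem PC.ofFn {k : ℕ} (a b : Fin k → G) : PC k (List.ofFn (fun l => ⁅a l, b l⁆)).prod := by
  refine ⟨List.ofFn (fun l => (a l, b l)), by simp, ?_⟩
  rw [List.map_ofFn]
  rfl

theorem PC.toFn {n : ℕ} {g : G} (hg : PC n g) : ∃ a b : Fin n → G,
    g = (List.ofFn (fun i => a i * b i * (a i)⁻¹ * (b i)⁻¹)).prod := by
  obtain ⟨l, hl, rfl⟩ := hg
  subst hl
  refine ⟨fun i => (l.get i).1, fun i => (l.get i).2, ?_⟩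
  congr 1
  apply List.ext_getElem
  · simp
  · intro i h1 h2
    simp [commutatorElement_def]

theorem PC.fromFn {n : ℕ} (a b : Fin n → G) :
    PC n (List.ofFn (fun i => a i * b i * (a i)⁻¹ * (b i)⁻¹)).prod := PC.ofFn a b

theorem PC.lift {G' : Type*} [Group G'] (f : G →* G') (hf : Function.Surjective f) {n : ℕ}
    {g : G} (hg : PC n (f g)) : ∃ w : G, PC n w ∧ w⁻¹ * g ∈ f.ker := by
  obtain ⟨l, hl, h⟩ := hg
  subst hl
  have key : ∀ l : List (G' × G'), ∃ w : G, PC l.length w ∧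
      f w = (l.map (fun p => ⁅p.1, p.2⁆)).prod := by
    intro l
    induction l with
    | nil => exact ⟨1, PC.zero, by simp⟩
    | cons p l ih =>
      obtain ⟨w, hw, hw'⟩ := ih
      obtain ⟨a, ha⟩ := hf p.1
      obtain ⟨b, hb⟩ := hf p.2
      refine ⟨⁅a, b⁆ * w, ?_, ?_⟩
      · have := (PC.comm a b).mul hw
        rw [List.length_cons, add_comm]; exact this
      · rw [map_mul, map_commutatorElement, ha, hb, hw']; simp
  obtain ⟨w, hw, hw'⟩ := key l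
  exact ⟨w, hw, by rw [MonoidHom.mem_ker, map_mul, map_inv, hw', ← h, inv_mul_cancel]⟩

end PC

/-! ### the Fox calculus lemma -/

/-- the homomorphism `u ↦ ∏ τ (x l) (u l)` -/
def foxHom {E : Type*} [Group E] {N : Subgroup E} {A : Type*} [CommGroup A]
    {ι : Type*} [Fintype ι] (τ : E → (N →* A)) (x : ι → E) : (ι → N) →* A where
  toFun u := ∏ l, τ (x l) (u l)
  map_one' := by simp
  map_mul' u v := by simp [Finset.prod_mul_distrib]

theorem fox {E : Type*} [Group E] {N : Subgroup E} [N.Normal] {A : Type*} [CommGroup A]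
    {ι : Type*} [Fintype ι] (τ : E → (N →* A))
    (h : ∀ g h a, τ (g * h) a = τ g (MulAut.conjNormal h a) * τ h a)
    (x : ι → E) (hx : closure (Set.range x) = ⊤) (g : E) (a : N) :
    τ g a ∈ (foxHom τ x).range := by
  classical
  have h1 : ∀ a, τ 1 a = 1 := by
    intro a
    have := h 1 1 a
    simp only [mul_one, map_one, MulAut.one_apply] at this
    exact (mul_eq_left.mp this.symm)
  have hg : g ∈ closure (Set.range x) := by rw [hx]; trivial
  induction hg using closure_induction generalizing a with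
  | mem y hy =>
    obtain ⟨l, rfl⟩ := hy
    refine ⟨Pi.mulSingle l a, ?_⟩
    show ∏ m, τ (x m) ((Pi.mulSingle l a : ι → N) m) = _
    rw [Finset.prod_eq_single l]
    · simp
    · intro m _ hm
      rw [Pi.mulSingle_eq_of_ne hm, map_one]
    · simp
  | one => rw [h1]; exact one_mem _
  | mul y z _ _ hy hz => rw [h]; exact mul_mem (hy _) (hz _)
  | inv y _ hy =>
    have h2 := h y y⁻¹ a
    rw [mul_inv_cancel, h1] at h2
    have h3 : τ y⁻¹ a = (τ y (MulAut.conjNormal y⁻¹ a))⁻¹ := by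
      rw [eq_inv_iff_mul_eq_one, mul_comm]; exact h2.symm
    rw [h3]
    exact inv_mem (hy _)

/-! ### abelian normal subgroups -/

theorem abelian_step {E : Type*} [Group E] {k : ℕ} (x : Fin k → E)
    (hx : closure (Set.range x) = ⊤) (N : Subgroup E) [hN : N.Normal]
    (hab : ⁅N, N⁆ = ⊥) (g : E) (hg : g ∈ ⁅N, (⊤ : Subgroup E)⁆) : PC k g := by
  have hcomm : ∀ a ∈ N, ∀ b ∈ N, a * b = b * a := by
    intro a ha b hb
    have h := commutator_mem_commutator ha hb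
    rw [hab, mem_bot, commutatorElement_eq_one_iff_mul_comm] at h
    exact h
  letI : CommGroup N := { (inferInstance : Group N) with
    mul_comm := fun a b => Subtype.ext (hcomm a a.2 b b.2) }
  have hmem : ∀ (g : E) (a : N), ⁅g, (a : E)⁆ ∈ N := by
    intro g a
    rw [commutatorElement_def]
    exact mul_mem (hN.conj_mem _ a.2 g) (inv_mem a.2)
  let τ : E → (N →* N) := fun g =>
    { toFun := fun a => ⟨⁅g, (a : E)⁆, hmem g a⟩
      map_one' := by ext; simp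
      map_mul' := by
        intro a b
        ext
        show ⁅g, ((a * b : N) : E)⁆ = ⁅g, (a : E)⁆ * ⁅g, (b : E)⁆
        have h1 : ⁅g, (a : E)⁆ * ⁅g, (b : E)⁆ =
            (g * a * g⁻¹) * ((a : E)⁻¹ * ⁅g, (b : E)⁆) := by
          rw [commutatorElement_def g (a : E)]; group
        rw [h1, hcomm _ (inv_mem a.2) _ (hmem g b)]
        simp only [commutatorElement_def, Subgroup.coe_mul]
        group }
  have hτ : ∀ g h a, τ (g * h) a = τ g (MulAut.conjNormal h a) * τ h a := by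
    intro g h a
    ext
    show ⁅g * h, (a : E)⁆ = ⁅g, ((MulAut.conjNormal h a : N) : E)⁆ * ⁅h, (a : E)⁆
    rw [MulAut.conjNormal_apply]
    simp only [commutatorElement_def]
    group
  have hfox := fox τ hτ x hx
  -- every element of `⁅N, ⊤⁆` is in the range
  have hle : ⁅N, (⊤ : Subgroup E)⁆ ≤ ((foxHom τ x).range).map N.subtype := by
    rw [commutator_le]
    intro a ha g _
    rw [← commutatorElement_inv]
    apply inv_mem
    exact ⟨τ g ⟨a, ha⟩, hfox g ⟨a, ha⟩, rfl⟩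
  obtain ⟨y, ⟨u, hu⟩, hy⟩ := hle hg
  have h3 : g = (List.ofFn (fun l => ⁅x l, (u l : E)⁆)).prod := by
    rw [← hy, ← hu]
    show N.subtype (∏ l, τ (x l) (u l)) = _
    rw [← List.prod_ofFn, map_list_prod, List.map_ofFn]
    rfl
  rw [h3]
  exact PC.ofFn _ _

/-! ### class two normal subgroups: the square trick -/

section Square

variable {E : Type*} [Group E] {P : Subgroup E}

theorem c2_comm (hz : ∀ p ∈ P, ∀ q ∈ P, ⁅p, q⁆ ∈ center E) {p q : E} (hp : p ∈ P) (hq : q ∈ P)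
    (e : E) : ⁅p, q⁆ * e = e * ⁅p, q⁆ :=
  (mem_center_iff.mp (hz p hp q hq) e).symm

theorem c2_mul_left (hz : ∀ p ∈ P, ∀ q ∈ P, ⁅p, q⁆ ∈ center E) {a b c : E} (ha : a ∈ P)
    (hb : b ∈ P) (hc : c ∈ P) : ⁅a * b, c⁆ = ⁅a, c⁆ * ⁅b, c⁆ := by
  have h1 : ⁅a * b, c⁆ = a * ⁅b, c⁆ * a⁻¹ * ⁅a, c⁆ := by
    simp only [commutatorElement_def]; group
  rw [h1, ← c2_comm hz hb hc a, mul_assoc ⁅b, c⁆, mul_inv_cancel, mul_one]
  exact c2_comm hz hb hc _

theorem c2_mul_right (hz : ∀ p ∈ P, ∀ q ∈ P, ⁅p, q⁆ ∈ center E) {a b c : E} (ha : a ∈ P)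
    (hb : b ∈ P) (hc : c ∈ P) : ⁅a, b * c⁆ = ⁅a, b⁆ * ⁅a, c⁆ := by
  have h1 : ⁅a, b * c⁆ = ⁅a, b⁆ * (b * ⁅a, c⁆ * b⁻¹) := by
    simp only [commutatorElement_def]; group
  rw [h1, ← c2_comm hz ha hc b, mul_assoc ⁅a, c⁆, mul_inv_cancel, mul_one]

theorem c2_inv_left (hz : ∀ p ∈ P, ∀ q ∈ P, ⁅p, q⁆ ∈ center E) {a b : E} (ha : a ∈ P)
    (hb : b ∈ P) : ⁅a⁻¹, b⁆ = ⁅a, b⁆⁻¹ := by
  have h := c2_mul_left hz (inv_mem ha) ha hb
  rw [inv_mul_cancel, commutatorElement_one_left] at h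
  exact eq_inv_of_mul_eq_one_left h.symm

theorem c2_inv_right (hz : ∀ p ∈ P, ∀ q ∈ P, ⁅p, q⁆ ∈ center E) {a b : E} (ha : a ∈ P)
    (hb : b ∈ P) : ⁅a, b⁻¹⁆ = ⁅a, b⁆⁻¹ := by
  have h := c2_mul_right hz ha (inv_mem hb) hb
  rw [inv_mul_cancel, commutatorElement_one_right] at h
  exact eq_inv_of_mul_eq_one_left h.symm

/-- pairs `(s, t)` of elements of `P` with central product -/
def GG (hz : ∀ p ∈ P, ∀ q ∈ P, ⁅p, q⁆ ∈ center E) : Subgroup (E × E) where
  carrier := {w | w.1 ∈ P ∧ w.2 ∈ P ∧ w.1 * w.2 ∈ center E}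
  one_mem' := ⟨one_mem _, one_mem _, by simpa using one_mem (center E)⟩
  mul_mem' := by
    rintro ⟨s, t⟩ ⟨s', t'⟩ ⟨h1, h2, h3⟩ ⟨h1', h2', h3'⟩
    refine ⟨mul_mem h1 h1', mul_mem h2 h2', ?_⟩
    simp only [Prod.mk_mul_mk] at *
    have h4 : s * s' * (t * t') = (s * t) * (⁅t⁻¹, s'⁆ * (s' * t')) := by
      simp only [commutatorElement_def]; group
    rw [h4]
    exact mul_mem h3 (mul_mem (hz _ (inv_mem h2) _ h1') h3')
  inv_mem' := by
    rintro ⟨s, t⟩ ⟨h1, h2, h3⟩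
    refine ⟨inv_mem h1, inv_mem h2, ?_⟩
    simp only [Prod.fst_inv, Prod.snd_inv] at *
    have h4 : s⁻¹ * t⁻¹ = (s⁻¹ * (s * t) * s)⁻¹ := by group
    rw [h4, ← mem_center_iff.mp h3 s⁻¹ |>.symm]
    rw [mul_assoc, inv_mul_cancel, mul_one]
    exact inv_mem h3

/-- the diagonal central pairs -/
def DD (hz : ∀ p ∈ P, ∀ q ∈ P, ⁅p, q⁆ ∈ center E) : Subgroup (GG hz) where
  carrier := {w | w.1.1 = w.1.2 ∧ w.1.1 ∈ center E}
  one_mem' := ⟨rfl, one_mem _⟩
  mul_mem' := by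
    rintro ⟨⟨s, t⟩, h⟩ ⟨⟨s', t'⟩, h'⟩ ⟨h1, h2⟩ ⟨h1', h2'⟩
    simp only at h1 h1'
    subst h1 h1'
    exact ⟨rfl, mul_mem h2 h2'⟩
  inv_mem' := by
    rintro ⟨⟨s, t⟩, h⟩ ⟨h1, h2⟩
    simp only at h1
    subst h1
    exact ⟨rfl, inv_mem h2⟩

instance DD_normal (hz : ∀ p ∈ P, ∀ q ∈ P, ⁅p, q⁆ ∈ center E) : (DD hz).Normal where
  conj_mem := by
    rintro ⟨⟨s, t⟩, h⟩ ⟨h1, h2⟩ ⟨⟨a, b⟩, h'⟩
    simp only at h1
    subst h1
    have h3 : a * s * a⁻¹ = s := by
      rw [mem_center_iff.mp h2 a, mul_assoc, mul_inv_cancel, mul_one]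
    have h4 : b * s * b⁻¹ = s := by
      rw [mem_center_iff.mp h2 b, mul_assoc, mul_inv_cancel, mul_one]
    refine ⟨?_, ?_⟩
    · show a * s * a⁻¹ = b * s * b⁻¹
      rw [h3, h4]
    · show a * s * a⁻¹ ∈ center E
      rw [h3]; exact h2

/-- the quotient is commutative -/
@[reducible] def AA (hz : ∀ p ∈ P, ∀ q ∈ P, ⁅p, q⁆ ∈ center E) : Type _ := GG hz ⧸ DD hz

theorem AA_comm (hz : ∀ p ∈ P, ∀ q ∈ P, ⁅p, q⁆ ∈ center E) (u v : AA hz) : u * v = v * u := by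
  induction u using QuotientGroup.induction_on with | _ u => ?_
  induction v using QuotientGroup.induction_on with | _ v => ?_
  rw [← QuotientGroup.mk_mul, ← QuotientGroup.mk_mul, QuotientGroup.eq]
  obtain ⟨⟨s, t⟩, hs, ht, hst⟩ := u
  obtain ⟨⟨s', t'⟩, hs', ht', hst'⟩ := v
  simp only at hs ht hst hs' ht' hst'
  have e1 : (s * s')⁻¹ * (s' * s) = ⁅s'⁻¹, s⁻¹⁆ := by
    simp only [commutatorElement_def]; group
  have e2 : (t * t')⁻¹ * (t' * t) = ⁅t'⁻¹, t⁻¹⁆ := by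
    simp only [commutatorElement_def]; group
  -- t = s⁻¹ c
  have e3 : ⁅t'⁻¹, t⁻¹⁆ = ⁅s'⁻¹, s⁻¹⁆ := by
    have f1 : t = s⁻¹ * (s * t) := by group
    have f2 : t' = s'⁻¹ * (s' * t') := by group
    have g1 : ∀ a : E, ∀ c ∈ center E, ∀ b : E, ⁅a * c, b⁆ = ⁅a, b⁆ := by
      intro a c hc b
      simp only [commutatorElement_def]
      have := mem_center_iff.mp hc b
      calc a * c * b * (a * c)⁻¹ * b⁻¹ = a * (c * b) * c⁻¹ * a⁻¹ * b⁻¹ := by group
        _ = a * (b * c) * c⁻¹ * a⁻¹ * b⁻¹ := by rw [this]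
        _ = _ := by group
    have g2 : ∀ a : E, ∀ c ∈ center E, ∀ b : E, ⁅b, a * c⁆ = ⁅b, a⁆ := by
      intro a c hc b
      rw [← commutatorElement_inv, g1 a c hc b, commutatorElement_inv]
    have f3 : ⁅t', t⁆ = ⁅s'⁻¹, s⁻¹⁆ := by
      rw [f1, f2, g1 _ _ hst', g2 _ _ hst]
    rw [c2_inv_left hz ht' (inv_mem ht), c2_inv_right hz ht' ht, inv_inv, f3]
  refine ⟨?_, ?_⟩
  · show (s * s')⁻¹ * (s' * s) = (t * t')⁻¹ * (t' * t)
    rw [e1, e2, e3]
  · show (s * s')⁻¹ * (s' * s) ∈ center E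
    rw [e1]; exact hz _ (inv_mem hs') _ (inv_mem hs)

instance AA_group (hz : ∀ p ∈ P, ∀ q ∈ P, ⁅p, q⁆ ∈ center E) : CommGroup (AA hz) :=
  { (inferInstance : Group (GG hz ⧸ DD hz)) with
    mul_comm := AA_comm hz }

theorem gg_mem (hz : ∀ p ∈ P, ∀ q ∈ P, ⁅p, q⁆ ∈ center E) [hP : P.Normal] (g : E) (a : P) :
    ((⁅g, (a : E)⁆, ⁅g, ((a⁻¹ : P) : E)⁆) : E × E) ∈ GG hz := by
  have h1 : ∀ b : P, ⁅g, (b : E)⁆ ∈ P := by
    intro b
    rw [commutatorElement_def]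
    exact mul_mem (hP.conj_mem _ b.2 g) (inv_mem b.2)
  refine ⟨h1 a, h1 a⁻¹, ?_⟩
  have h2 : ⁅g, (a : E)⁆ * ⁅g, ((a⁻¹ : P) : E)⁆ = ⁅g * a * g⁻¹, (a : E)⁻¹⁆ := by
    simp only [commutatorElement_def, Subgroup.coe_inv]; group
  show ⁅g, (a : E)⁆ * ⁅g, ((a⁻¹ : P) : E)⁆ ∈ center E
  rw [h2]
  exact hz _ (hP.conj_mem _ a.2 g) _ (inv_mem a.2)

/-- the symmetrised commutator map -/
def tau (hz : ∀ p ∈ P, ∀ q ∈ P, ⁅p, q⁆ ∈ center E) [hP : P.Normal] (g : E) : P →* AA hz where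
  toFun a := QuotientGroup.mk (⟨_, gg_mem hz g a⟩ : GG hz)
  map_one' := by
    rw [QuotientGroup.eq_one_iff]
    refine ⟨?_, ?_⟩
    · simp
    · show ⁅g, ((1 : P) : E)⁆ ∈ center E
      simp [one_mem]
  map_mul' := by
    intro a b
    rw [← QuotientGroup.mk_mul, QuotientGroup.eq]
    set α : E := g * a * g⁻¹ with hα
    set β : E := g * b * g⁻¹ with hβ
    have hαP : α ∈ P := hP.conj_mem _ a.2 g
    have hβP : β ∈ P := hP.conj_mem _ b.2 g
    -- both components of `(τ(ab))⁻¹ τ(a) τ(b)`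
    have k1 : (⁅g, ((a * b : P) : E)⁆)⁻¹ * (⁅g, (a : E)⁆ * ⁅g, (b : E)⁆) =
        ⁅(a : E), (b : E) * β⁻¹⁆ := by
      simp only [commutatorElement_def, Subgroup.coe_mul, hβ]
      group
    have k2 : (⁅g, (((a * b)⁻¹ : P) : E)⁆)⁻¹ * (⁅g, ((a⁻¹ : P) : E)⁆ * ⁅g, ((b⁻¹ : P) : E)⁆) =
        ((b : E)⁻¹ * (a : E)⁻¹) * (α * β * α⁻¹ * (a * β⁻¹)) * b := by
      simp only [commutatorElement_def, Subgroup.coe_mul, Subgroup.coe_inv, hα, hβ]
      group
    have k3 : α * β * α⁻¹ * (a * β⁻¹) = ⁅α, β⁆ * (⁅β, (a : E)⁆ * a) := by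
      simp only [commutatorElement_def]; group
    have k4 : ⁅α, β⁆ = ⁅(a : E), (b : E)⁆ := by
      have : ⁅α, β⁆ = g * ⁅(a : E), (b : E)⁆ * g⁻¹ := by
        simp only [commutatorElement_def, hα, hβ]; group
      rw [this, ← c2_comm hz a.2 b.2 g, mul_assoc, mul_inv_cancel, mul_one]
    have k5 : ((b : E)⁻¹ * (a : E)⁻¹) * (α * β * α⁻¹ * (a * β⁻¹)) * b =
        ⁅(a : E), (b : E)⁆ * ⁅β, (a : E)⁆ := by
      rw [k3, k4]
      have m1 := c2_comm hz a.2 b.2 (((b : E)⁻¹ * (a : E)⁻¹))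
      have m2 := c2_comm hz hβP a.2 (((b : E)⁻¹ * (a : E)⁻¹))
      calc ((b : E)⁻¹ * (a : E)⁻¹) * (⁅(a : E), (b : E)⁆ * (⁅β, (a : E)⁆ * a)) * b
          = (((b : E)⁻¹ * (a : E)⁻¹) * ⁅(a : E), (b : E)⁆) * ⁅β, (a : E)⁆ * a * b := by group
        _ = ⁅(a : E), (b : E)⁆ * (((b : E)⁻¹ * (a : E)⁻¹) * ⁅β, (a : E)⁆) * a * b := by
            rw [← m1]; group
        _ = ⁅(a : E), (b : E)⁆ * (⁅β, (a : E)⁆ * ((b : E)⁻¹ * (a : E)⁻¹)) * a * b := by
            rw [← m2]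
        _ = _ := by group
    have k6 : ⁅(a : E), (b : E) * β⁻¹⁆ = ⁅(a : E), (b : E)⁆ * ⁅β, (a : E)⁆ := by
      rw [c2_mul_right hz a.2 b.2 (inv_mem hβP), c2_inv_right hz a.2 hβP, commutatorElement_inv]
    refine ⟨?_, ?_⟩
    · show (⁅g, ((a * b : P) : E)⁆)⁻¹ * (⁅g, (a : E)⁆ * ⁅g, (b : E)⁆) =
        (⁅g, (((a * b)⁻¹ : P) : E)⁆)⁻¹ * (⁅g, ((a⁻¹ : P) : E)⁆ * ⁅g, ((b⁻¹ : P) : E)⁆)
      rw [k1, k2, k5, k6]
    · show (⁅g, ((a * b : P) : E)⁆)⁻¹ * (⁅g, (a : E)⁆ * ⁅g, (b : E)⁆) ∈ center E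
      rw [k1]
      exact hz _ a.2 _ (mul_mem b.2 (inv_mem hβP))

theorem tau_mul (hz : ∀ p ∈ P, ∀ q ∈ P, ⁅p, q⁆ ∈ center E) [hP : P.Normal] (g h : E) (a : P) :
    tau hz (g * h) a = tau hz g (MulAut.conjNormal h a) * tau hz h a := by
  show QuotientGroup.mk _ = QuotientGroup.mk _ * QuotientGroup.mk _
  rw [← QuotientGroup.mk_mul]
  congr 1
  apply Subtype.ext
  apply Prod.ext
  · show ⁅g * h, (a : E)⁆ = ⁅g, ((MulAut.conjNormal h a : P) : E)⁆ * ⁅h, (a : E)⁆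
    rw [MulAut.conjNormal_apply]
    simp only [commutatorElement_def]; group
  · show ⁅g * h, ((a⁻¹ : P) : E)⁆ =
      ⁅g, (((MulAut.conjNormal h a)⁻¹ : P) : E)⁆ * ⁅h, ((a⁻¹ : P) : E)⁆
    simp only [Subgroup.coe_inv, MulAut.conjNormal_apply, commutatorElement_def]; group

/-- **The square trick.** -/
theorem square_step {k : ℕ} (x : Fin k → E) (hx : closure (Set.range x) = ⊤)
    (hz : ∀ p ∈ P, ∀ q ∈ P, ⁅p, q⁆ ∈ center E) [hP : P.Normal] (z : E) (hzP : z ∈ ⁅P, P⁆) :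
    PC (2 * k) (z ^ 2) := by
  have hfox := fox (tau hz) (tau_mul hz) x hx
  set R := (foxHom (tau hz) x).range with hR
  -- the set of good central elements
  let S : Subgroup E :=
    { carrier := {z | z ∈ center E ∧ ∃ h : ((z, z⁻¹) : E × E) ∈ GG hz,
        (QuotientGroup.mk (⟨_, h⟩ : GG hz) : AA hz) ∈ R}
      one_mem' := by
        refine ⟨one_mem _, ?_, ?_⟩
        · refine ⟨one_mem _, ?_, ?_⟩
          · show (1 : E)⁻¹ ∈ P
            rw [inv_one]; exact one_mem _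
          · show (1 : E) * (1 : E)⁻¹ ∈ center E
            rw [inv_one, mul_one]; exact one_mem _
        · have : (QuotientGroup.mk (⟨((1 : E), (1 : E)⁻¹), by
            refine ⟨one_mem _, ?_, ?_⟩
            · show (1 : E)⁻¹ ∈ P
              rw [inv_one]; exact one_mem _
            · show (1 : E) * (1 : E)⁻¹ ∈ center E
              rw [inv_one, mul_one]; exact one_mem _⟩ : GG hz) : AA hz) = 1 := by
            rw [QuotientGroup.eq_one_iff]
            exact ⟨by simp, one_mem _⟩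
          rw [this]
          exact one_mem _
      mul_mem' := by
        rintro a b ⟨ha, ha', ha''⟩ ⟨hb, hb', hb''⟩
        have e : (a * b)⁻¹ = a⁻¹ * b⁻¹ := by
          rw [mul_inv_rev]
          exact (mem_center_iff.mp (inv_mem ha) b⁻¹)
        have e' : ((a * b, (a * b)⁻¹) : E × E) = (a, a⁻¹) * (b, b⁻¹) := by
          rw [e]; rfl
        refine ⟨mul_mem ha hb, ?_, ?_⟩
        · rw [e']; exact mul_mem ha' hb'
        · have := mul_mem ha'' hb''
          rw [← QuotientGroup.mk_mul] at this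
          convert this using 2
          exact Subtype.ext e'
      inv_mem' := by
        rintro a ⟨ha, ha', ha''⟩
        refine ⟨inv_mem ha, ?_, ?_⟩
        · have := inv_mem ha'
          exact this
        · have := inv_mem ha''
          rw [← QuotientGroup.mk_inv] at this
          exact this }
  have hle : ⁅P, P⁆ ≤ S := by
    rw [commutator_le]
    intro p hp a ha
    have h1 : ((⁅p, a⁆, ⁅p, a⁆⁻¹) : E × E) = (⁅p, ((⟨a, ha⟩ : P) : E)⁆,
        ⁅p, (((⟨a, ha⟩ : P)⁻¹ : P) : E)⁆) := by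
      apply Prod.ext
      · rfl
      · show ⁅p, a⁆⁻¹ = ⁅p, a⁻¹⁆
        rw [c2_inv_right hz hp ha]
    refine ⟨hz p hp a ha, ?_, ?_⟩
    · rw [h1]; exact gg_mem hz p ⟨a, ha⟩
    · have := hfox p ⟨a, ha⟩
      convert this using 1
      show QuotientGroup.mk _ = QuotientGroup.mk _
      congr 1
      exact Subtype.ext h1
  obtain ⟨hzc, hzG, ⟨u, hu⟩⟩ := hle hzP
  -- compute the product
  have h2 : foxHom (tau hz) x u = QuotientGroup.mk
      ((List.ofFn (fun l => (⟨_, gg_mem hz (x l) (u l)⟩ : GG hz))).prod) := by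
    show ∏ l, tau hz (x l) (u l) = _
    rw [← List.prod_ofFn]
    rw [← QuotientGroup.coe_mk', map_list_prod, List.map_ofFn]
    rfl
  rw [h2, QuotientGroup.eq] at hu
  obtain ⟨hu1, hu2⟩ := hu
  have p1 : ((List.ofFn (fun l => (⟨_, gg_mem hz (x l) (u l)⟩ : GG hz))).prod : GG hz).1.1 =
      (List.ofFn (fun l => ⁅x l, (u l : E)⁆)).prod := by
    have : ∀ (w : GG hz), w.1.1 = ((MonoidHom.fst E E).comp (GG hz).subtype) w := fun _ => rfl
    rw [this, map_list_prod, List.map_ofFn]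
    rfl
  have p2 : ((List.ofFn (fun l => (⟨_, gg_mem hz (x l) (u l)⟩ : GG hz))).prod : GG hz).1.2 =
      (List.ofFn (fun l => ⁅x l, ((u l)⁻¹ : E)⁆)).prod := by
    have : ∀ (w : GG hz), w.1.2 = ((MonoidHom.snd E E).comp (GG hz).subtype) w := fun _ => rfl
    rw [this, map_list_prod, List.map_ofFn]
    rfl
  have q1 : (List.ofFn (fun l => ⁅x l, (u l : E)⁆)).prod⁻¹ * z =
      (List.ofFn (fun l => ⁅x l, ((u l)⁻¹ : E)⁆)).prod⁻¹ * z⁻¹ := by
    rw [← p1, ← p2]; exact hu1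
  have q2 : z ^ 2 = (List.ofFn (fun l => ⁅x l, (u l : E)⁆)).prod *
      ((List.ofFn (fun l => ⁅x l, ((u l)⁻¹ : E)⁆)).prod)⁻¹ := by
    have : z = (List.ofFn (fun l => ⁅x l, (u l : E)⁆)).prod *
      ((List.ofFn (fun l => ⁅x l, ((u l)⁻¹ : E)⁆)).prod⁻¹ * z⁻¹) := by
      rw [← q1]; group
    calc z ^ 2 = z * z := sq z
      _ = ((List.ofFn (fun l => ⁅x l, (u l : E)⁆)).prod *
      ((List.ofFn (fun l => ⁅x l, ((u l)⁻¹ : E)⁆)).prod⁻¹ * z⁻¹)) * z := by rw [← this]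
      _ = _ := by group
  rw [q2, two_mul]
  exact (PC.ofFn _ _).mul (PC.ofFn _ _).inv

end Square

/-! ### class two groups -/

theorem v1_step {E : Type*} [Group E] {k : ℕ} (x : Fin k → E)
    (hx : closure (Set.range x) = ⊤) (hz : ∀ p q : E, ⁅p, q⁆ ∈ center E) (g : E)
    (hg : g ∈ ⁅(⊤ : Subgroup E), (⊤ : Subgroup E)⁆) : PC k g := by
  have hz' : ∀ p ∈ (⊤ : Subgroup E), ∀ q ∈ (⊤ : Subgroup E), ⁅p, q⁆ ∈ center E :=
    fun p _ q _ => hz p q
  letI : CommGroup (center E) := { (inferInstance : Group (center E)) with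
    mul_comm := fun a b => Subtype.ext (mem_center_iff.mp b.2 a) }
  let τ : E → ((⊤ : Subgroup E) →* center E) := fun g =>
    { toFun := fun a => ⟨⁅g, (a : E)⁆, hz g a⟩
      map_one' := by ext; simp
      map_mul' := by
        intro a b
        ext
        show ⁅g, ((a * b : (⊤ : Subgroup E)) : E)⁆ = ⁅g, (a : E)⁆ * ⁅g, (b : E)⁆
        exact c2_mul_right hz' (mem_top g) a.2 b.2 }
  have hτ : ∀ g h a, τ (g * h) a = τ g (MulAut.conjNormal h a) * τ h a := by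
    intro g h a
    ext
    show ⁅g * h, (a : E)⁆ = ⁅g, ((MulAut.conjNormal h a : (⊤ : Subgroup E)) : E)⁆ * ⁅h, (a : E)⁆
    rw [MulAut.conjNormal_apply]
    simp only [commutatorElement_def]
    group
  have hfox := fox τ hτ x hx
  have hle : ⁅(⊤ : Subgroup E), (⊤ : Subgroup E)⁆ ≤ ((foxHom τ x).range).map (center E).subtype := by
    rw [commutator_le]
    intro p _ q _
    exact ⟨τ p ⟨q, mem_top q⟩, hfox p ⟨q, mem_top q⟩, rfl⟩
  obtain ⟨y, ⟨u, hu⟩, hy⟩ := hle hg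
  have h3 : g = (List.ofFn (fun l => ⁅x l, (u l : E)⁆)).prod := by
    rw [← hy, ← hu]
    show (center E).subtype (∏ l, τ (x l) (u l)) = _
    rw [← List.prod_ofFn, map_list_prod, List.map_ofFn]
    rfl
  rw [h3]
  exact PC.ofFn _ _

/-- the derived group is the normal closure of the commutators of the generators -/
theorem comm_le_normalClosure {E : Type*} [Group E] {k : ℕ} (x : Fin k → E)
    (hx : closure (Set.range x) = ⊤) (N : Subgroup E) [hN : N.Normal]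
    (h : ∀ i j, ⁅x i, x j⁆ ∈ N) : ⁅(⊤ : Subgroup E), (⊤ : Subgroup E)⁆ ≤ N := by
  rw [commutator_le]
  have h1 : ∀ p : E, ∀ j, ⁅p, x j⁆ ∈ N := by
    intro p j
    have hp : p ∈ closure (Set.range x) := by rw [hx]; trivial
    induction hp using closure_induction with
    | mem y hy => obtain ⟨i, rfl⟩ := hy; exact h i j
    | one => simp [one_mem]
    | mul y z _ _ hy hz =>
      have e : ⁅y * z, x j⁆ = (y * ⁅z, x j⁆ * y⁻¹) * ⁅y, x j⁆ := by
        simp only [commutatorElement_def]; group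
      rw [e]
      exact mul_mem (hN.conj_mem _ hz y) hy
    | inv y _ hy =>
      have e : ⁅y⁻¹, x j⁆ = y⁻¹ * ⁅y, x j⁆⁻¹ * (y⁻¹)⁻¹ := by
        simp only [commutatorElement_def]; group
      rw [e]
      exact hN.conj_mem _ (inv_mem hy) y⁻¹
  intro p _ q _
  have hq : q ∈ closure (Set.range x) := by rw [hx]; trivial
  induction hq using closure_induction with
  | mem y hy => obtain ⟨i, rfl⟩ := hy; exact h1 p i
  | one => simp [one_mem]
  | mul y z _ _ hy hz =>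
    have e : ⁅p, y * z⁆ = ⁅p, y⁆ * (y * ⁅p, z⁆ * y⁻¹) := by
      simp only [commutatorElement_def]; group
    rw [e]
    exact mul_mem (hy (mem_top y)) (hN.conj_mem _ (hz (mem_top z)) y)
  | inv y _ hy =>
    have e : ⁅p, y⁻¹⁆ = y⁻¹ * ⁅p, y⁆⁻¹ * (y⁻¹)⁻¹ := by
      simp only [commutatorElement_def]; group
    rw [e]
    exact hN.conj_mem _ (inv_mem (hy (mem_top y))) y⁻¹

theorem v2_step {E : Type*} [Group E] {k : ℕ} (x : Fin k → E)
    (hx : closure (Set.range x) = ⊤) (P : Subgroup E) [hPn : P.Normal]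
    (hP : P = ⁅(⊤ : Subgroup E), (⊤ : Subgroup E)⁆)
    (hz : ∀ p ∈ P, ∀ q ∈ P, ⁅p, q⁆ ∈ center E) (g : E) (hg : g ∈ ⁅P, P⁆) : PC (k * k) g := by
  classical
  letI : CommGroup (center E) := { (inferInstance : Group (center E)) with
    mul_comm := fun a b => Subtype.ext (mem_center_iff.mp b.2 a) }
  let c : Fin (k * k) → E := fun l => ⁅x (finProdFinEquiv.symm l).1, x (finProdFinEquiv.symm l).2⁆
  have hc : ∀ l, c l ∈ P := by
    intro l
    rw [hP]
    exact commutator_mem_commutator (mem_top _) (mem_top _)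
  let β : Fin (k * k) → (P →* center E) := fun l =>
    { toFun := fun q => ⟨⁅c l, (q : E)⁆, hz _ (hc l) _ q.2⟩
      map_one' := by ext; simp
      map_mul' := by
        intro a b
        ext
        show ⁅c l, ((a * b : P) : E)⁆ = ⁅c l, (a : E)⁆ * ⁅c l, (b : E)⁆
        exact c2_mul_right hz (hc l) a.2 b.2 }
  let S : Subgroup (center E) :=
    { carrier := {z | ∃ u : Fin (k * k) → P, z = ∏ l, β l (u l)}
      one_mem' := ⟨1, by simp⟩
      mul_mem' := by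
        rintro a b ⟨u, rfl⟩ ⟨v, rfl⟩
        exact ⟨u * v, by simp [Finset.prod_mul_distrib]⟩
      inv_mem' := by
        rintro a ⟨u, rfl⟩
        exact ⟨u⁻¹, by simp⟩ }
  let N : Subgroup E :=
    { carrier := {p | p ∈ P ∧ ∀ q ∈ P, ∃ z ∈ S, (z : E) = ⁅p, q⁆}
      one_mem' := ⟨one_mem _, fun q _ => ⟨1, one_mem _, by simp⟩⟩
      mul_mem' := by
        rintro a b ⟨ha, ha'⟩ ⟨hb, hb'⟩
        refine ⟨mul_mem ha hb, fun q hq => ?_⟩
        obtain ⟨z, hz1, hz2⟩ := ha' q hq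
        obtain ⟨w, hw1, hw2⟩ := hb' q hq
        exact ⟨z * w, mul_mem hz1 hw1, by
          rw [c2_mul_left hz ha hb hq, Subgroup.coe_mul, hz2, hw2]⟩
      inv_mem' := by
        rintro a ⟨ha, ha'⟩
        refine ⟨inv_mem ha, fun q hq => ?_⟩
        obtain ⟨z, hz1, hz2⟩ := ha' q hq
        exact ⟨z⁻¹, inv_mem hz1, by rw [c2_inv_left hz ha hq, Subgroup.coe_inv, hz2]⟩ }
  haveI hNn : N.Normal := by
    constructor
    rintro p ⟨hp, hp'⟩ e
    refine ⟨hPn.conj_mem _ hp e, fun q hq => ?_⟩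
    have hq' : e⁻¹ * q * e ∈ P := by
      have := hPn.conj_mem _ hq e⁻¹
      rwa [inv_inv] at this
    obtain ⟨z, hz1, hz2⟩ := hp' _ hq'
    refine ⟨z, hz1, ?_⟩
    rw [hz2]
    have e1 : ⁅e * p * e⁻¹, q⁆ = e * ⁅p, e⁻¹ * q * e⁆ * e⁻¹ := by
      simp only [commutatorElement_def]; group
    rw [e1, ← c2_comm hz hp hq' e, mul_assoc ⁅p, e⁻¹ * q * e⁆, mul_inv_cancel, mul_one]
  have hPN : P ≤ N := by
    rw [hP]
    refine comm_le_normalClosure x hx N ?_
    intro i j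
    have hcl : ⁅x i, x j⁆ = c (finProdFinEquiv (i, j)) := by
      show _ = ⁅x (finProdFinEquiv.symm (finProdFinEquiv (i, j))).1,
        x (finProdFinEquiv.symm (finProdFinEquiv (i, j))).2⁆
      rw [Equiv.symm_apply_apply]
    rw [hcl]
    refine ⟨hc _, fun q hq => ?_⟩
    refine ⟨β (finProdFinEquiv (i, j)) ⟨q, hq⟩, ?_, rfl⟩
    refine ⟨Pi.mulSingle (finProdFinEquiv (i, j)) ⟨q, hq⟩, ?_⟩
    rw [Finset.prod_eq_single (finProdFinEquiv (i, j))]
    · simp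
    · intro m _ hm
      rw [Pi.mulSingle_eq_of_ne hm, map_one]
    · simp
  have hle : ⁅P, P⁆ ≤ S.map (center E).subtype := by
    rw [commutator_le]
    intro p hp q hq
    obtain ⟨z, hz1, hz2⟩ := (hPN hp).2 q hq
    exact ⟨z, hz1, hz2⟩
  obtain ⟨y, ⟨u, hu⟩, hy⟩ := hle hg
  have h3 : g = (List.ofFn (fun l => ⁅c l, (u l : E)⁆)).prod := by
    rw [← hy, hu]
    show (center E).subtype (∏ l, β l (u l)) = _
    rw [← List.prod_ofFn, map_list_prod, List.map_ofFn]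
    rfl
  rw [h3]
  exact PC.ofFn _ _

/-! ### lifting to the group -/

section Lift

variable {G : Type*} [Group G] {k : ℕ}

theorem gen_quot (x : Fin k → G) (hx : closure (Set.range x) = ⊤) (K : Subgroup G) [K.Normal] :
    closure (Set.range (fun i => QuotientGroup.mk' K (x i))) = ⊤ := by
  have h1 : Set.range (fun i => QuotientGroup.mk' K (x i)) =
      QuotientGroup.mk' K '' (Set.range x) := by
    rw [← Set.range_comp]; rfl
  rw [h1, ← MonoidHom.map_closure, hx, ← MonoidHom.range_eq_map]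
  exact MonoidHom.range_eq_top.mpr (QuotientGroup.mk'_surjective K)

theorem central_quot (D : Subgroup G) [D.Normal] (g : G) (hg : g ∈ D) :
    QuotientGroup.mk' ⁅D, (⊤ : Subgroup G)⁆ g ∈ center (G ⧸ ⁅D, (⊤ : Subgroup G)⁆) := by
  rw [mem_center_iff]
  intro h
  obtain ⟨h, rfl⟩ := QuotientGroup.mk'_surjective _ h
  rw [← map_mul, ← map_mul]
  show (QuotientGroup.mk (h * g) : G ⧸ ⁅D, (⊤ : Subgroup G)⁆) = QuotientGroup.mk (g * h)
  rw [QuotientGroup.eq]
  have h1 : (h * g)⁻¹ * (g * h) = ⁅g⁻¹, h⁻¹⁆ := by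
    simp only [commutatorElement_def]; group
  rw [h1]
  exact commutator_mem_commutator (inv_mem hg) (mem_top _)

theorem lift_of_quot (K : Subgroup G) [K.Normal] {n : ℕ} {g : G}
    (h : PC n (QuotientGroup.mk' K g)) : ∃ w, PC n w ∧ w⁻¹ * g ∈ K := by
  obtain ⟨w, hw, hw'⟩ := PC.lift (QuotientGroup.mk' K) (QuotientGroup.mk'_surjective K) h
  rw [QuotientGroup.ker_mk'] at hw'
  exact ⟨w, hw, hw'⟩

/-- `⁅D, G⁆` modulo `⁅D, D⁆` -/
theorem abelian_lift (x : Fin k → G) (hx : closure (Set.range x) = ⊤) (D : Subgroup G) [D.Normal]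
    {g : G} (hg : g ∈ ⁅D, (⊤ : Subgroup G)⁆) : ∃ w, PC k w ∧ w⁻¹ * g ∈ ⁅D, D⁆ := by
  apply lift_of_quot
  set f := QuotientGroup.mk' ⁅D, D⁆ with hf
  haveI : (D.map f).Normal := Subgroup.Normal.map ‹_› f (QuotientGroup.mk'_surjective _)
  refine abelian_step (fun i => f (x i)) (gen_quot x hx _) (D.map f) ?_ _ ?_
  · rw [← Subgroup.map_commutator, Subgroup.map_eq_bot_iff, hf, QuotientGroup.ker_mk']
  · have h1 : (⊤ : Subgroup (G ⧸ ⁅D, D⁆)) = (⊤ : Subgroup G).map f := by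
      rw [← MonoidHom.range_eq_map]
      exact (MonoidHom.range_eq_top.mpr (QuotientGroup.mk'_surjective _)).symm
    rw [h1, ← Subgroup.map_commutator]
    exact Subgroup.mem_map_of_mem _ hg

/-- squares of elements of `⁅D, D⁆` modulo `⁅⁅D, D⁆, G⁆` -/
theorem square_lift (x : Fin k → G) (hx : closure (Set.range x) = ⊤) (D : Subgroup G) [D.Normal]
    {g : G} (hg : g ∈ ⁅D, D⁆) : ∃ w, PC (2 * k) w ∧ w⁻¹ * g ^ 2 ∈ ⁅⁅D, D⁆, (⊤ : Subgroup G)⁆ := by
  apply lift_of_quot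
  set f := QuotientGroup.mk' ⁅⁅D, D⁆, (⊤ : Subgroup G)⁆ with hf
  haveI : (D.map f).Normal := Subgroup.Normal.map ‹_› f (QuotientGroup.mk'_surjective _)
  rw [map_pow]
  refine square_step (P := D.map f) (fun i => f (x i)) (gen_quot x hx _) ?_ _ ?_
  · rintro p ⟨a, ha, rfl⟩ q ⟨b, hb, rfl⟩
    rw [← map_commutatorElement]
    exact central_quot _ _ (commutator_mem_commutator ha hb)
  · rw [← Subgroup.map_commutator]
    exact Subgroup.mem_map_of_mem _ hg

theorem v1_lift (x : Fin k → G) (hx : closure (Set.range x) = ⊤)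
    {g : G} (hg : g ∈ ⁅(⊤ : Subgroup G), (⊤ : Subgroup G)⁆) :
    ∃ w, PC k w ∧ w⁻¹ * g ∈ ⁅⁅(⊤ : Subgroup G), (⊤ : Subgroup G)⁆, (⊤ : Subgroup G)⁆ := by
  apply lift_of_quot
  set f := QuotientGroup.mk' ⁅⁅(⊤ : Subgroup G), (⊤ : Subgroup G)⁆, (⊤ : Subgroup G)⁆ with hf
  refine v1_step (fun i => f (x i)) (gen_quot x hx _) ?_ _ ?_
  · intro p q
    obtain ⟨a, rfl⟩ := QuotientGroup.mk'_surjective _ p
    obtain ⟨b, rfl⟩ := QuotientGroup.mk'_surjective _ q
    rw [← map_commutatorElement]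
    exact central_quot _ _ (commutator_mem_commutator (mem_top a) (mem_top b))
  · have h1 : (⊤ : Subgroup (G ⧸ ⁅⁅(⊤ : Subgroup G), (⊤ : Subgroup G)⁆, (⊤ : Subgroup G)⁆)) =
        (⊤ : Subgroup G).map f := by
      rw [← MonoidHom.range_eq_map]
      exact (MonoidHom.range_eq_top.mpr (QuotientGroup.mk'_surjective _)).symm
    rw [h1, ← Subgroup.map_commutator]
    exact Subgroup.mem_map_of_mem _ hg

theorem v2_lift (x : Fin k → G) (hx : closure (Set.range x) = ⊤) (D : Subgroup G) [D.Normal]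
    (hD : D = ⁅(⊤ : Subgroup G), (⊤ : Subgroup G)⁆)
    {g : G} (hg : g ∈ ⁅D, D⁆) :
    ∃ w, PC (k * k) w ∧ w⁻¹ * g ∈ ⁅⁅D, D⁆, (⊤ : Subgroup G)⁆ := by
  apply lift_of_quot
  set f := QuotientGroup.mk' ⁅⁅D, D⁆, (⊤ : Subgroup G)⁆ with hf
  haveI : (D.map f).Normal := Subgroup.Normal.map ‹_› f (QuotientGroup.mk'_surjective _)
  refine v2_step (fun i => f (x i)) (gen_quot x hx _) (D.map f) ?_ ?_ _ ?_
  · have h1 : (⊤ : Subgroup (G ⧸ ⁅⁅D, D⁆, (⊤ : Subgroup G)⁆)) = (⊤ : Subgroup G).map f := by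
      rw [← MonoidHom.range_eq_map]
      exact (MonoidHom.range_eq_top.mpr (QuotientGroup.mk'_surjective _)).symm
    rw [h1, ← Subgroup.map_commutator, ← hD]
  · rintro p ⟨a, ha, rfl⟩ q ⟨b, hb, rfl⟩
    rw [← map_commutatorElement]
    exact central_quot _ _ (commutator_mem_commutator ha hb)
  · rw [← Subgroup.map_commutator]
    exact Subgroup.mem_map_of_mem _ hg

end Lift

end Pool.Agent.Helper354.CWidth
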