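import Pool.Agent.Helper354.CWidth

set_option autoImplicit false

/-!
Commutator width of finitely generated soluble groups: consequences of the square trick.
-/

namespace Pool.Agent.Helper354.CWidth

open Subgroup
open scoped commutatorElement

section Main

variable {G : Type*} [Group G] {k : ℕ}

theorem chain {m n : ℕ} {g : G} {A B : Subgroup G} (h1 : ∃ w, PC m w ∧ w⁻¹ * g ∈ A)
    (h2 : ∀ r ∈ A, ∃ w, PC n w ∧ w⁻¹ * r ∈ B) : ∃ w, PC (m + n) w ∧ w⁻¹ * g ∈ B := by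
  obtain ⟨w, hw, hw'⟩ := h1
  obtain ⟨v, hv, hv'⟩ := h2 _ hw'
  refine ⟨w * v, hw.mul hv, ?_⟩
  have : (w * v)⁻¹ * g = v⁻¹ * (w⁻¹ * g) := by group
  rw [this]; exact hv'

/-- the first steps, down to the third derived group -/
theorem base (x : Fin k → G) (hx : closure (Set.range x) = ⊤) {g : G}
    (hg : g ∈ derivedSeries G 1) :
    ∃ w, PC (k * k + 3 * k) w ∧ w⁻¹ * g ∈ derivedSeries G 3 := by
  have h1 : ∃ w, PC (k + k) w ∧ w⁻¹ * g ∈ derivedSeries G 2 :=
    chain (v1_lift x hx hg) (fun r hr => abelian_lift x hx (derivedSeries G 1) hr)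
  have h2 : ∃ w, PC (k + k + (k * k + k)) w ∧ w⁻¹ * g ∈ derivedSeries G 3 :=
    chain h1 (fun r hr => chain (v2_lift x hx (derivedSeries G 1) rfl hr)
      (fun s hs => abelian_lift x hx (derivedSeries G 2) hs))
  obtain ⟨w, hw, hw'⟩ := h2
  exact ⟨w, by convert hw using 1; ring, hw'⟩

/-- squares of elements of a derived group are products of `3 k` commutators modulo the next
derived group -/
theorem sq_step (x : Fin k → G) (hx : closure (Set.range x) = ⊤) (i : ℕ) {g : G}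
    (hg : g ∈ derivedSeries G (i + 1)) :
    ∃ w, PC (3 * k) w ∧ w⁻¹ * g ^ 2 ∈ derivedSeries G (i + 2) := by
  have h2 : ∃ w, PC (2 * k + k) w ∧ w⁻¹ * g ^ 2 ∈ derivedSeries G (i + 2) :=
    chain (square_lift x hx (derivedSeries G i) hg)
      (fun s hs => abelian_lift x hx (derivedSeries G (i + 1)) hs)
  obtain ⟨w, hw, hw'⟩ := h2
  exact ⟨w, by convert hw using 1; ring, hw'⟩

/-- modulo `⁅D, G⁆` it is enough to have square roots -/
theorem root_step (x : Fin k → G) (hx : closure (Set.range x) = ⊤) (i : ℕ) {g h : G}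
    (hh : h ∈ derivedSeries G (i + 1))
    (hgh : (h ^ 2)⁻¹ * g ∈ ⁅derivedSeries G (i + 1), (⊤ : Subgroup G)⁆) :
    ∃ w, PC (3 * k) w ∧ w⁻¹ * g ∈ derivedSeries G (i + 2) := by
  obtain ⟨w, hw, hw'⟩ := square_lift x hx (derivedSeries G i) hh
  have h1 : ∃ w, PC (2 * k) w ∧ w⁻¹ * g ∈ ⁅derivedSeries G (i + 1), (⊤ : Subgroup G)⁆ := by
    refine ⟨w, hw, ?_⟩
    have : w⁻¹ * g = (w⁻¹ * h ^ 2) * ((h ^ 2)⁻¹ * g) := by group
    rw [this]
    exact mul_mem hw' hgh
  obtain ⟨w, hw, hw'⟩ := chain h1 (fun s hs => abelian_lift x hx (derivedSeries G (i + 1)) hs)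
  exact ⟨w, by convert hw using 1; ring, hw'⟩

theorem width_aux (x : Fin k → G) (hx : closure (Set.range x) = ⊤)
    (hyp : ∀ i, 3 ≤ i → ∀ g ∈ derivedSeries G i, ∃ h ∈ derivedSeries G i,
      (h ^ 2)⁻¹ * g ∈ ⁅derivedSeries G i, (⊤ : Subgroup G)⁆) (j : ℕ) {g : G}
    (hg : g ∈ derivedSeries G 1) :
    ∃ w, PC (k * k + 3 * k * (j + 1)) w ∧ w⁻¹ * g ∈ derivedSeries G (j + 3) := by
  induction j with
  | zero => simpa using base x hx hg
  | succ j ih =>
    obtain ⟨w, hw, hw'⟩ := chain ih (fun r hr => by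
      obtain ⟨h, hh, hh'⟩ := hyp (j + 3) (by omega) r hr
      exact root_step x hx (j + 2) hh hh')
    exact ⟨w, by convert hw using 1; ring, hw'⟩

/-- finite commutator width if all elements of `D_i / ⁅D_i, G⁆`, `i ≥ 3`, are squares -/
theorem width (x : Fin k → G) (hx : closure (Set.range x) = ⊤)
    (hyp : ∀ i, 3 ≤ i → ∀ g ∈ derivedSeries G i, ∃ h ∈ derivedSeries G i,
      (h ^ 2)⁻¹ * g ∈ ⁅derivedSeries G i, (⊤ : Subgroup G)⁆) (d : ℕ) {g : G}
    (hg : g ∈ derivedSeries G 1) :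
    ∃ w, PC (k * k + 3 * k * d) w ∧ w⁻¹ * g ∈ derivedSeries G d := by
  rcases Nat.eq_zero_or_pos d with rfl | hd
  · exact ⟨1, PC.one _, by simp⟩
  rcases Nat.lt_or_ge d 3 with h3 | h3
  · obtain ⟨w, hw, hw'⟩ := width_aux x hx hyp 0 hg
    refine ⟨w, hw.mono ?_, derivedSeries_antitone G (by omega : d ≤ 0 + 3) hw'⟩
    have : 3 * k * (0 + 1) ≤ 3 * k * d := Nat.mul_le_mul_left _ hd
    omega
  · obtain ⟨j, rfl⟩ := Nat.exists_eq_add_of_le' h3
    obtain ⟨w, hw, hw'⟩ := width_aux x hx hyp j hg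
    refine ⟨w, hw.mono ?_, hw'⟩
    have : 3 * k * (j + 1) ≤ 3 * k * (j + 3) := Nat.mul_le_mul_left _ (by omega)
    omega

/-- powers of two of elements of the derived group -/
theorem pow_step (x : Fin k → G) (hx : closure (Set.range x) = ⊤) (j : ℕ) {g : G}
    (hg : g ∈ derivedSeries G 1) :
    ∃ w, PC (2 ^ j * (k * k + 6 * k + 1)) w ∧ w⁻¹ * g ^ (2 ^ j) ∈ derivedSeries G (j + 3) := by
  have key : ∃ m w, m + (3 * k + 1) = 2 ^ j * (k * k + 6 * k + 1) ∧ PC m w ∧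
      w⁻¹ * g ^ (2 ^ j) ∈ derivedSeries G (j + 3) := by
    induction j with
    | zero =>
      obtain ⟨w, hw, hw'⟩ := base x hx hg
      exact ⟨_, w, by ring, hw, by simpa using hw'⟩
    | succ j ih =>
      obtain ⟨m, w, hm, hw, hw'⟩ := ih
      set r := w⁻¹ * g ^ (2 ^ j) with hr
      obtain ⟨v, hv, hv'⟩ := sq_step x hx (j + 2) hw'
      refine ⟨m + m + 1 + 3 * k, w * w * ⁅w⁻¹, r⁆ * v, ?_, ?_, ?_⟩
      · have e : 2 ^ (j + 1) * (k * k + 6 * k + 1) = 2 * (2 ^ j * (k * k + 6 * k + 1)) := by ring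
        rw [e, ← hm]; ring
      · exact ((hw.mul hw).mul (PC.comm _ _)).mul hv
      · have e1 : g ^ (2 ^ (j + 1)) = w * w * ⁅w⁻¹, r⁆ * r ^ 2 := by
          have e2 : g ^ (2 ^ j) = w * r := by rw [hr]; group
          rw [pow_succ, pow_mul, e2]
          simp only [commutatorElement_def, pow_two]
          group
        have e3 : (w * w * ⁅w⁻¹, r⁆ * v)⁻¹ * g ^ (2 ^ (j + 1)) = v⁻¹ * r ^ 2 := by
          rw [e1]; group
        rw [e3]
        exact hv'
  obtain ⟨m, w, hm, hw, hw'⟩ := key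
  exact ⟨w, hw.mono (by omega), hw'⟩

/-- an element of `⁅D, G⁆ · D²` is a square modulo `⁅D, G⁆` -/
theorem exists_root (D : Subgroup G) [D.Normal] {s : G}
    (hs : s ∈ ⁅D, (⊤ : Subgroup G)⁆ ⊔ closure {x | ∃ y ∈ D, x = y ^ 2}) :
    ∃ t ∈ D, (t ^ 2)⁻¹ * s ∈ ⁅D, (⊤ : Subgroup G)⁆ := by
  set f := QuotientGroup.mk' ⁅D, (⊤ : Subgroup G)⁆ with hf
  have hker : ∀ a b : G, f a = f b → a⁻¹ * b ∈ ⁅D, (⊤ : Subgroup G)⁆ := by
    intro a b h
    exact QuotientGroup.eq.mp h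
  let T : Subgroup G :=
    { carrier := {s | ∃ t ∈ D, f (t ^ 2) = f s}
      one_mem' := ⟨1, one_mem _, by simp⟩
      mul_mem' := by
        rintro a b ⟨t, ht, hta⟩ ⟨u, hu, hub⟩
        refine ⟨t * u, mul_mem ht hu, ?_⟩
        have hc := mem_center_iff.mp (central_quot D t ht) (f u)
        have hc' : Commute (f t) (f u) := hc.symm
        rw [map_mul f a b, ← hta, ← hub, map_pow, map_mul, hc'.mul_pow, map_pow, map_pow]
      inv_mem' := by
        rintro a ⟨t, ht, hta⟩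
        exact ⟨t⁻¹, inv_mem ht, by rw [inv_pow, map_inv, map_inv, hta]⟩ }
  have hle : ⁅D, (⊤ : Subgroup G)⁆ ⊔ closure {x | ∃ y ∈ D, x = y ^ 2} ≤ T := by
    rw [sup_le_iff, closure_le]
    refine ⟨fun a ha => ⟨1, one_mem _, ?_⟩, ?_⟩
    · have : f a = 1 := (QuotientGroup.eq_one_iff a).mpr ha
      rw [this, one_pow, map_one]
    · rintro _ ⟨y, hy, rfl⟩
      exact ⟨y, hy, rfl⟩
  obtain ⟨t, ht, hts⟩ := hle hs
  exact ⟨t, ht, hker _ _ hts⟩

/-- reduction to the quotient by `⁅D, G⁆ · D²`, `D = D_{i+1}` -/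
theorem reduction (x : Fin k → G) (hx : closure (Set.range x) = ⊤) (i n : ℕ)
    (h : ∀ g ∈ derivedSeries G 1, ∃ w, PC n w ∧ w⁻¹ * g ∈
      ⁅derivedSeries G (i + 1), (⊤ : Subgroup G)⁆ ⊔
        closure {x | ∃ y ∈ derivedSeries G (i + 1), x = y ^ 2}) (g : G)
    (hg : g ∈ derivedSeries G 1) :
    ∃ w, PC (n + 3 * k) w ∧ w⁻¹ * g ∈ derivedSeries G (i + 2) := by
  refine chain (h g hg) (fun s hs => ?_)
  obtain ⟨t, ht, ht'⟩ := exists_root _ hs
  exact root_step x hx i ht ht'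

/-- the subgroup generated by the `m`-th powers of the elements of a normal subgroup -/
theorem closure_pow_normal (D : Subgroup G) [hD : D.Normal] (m : ℕ) :
    (closure {x : G | ∃ y ∈ D, x = y ^ m}).Normal := by
  have h : closure {x : G | ∃ y ∈ D, x = y ^ m} =
      normalClosure {x : G | ∃ y ∈ D, x = y ^ m} := by
    apply le_antisymm
    · exact closure_le_normalClosure
    · rw [normalClosure, closure_le]
      intro z hz
      apply Subgroup.subset_closure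
      rw [Group.mem_conjugatesOfSet_iff] at hz
      obtain ⟨a, ⟨y, hy, rfl⟩, hc⟩ := hz
      rw [isConj_iff] at hc
      obtain ⟨c, rfl⟩ := hc
      exact ⟨c * y * c⁻¹, hD.conj_mem _ hy c, conj_pow.symm⟩
  rw [h]
  infer_instance

/-- odd quotients -/
theorem odd_quot (x : Fin k → G) (hx : closure (Set.range x) = ⊤) (d m : ℕ) (hm : Odd m) (g : G)
    (hg : g ∈ derivedSeries G 1) :
    ∃ w, PC (k * k + 3 * k * d) w ∧ w⁻¹ * g ∈ derivedSeries G d ⊔
      closure {x | ∃ y ∈ derivedSeries G 3, x = y ^ m} := by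
  haveI := closure_pow_normal (derivedSeries G 3) m
  set K := closure {x : G | ∃ y ∈ derivedSeries G 3, x = y ^ m} with hK
  set f := QuotientGroup.mk' K with hf
  have hsurj := QuotientGroup.mk'_surjective K
  have hmap : ∀ n, (derivedSeries G n).map f = derivedSeries (G ⧸ K) n := fun n =>
    map_derivedSeries_eq hsurj n
  have hexp : ∀ i, 3 ≤ i → ∀ g ∈ derivedSeries (G ⧸ K) i, g ^ m = 1 := by
    intro i hi g hg
    have h3 := derivedSeries_antitone _ hi hg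
    rw [← hmap] at h3
    obtain ⟨y, hy, rfl⟩ := h3
    rw [← map_pow]
    exact (QuotientGroup.eq_one_iff _).mpr (Subgroup.subset_closure ⟨y, hy, rfl⟩)
  obtain ⟨c, hc⟩ := hm
  have hw := width (G := G ⧸ K) (fun i => f (x i)) (gen_quot x hx K) (fun i hi g hg => by
    refine ⟨g ^ (c + 1), pow_mem hg _, ?_⟩
    have h1 := hexp i hi g hg
    have h2 : (g ^ (c + 1)) ^ 2 = g := by
      rw [← pow_mul]
      have : (c + 1) * 2 = m + 1 := by omega
      rw [this, pow_succ, h1, one_mul]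
    rw [h2, inv_mul_cancel]
    exact one_mem _) d (g := f g) (by rw [← hmap]; exact mem_map_of_mem _ hg)
  obtain ⟨w, hw1, hw2⟩ := hw
  obtain ⟨v, hv, hv'⟩ : ∃ v, PC (k * k + 3 * k * d) v ∧ f v = w := by
    obtain ⟨l, hl, hl'⟩ := hw1
    have key : ∀ l : List ((G ⧸ K) × (G ⧸ K)), ∃ v : G, PC l.length v ∧
        f v = (l.map (fun p => ⁅p.1, p.2⁆)).prod := by
      intro l
      induction l with
      | nil => exact ⟨1, PC.zero, by simp⟩
      | cons p l ih =>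
        obtain ⟨w, hw, hw'⟩ := ih
        obtain ⟨a, ha⟩ := hsurj p.1
        obtain ⟨b, hb⟩ := hsurj p.2
        refine ⟨⁅a, b⁆ * w, ?_, ?_⟩
        · have := (PC.comm a b).mul hw
          rw [List.length_cons, add_comm]; exact this
        · rw [map_mul, map_commutatorElement, hw']
          simp only [List.map_cons, List.prod_cons]
          rw [← ha, ← hb]
    obtain ⟨v, hv, hv'⟩ := key l
    rw [hl] at hv
    exact ⟨v, hv, by rw [hv', hl']⟩
  refine ⟨v, hv, ?_⟩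
  rw [← hv', ← map_inv, ← map_mul, ← hmap] at hw2
  obtain ⟨y, hy, hy'⟩ := hw2
  have h4 : y⁻¹ * (v⁻¹ * g) ∈ K := QuotientGroup.eq.mp hy'
  have h5 : v⁻¹ * g = y * (y⁻¹ * (v⁻¹ * g)) := by group
  rw [h5]
  exact mul_mem (mem_sup_left hy) (mem_sup_right h4)

/-- change of format -/
theorem format {n : ℕ} {g : G} {K : Subgroup G} [hK : K.Normal]
    (h : ∃ w, PC n w ∧ w⁻¹ * g ∈ K) :
    ∃ a b : Fin n → G, g * ((List.ofFn (fun i => a i * b i * (a i)⁻¹ * (b i)⁻¹)).prod)⁻¹ ∈ K := by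
  obtain ⟨w, hw, hw'⟩ := h
  obtain ⟨a, b, rfl⟩ := hw.toFn
  refine ⟨a, b, ?_⟩
  have := hK.conj_mem _ hw' (List.ofFn (fun i => a i * b i * (a i)⁻¹ * (b i)⁻¹)).prod
  convert this using 1
  group

theorem unformat {n : ℕ} {g : G} {K : Subgroup G} [hK : K.Normal]
    (h : ∃ a b : Fin n → G, g * ((List.ofFn (fun i => a i * b i * (a i)⁻¹ * (b i)⁻¹)).prod)⁻¹ ∈ K) :
    ∃ w, PC n w ∧ w⁻¹ * g ∈ K := by
  obtain ⟨a, b, h⟩ := h
  refine ⟨_, PC.fromFn a b, ?_⟩
  have := hK.conj_mem _ h (List.ofFn (fun i => a i * b i * (a i)⁻¹ * (b i)⁻¹)).prod⁻¹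
  convert this using 1
  group

end Main

end Pool.Agent.Helper354.CWidth
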