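import Mathlib

set_option autoImplicit false

namespace Pool.Helper354.GL

/-- rank of an element in an exhaustive chain of finite sets -/
noncomputable def rk (p : ℕ → Finset ℕ) (hpe : ∀ i, ∃ n, i ∈ p n) (i : ℕ) : ℕ :=
  @Nat.find (fun n => i ∈ p n) (Classical.decPred _) (hpe i)

lemma rk_le {p : ℕ → Finset ℕ} (hp : Monotone p) (hpe : ∀ i, ∃ n, i ∈ p n) (i n : ℕ) :
    rk p hpe i ≤ n ↔ i ∈ p n := by
  classical
  constructor
  · intro h
    have h1 : i ∈ p (rk p hpe i) := @Nat.find_spec (fun n => i ∈ p n) (Classical.decPred _) (hpe i)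
    exact hp h h1
  · intro h
    exact @Nat.find_min' (fun n => i ∈ p n) (Classical.decPred _) (hpe i) n h

lemma fiber_card {p : ℕ → Finset ℕ} (hp : Monotone p) (hpe : ∀ i, ∃ n, i ∈ p n) (n : ℕ) :
    Finite {i // rk p hpe i = n} ∧
    Nat.card {i // rk p hpe i = n} + (if n = 0 then 0 else (p (n-1)).card) = (p n).card := by
  classical
  set s : Finset ℕ := (p n).filter (fun i => rk p hpe i = n) with hs
  have hmem : ∀ i, i ∈ s ↔ rk p hpe i = n := by
    intro i
    rw [hs, Finset.mem_filter]
    constructor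
    · exact fun h => h.2
    · intro h
      exact ⟨(rk_le hp hpe i n).1 h.le, h⟩
  have h1 : Nat.card {i // rk p hpe i = n} = s.card := Nat.subtype_card s hmem
  have hfin : Finite {i // rk p hpe i = n} := by
    have : {i | rk p hpe i = n} = (s : Set ℕ) := by ext i; simp [hmem]
    exact (Set.Finite.ofFinset s hmem : Set.Finite {i | rk p hpe i = n}).to_subtype
  refine ⟨hfin, ?_⟩
  rw [h1]
  by_cases hn : n = 0
  · subst hn
    simp only [if_true, add_zero]
    congr 1
    ext i
    rw [hmem]
    constructor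
    · intro h; exact (rk_le hp hpe i 0).1 h.le
    · intro h; have := (rk_le hp hpe i 0).2 h; omega
  · simp only [hn, if_false]
    have hdis : Disjoint s (p (n-1)) := by
      rw [Finset.disjoint_left]
      intro i hi hi'
      rw [hmem] at hi
      have := (rk_le hp hpe i (n-1)).2 hi'
      omega
    rw [← Finset.card_union_of_disjoint hdis]
    congr 1
    ext i
    rw [Finset.mem_union, hmem]
    constructor
    · rintro (h | h)
      · exact (rk_le hp hpe i n).1 h.le
      · exact hp (by omega) h
    · intro h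
      have h2 := (rk_le hp hpe i n).2 h
      rcases h2.lt_or_eq with h3 | h3
      · right; exact (rk_le hp hpe i (n-1)).1 (by omega)
      · left; exact h3

/-- permutations matching two chains of finite sets -/
theorem exists_perm {p q : ℕ → Finset ℕ} (hp : Monotone p) (hq : Monotone q)
    (hpe : ∀ i, ∃ n, i ∈ p n) (hqe : ∀ i, ∃ n, i ∈ q n) (hc : ∀ n, (p n).card = (q n).card) :
    ∃ π : Equiv.Perm ℕ, ∀ n i, π i ∈ q n ↔ i ∈ p n := by
  classical
  have hcard : ∀ n, Nat.card {i // rk p hpe i = n} = Nat.card {i // rk q hqe i = n} := by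
    intro n
    have h1 := (fiber_card hp hpe n).2
    have h2 := (fiber_card hq hqe n).2
    rw [hc n] at h1
    rw [hc (n-1)] at h1
    omega
  have hE : ∀ n, Nonempty ({i // rk p hpe i = n} ≃ {i // rk q hqe i = n}) := by
    intro n
    have := (fiber_card hp hpe n).1
    have := (fiber_card hq hqe n).1
    exact Finite.card_eq.1 (hcard n)
  let E := fun n => Classical.choice (hE n)
  let π : Equiv.Perm ℕ := (Equiv.sigmaFiberEquiv (rk p hpe)).symm.trans
    ((Equiv.sigmaCongrRight E).trans (Equiv.sigmaFiberEquiv (rk q hqe)))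
  have hπ : ∀ i, rk q hqe (π i) = rk p hpe i := by
    intro i
    exact (E (rk p hpe i) ⟨i, rfl⟩).2
  refine ⟨π, fun n i => ?_⟩
  rw [← rk_le hq hqe, hπ, rk_le hp hpe]

end Pool.Helper354.GL
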