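import Mathlib

set_option autoImplicit false

namespace Pool.Helper354.GL

open Submodule Set

variable {D W : Type*} [DivisionRing D] [AddCommGroup W] [Module D W]

/-- orbit map -/
def orb (c : W ≃ₗ[D] W) (t : W × ℤ) : W := (c ^ t.2) t.1

lemma orb_zero (c : W ≃ₗ[D] W) (x : W) : orb c (x, 0) = x := by simp [orb]

lemma orb_succ (c : W ≃ₗ[D] W) (t : W × ℤ) : orb c (t.1, t.2 + 1) = c (orb c t) := by
  simp only [orb]
  rw [add_comm, zpow_add, zpow_one]
  rfl

/-- shift of a set of indices by one -/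
def up (U : Set (W × ℤ)) : Set (W × ℤ) := {t | (t.1, t.2 - 1) ∈ U}

/-- shift of a set of indices by minus one -/
def dn (U : Set (W × ℤ)) : Set (W × ℤ) := {t | (t.1, t.2 + 1) ∈ U}

lemma orb_image_up (c : W ≃ₗ[D] W) (U : Set (W × ℤ)) : orb c '' up U = c '' (orb c '' U) := by
  ext y
  constructor
  · rintro ⟨t, ht, rfl⟩
    refine ⟨_, ⟨(t.1, t.2 - 1), ht, rfl⟩, ?_⟩
    rw [← orb_succ]; simp
  · rintro ⟨_, ⟨t, ht, rfl⟩, rfl⟩
    refine ⟨(t.1, t.2 + 1), ?_, orb_succ c t⟩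
    show (t.1, t.2 + 1 - 1) ∈ U
    simpa using ht

lemma orb_image_dn (c : W ≃ₗ[D] W) (U : Set (W × ℤ)) : c '' (orb c '' dn U) = orb c '' U := by
  ext y
  constructor
  · rintro ⟨_, ⟨t, ht, rfl⟩, rfl⟩
    exact ⟨(t.1, t.2 + 1), ht, orb_succ c t⟩
  · rintro ⟨t, ht, rfl⟩
    refine ⟨_, ⟨(t.1, t.2 - 1), ?_, rfl⟩, ?_⟩
    · show (t.1, t.2 - 1 + 1) ∈ U
      simpa using ht
    · rw [← orb_succ]; simp

lemma span_up (c : W ≃ₗ[D] W) (U : Set (W × ℤ)) :
    span D (orb c '' up U) = (span D (orb c '' U)).map (c : W →ₗ[D] W) := by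
  rw [orb_image_up, Submodule.map_span]; rfl

lemma span_dn (c : W ≃ₗ[D] W) (U : Set (W × ℤ)) :
    (span D (orb c '' dn U)).map (c : W →ₗ[D] W) = span D (orb c '' U) := by
  rw [Submodule.map_span]
  congr 1
  exact orb_image_dn c U

lemma indep_up (c : W ≃ₗ[D] W) {U : Set (W × ℤ)} (h : LinearIndepOn D (orb c) U) :
    LinearIndepOn D (orb c) (up U) := by
  have h1 : LinearIndepOn D (fun t : W × ℤ => c (orb c t)) U :=
    h.map_injOn (c : W →ₗ[D] W) c.injective.injOn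
  have h2 : LinearIndepOn D ((fun t : W × ℤ => c (orb c t)) ∘ (fun t : W × ℤ => (t.1, t.2 - 1))) (up U) := by
    apply LinearIndepOn.comp_of_image
    · exact h1.mono (by rintro _ ⟨t, ht, rfl⟩; exact ht)
    · rintro ⟨x, n⟩ _ ⟨y, m⟩ _ h
      simp only [Prod.mk.injEq] at h
      ext
      · exact h.1
      · show n = m
        have := h.2; omega
  have h3 : ((fun t : W × ℤ => c (orb c t)) ∘ (fun t : W × ℤ => (t.1, t.2 - 1))) = orb c := by
    funext t
    show c (orb c (t.1, t.2 - 1)) = orb c t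
    rw [← orb_succ]; simp
  rwa [h3] at h2

lemma indep_dn (c : W ≃ₗ[D] W) {U : Set (W × ℤ)} (h : LinearIndepOn D (orb c) U) :
    LinearIndepOn D (orb c) (dn U) := by
  have h2 : LinearIndepOn D (orb c ∘ (fun t : W × ℤ => (t.1, t.2 + 1))) (dn U) := by
    apply LinearIndepOn.comp_of_image
    · exact h.mono (by rintro _ ⟨t, ht, rfl⟩; exact ht)
    · rintro ⟨x, n⟩ _ ⟨y, m⟩ _ h
      simp only [Prod.mk.injEq] at h
      ext
      · exact h.1
      · show n = m
        have := h.2; omega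
  have h3 : (orb c ∘ (fun t : W × ℤ => (t.1, t.2 + 1))) = (c : W →ₗ[D] W) ∘ orb c := by
    funext t
    exact orb_succ c t
  rw [h3] at h2
  exact h2.of_comp _

/-- invariants of a finite stage -/
structure Inv (c : W ≃ₗ[D] W) (A : Submodule D W) (T : Set (W × ℤ)) : Prop where
  ind : LinearIndepOn D (orb c) T
  tot : span D (orb c '' T) = A ⊔ A.map (c : W →ₗ[D] W)
  dom : span D (orb c '' (T ∩ dn T)) = A
  conv : ∀ x n m l, (x, n) ∈ T → (x, l) ∈ T → n ≤ m → m ≤ l → (x, m) ∈ T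
  zero : ∀ x n, (x, n) ∈ T → (x, (0:ℤ)) ∈ T

lemma disjoint_span_of_indep {c : W ≃ₗ[D] W} {U P Q : Set (W × ℤ)}
    (h : LinearIndepOn D (orb c) U) (hP : P ⊆ U) (hQ : Q ⊆ U) (hPQ : Disjoint P Q) :
    Disjoint (span D (orb c '' P)) (span D (orb c '' Q)) :=
  ((linearIndepOn_union_iff hPQ).1 (h.mono (union_subset hP hQ))).2.2

/-- choosing the new chains -/
lemma exists_ext {c : W ≃ₗ[D] W} {A A' : Submodule D W} {T : Set (W × ℤ)} (hT : Inv c A T)
    (hle : A ⊔ A.map (c : W →ₗ[D] W) ≤ A') :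
    ∃ U : Set (W × ℤ), T ⊆ U ∧ LinearIndepOn D (orb c) U ∧ span D (orb c '' U) = A' ∧
      (∀ t ∈ U, t ∉ T → t.2 = 0) ∧
      (∀ x n m l, (x, n) ∈ U → (x, l) ∈ U → n ≤ m → m ≤ l → (x, m) ∈ U) ∧
      (∀ x n, (x, n) ∈ U → (x, (0:ℤ)) ∈ U) ∧
      (A ⊔ A.map (c : W →ₗ[D] W) ≠ A' → ∃ q : W, (q, (0:ℤ)) ∈ U ∧ (q, (0:ℤ)) ∉ T) := by
  set t : Set (W × ℤ) := T ∪ {p | p.1 ∈ A' ∧ p.2 = 0} with ht
  have hsub : T ⊆ t := subset_union_left
  have hspan : span D (orb c '' t) = A' := by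
    apply le_antisymm
    · rw [span_le]
      rintro _ ⟨p, hp | ⟨hp, hp0⟩, rfl⟩
      · have : orb c p ∈ span D (orb c '' T) := subset_span ⟨p, hp, rfl⟩
        rw [hT.tot] at this
        exact hle this
      · have : orb c p = p.1 := by
          have : p = (p.1, 0) := by ext <;> simp [hp0]
          rw [this, orb_zero]
        rw [this]; exact hp
    · intro x hx
      exact subset_span ⟨(x, 0), Or.inr ⟨hx, rfl⟩, orb_zero c x⟩
  set U := hT.ind.extend hsub with hU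
  have hTU : T ⊆ U := hT.ind.subset_extend hsub
  have hUt : U ⊆ t := hT.ind.extend_subset hsub
  have hUi : LinearIndepOn D (orb c) U := hT.ind.linearIndepOn_extend hsub
  have hUs : span D (orb c '' U) = A' := by
    rw [← hspan]; exact hT.ind.span_image_extend_eq_span_image hsub
  have h0 : ∀ t ∈ U, t ∉ T → t.2 = 0 := by
    intro p hp hpT
    rcases hUt hp with h | h
    · exact absurd h hpT
    · exact h.2
  have hz : ∀ x n, (x, n) ∈ U → (x, (0:ℤ)) ∈ U := by
    intro x n hx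
    by_cases hxT : (x, n) ∈ T
    · exact hTU (hT.zero x n hxT)
    · have : n = 0 := h0 _ hx hxT
      rw [← this]; exact hx
  refine ⟨U, hTU, hUi, hUs, h0, ?_, hz, ?_⟩
  · intro x n m l hn hl h1 h2
    by_cases hnT : (x, n) ∈ T
    · by_cases hlT : (x, l) ∈ T
      · exact hTU (hT.conv x n m l hnT hlT h1 h2)
      · have hl0 : l = 0 := h0 _ hl hlT
        subst hl0
        exact hTU (hT.conv x n m 0 hnT (hT.zero x n hnT) h1 h2)
    · have hn0 : n = 0 := h0 _ hn hnT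
      subst hn0
      by_cases hlT : (x, l) ∈ T
      · exact hTU (hT.conv x 0 m l (hT.zero x l hlT) hlT h1 h2)
      · have hl0 : l = 0 := h0 _ hl hlT
        have : m = 0 := by omega
        rw [this]; exact hn
  · intro hne
    by_contra hcon
    push Not at hcon
    apply hne
    have : U = T := by
      apply subset_antisymm _ hTU
      rintro ⟨x, n⟩ hp
      by_contra hpT
      have hn : n = 0 := h0 _ hp hpT
      subst hn
      exact hpT (hcon x hp)
    rw [← hT.tot, ← this, hUs]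

/-- forward step -/
lemma forward {c : W ≃ₗ[D] W} {A A' : Submodule D W} {T : Set (W × ℤ)} (hT : Inv c A T)
    (hle : A ⊔ A.map (c : W →ₗ[D] W) ≤ A')
    (hint : A' ⊓ A'.map (c : W →ₗ[D] W) ≤ A.map (c : W →ₗ[D] W)) :
    ∃ T' : Set (W × ℤ), Inv c A' T' ∧ T ⊆ T' ∧ (∀ x n, (x, n) ∈ T → (x, n + 1) ∈ T') ∧
      (A ⊔ A.map (c : W →ₗ[D] W) ≠ A' → ∃ q : W, (q, (0:ℤ)) ∈ T' ∧ (q, (0:ℤ)) ∉ T) := by
  obtain ⟨U, hTU, hUi, hUs, h0, hconv, hz, hnew⟩ := exists_ext hT hle
  have hupind := indep_up c hUi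
  have hupspan : span D (orb c '' up U) = A'.map (c : W →ₗ[D] W) := by rw [span_up, hUs]
  -- the part of `up U` coming from the old domain
  have hold : span D (orb c '' (up (T ∩ dn T))) = A.map (c : W →ₗ[D] W) := by
    rw [span_up, hT.dom]
  have hold1 : up (T ∩ dn T) ⊆ up U := fun t ht => hTU ht.1
  have hold2 : up (T ∩ dn T) ⊆ U := by
    intro t ht
    have : (t.1, t.2 - 1 + 1) ∈ T := ht.2
    rw [sub_add_cancel] at this
    exact hTU this
  have hdisj : Disjoint (span D (orb c '' U)) (span D (orb c '' (up U \ U))) := by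
    rw [Submodule.disjoint_def]
    intro z hz1 hz2
    have hz3 : z ∈ A.map (c : W →ₗ[D] W) := by
      apply hint
      refine ⟨by rw [hUs] at hz1; exact hz1, ?_⟩
      rw [SetLike.mem_coe, ← hupspan]
      exact span_mono (image_mono sdiff_subset) hz2
    rw [← hold] at hz3
    have hd : Disjoint (up (T ∩ dn T)) (up U \ U) := by
      rw [Set.disjoint_left]
      intro t ht ht'
      exact ht'.2 (hold2 ht)
    exact (Submodule.disjoint_def.1 (disjoint_span_of_indep hupind hold1 sdiff_subset hd)) z hz3 hz2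
  have hset : U ∪ up U = U ∪ (up U \ U) := by
    ext t; simp only [mem_union, mem_sdiff]; tauto
  have hdn : (U ∪ up U) ∩ dn (U ∪ up U) = U := by
    ext ⟨x, n⟩
    constructor
    · rintro ⟨h1, h2⟩
      rcases h1 with h1 | h1
      · exact h1
      · -- (x, n-1) ∈ U
        have h1' : (x, n - 1) ∈ U := h1
        rcases h2 with h2 | h2
        · have h2' : (x, n + 1) ∈ U := h2
          exact hconv x (n - 1) n (n + 1) h1' h2' (by omega) (by omega)
        · have h2' : (x, n + 1 - 1) ∈ U := h2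
          rwa [add_sub_cancel_right] at h2'
    · intro h
      refine ⟨Or.inl h, Or.inr ?_⟩
      show (x, n + 1 - 1) ∈ U
      rwa [add_sub_cancel_right]
  refine ⟨U ∪ up U, ⟨?_, ?_, ?_, ?_, ?_⟩, hTU.trans subset_union_left, ?_, ?_⟩
  · rw [hset]
    exact hUi.union (hupind.mono sdiff_subset) hdisj
  · rw [image_union, span_union, hUs, hupspan]
  · rw [hdn, hUs]
  · intro x n m l hn hl h1 h2
    -- intervals
    have hn' : (x, n) ∈ U ∨ (x, n - 1) ∈ U := hn
    have hl' : (x, l) ∈ U ∨ (x, l - 1) ∈ U := hl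
    show (x, m) ∈ U ∨ (x, m - 1) ∈ U
    rcases hn' with hn' | hn' <;> rcases hl' with hl' | hl'
    · exact Or.inl (hconv x n m l hn' hl' h1 h2)
    · by_cases hm : m ≤ l - 1
      · exact Or.inl (hconv x n m (l-1) hn' hl' h1 hm)
      · by_cases hnl : n ≤ m - 1
        · exact Or.inr (hconv x n (m-1) (l-1) hn' hl' hnl (by omega))
        · have : m = n := by omega
          rw [this]; exact Or.inl hn'
    · by_cases hm : n - 1 ≤ m
      · exact Or.inl (hconv x (n-1) m l hn' hl' hm h2)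
      · omega
    · exact Or.inr (hconv x (n-1) (m-1) (l-1) hn' hl' (by omega) (by omega))
  · intro x n hn
    have hn' : (x, n) ∈ U ∨ (x, n - 1) ∈ U := hn
    rcases hn' with hn' | hn'
    · exact Or.inl (hz x n hn')
    · exact Or.inl (hz x _ hn')
  · intro x n hn
    right
    show (x, n + 1 - 1) ∈ U
    rw [add_sub_cancel_right]
    exact hTU hn
  · intro hne
    obtain ⟨q, hq, hqT⟩ := hnew hne
    exact ⟨q, Or.inl hq, hqT⟩

/-- backward step -/
lemma backward {c : W ≃ₗ[D] W} {A A' : Submodule D W} {T : Set (W × ℤ)} (hT : Inv c A T)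
    (hle : A ⊔ A.map (c : W →ₗ[D] W) ≤ A'.map (c : W →ₗ[D] W))
    (hint : A' ⊓ A'.map (c : W →ₗ[D] W) ≤ A) :
    ∃ T' : Set (W × ℤ), Inv c A' T' ∧ T ⊆ T' ∧ (∀ x n, (x, n) ∈ T → (x, n - 1) ∈ T') := by
  obtain ⟨U, hTU, hUi, hUs, h0, hconv, hz, hnew⟩ := exists_ext hT hle
  have hdnind := indep_dn c hUi
  have hdnspan : span D (orb c '' dn U) = A' := by
    have h1 := span_dn c U
    rw [hUs] at h1
    exact Submodule.map_injective_of_injective c.injective h1
  have hold1 : T ∩ dn T ⊆ dn U := fun t ht => hTU ht.2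
  have hold2 : T ∩ dn T ⊆ U := fun t ht => hTU ht.1
  have hdisj : Disjoint (span D (orb c '' U)) (span D (orb c '' (dn U \ U))) := by
    rw [Submodule.disjoint_def]
    intro z hz1 hz2
    have hz3 : z ∈ A := by
      apply hint
      refine ⟨?_, by rw [hUs] at hz1; exact hz1⟩
      rw [SetLike.mem_coe, ← hdnspan]
      exact span_mono (image_mono sdiff_subset) hz2
    rw [← hT.dom] at hz3
    have hd : Disjoint (T ∩ dn T) (dn U \ U) := by
      rw [Set.disjoint_left]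
      intro t ht ht'
      exact ht'.2 (hold2 ht)
    exact (Submodule.disjoint_def.1 (disjoint_span_of_indep hdnind hold1 sdiff_subset hd)) z hz3 hz2
  have hset : U ∪ dn U = U ∪ (dn U \ U) := by
    ext t; simp only [mem_union, mem_sdiff]; tauto
  have hdn : (U ∪ dn U) ∩ dn (U ∪ dn U) = dn U := by
    ext ⟨x, n⟩
    constructor
    · rintro ⟨h1, h2⟩
      rcases h1 with h1 | h1
      · rcases h2 with h2 | h2
        · exact h2
        · have h2' : (x, n + 1 + 1) ∈ U := h2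
          show (x, n + 1) ∈ U
          exact hconv x n (n + 1) (n + 1 + 1) h1 h2' (by omega) (by omega)
      · exact h1
    · intro h
      exact ⟨Or.inr h, Or.inl h⟩
  refine ⟨U ∪ dn U, ⟨?_, ?_, ?_, ?_, ?_⟩, hTU.trans subset_union_left, ?_⟩
  · rw [hset]
    exact hUi.union (hdnind.mono sdiff_subset) hdisj
  · rw [image_union, span_union, hUs, hdnspan, sup_comm]
  · rw [hdn, hdnspan]
  · intro x n m l hn hl h1 h2
    have hn' : (x, n) ∈ U ∨ (x, n + 1) ∈ U := hn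
    have hl' : (x, l) ∈ U ∨ (x, l + 1) ∈ U := hl
    show (x, m) ∈ U ∨ (x, m + 1) ∈ U
    rcases hn' with hn' | hn' <;> rcases hl' with hl' | hl'
    · exact Or.inl (hconv x n m l hn' hl' h1 h2)
    · exact Or.inl (hconv x n m (l+1) hn' hl' h1 (by omega))
    · by_cases hm : n + 1 ≤ m
      · exact Or.inl (hconv x (n+1) m l hn' hl' hm h2)
      · have : m = n := by omega
        rw [this]; exact Or.inr hn'
    · exact Or.inr (hconv x (n+1) (m+1) (l+1) hn' hl' (by omega) (by omega))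
  · intro x n hn
    have hn' : (x, n) ∈ U ∨ (x, n + 1) ∈ U := hn
    rcases hn' with hn' | hn'
    · exact Or.inl (hz x n hn')
    · exact Or.inl (hz x _ hn')
  · intro x n hn
    right
    show (x, n - 1 + 1) ∈ U
    rw [sub_add_cancel]
    exact hTU hn


/-- two steps at once -/
lemma twostep {c : W ≃ₗ[D] W} {A A1 A2 : Submodule D W} {T : Set (W × ℤ)} (hT : Inv c A T)
    (hb1 : A ⊔ A.map (c : W →ₗ[D] W) ≤ A1.map (c : W →ₗ[D] W))
    (hb2 : A1 ⊓ A1.map (c : W →ₗ[D] W) ≤ A)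
    (hf1 : A1 ⊔ A1.map (c : W →ₗ[D] W) ≤ A2)
    (hf2 : A2 ⊓ A2.map (c : W →ₗ[D] W) ≤ A1.map (c : W →ₗ[D] W))
    (hne : A1 ⊔ A1.map (c : W →ₗ[D] W) ≠ A2) :
    ∃ T' : Set (W × ℤ), Inv c A2 T' ∧ T ⊆ T' ∧ (∀ x n, (x, n) ∈ T → (x, n + 1) ∈ T') ∧
      (∀ x n, (x, n) ∈ T → (x, n - 1) ∈ T') ∧ ∃ q : W, (q, (0:ℤ)) ∈ T' ∧ (q, (0:ℤ)) ∉ T := by
  obtain ⟨T1, h1, h2, h3⟩ := backward hT hb1 hb2
  obtain ⟨T2, g1, g2, g3, g4⟩ := forward h1 hf1 hf2
  obtain ⟨q, hq, hq'⟩ := g4 hne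
  exact ⟨T2, g1, h2.trans g2, fun x n h => g3 x n (h2 h), fun x n h => g2 (h3 x n h), q, hq,
    fun h => hq' (h2 h)⟩

/-- A sufficient criterion for being a bilateral shift of infinite multiplicity. -/
theorem criterion (c : W ≃ₗ[D] W) (A : ℕ → Submodule D W) (h0 : A 0 = ⊥)
    (hb1 : ∀ k, A (2*k) ⊔ (A (2*k)).map (c : W →ₗ[D] W) ≤ (A (2*k+1)).map (c : W →ₗ[D] W))
    (hb2 : ∀ k, A (2*k+1) ⊓ (A (2*k+1)).map (c : W →ₗ[D] W) ≤ A (2*k))
    (hf1 : ∀ k, A (2*k+1) ⊔ (A (2*k+1)).map (c : W →ₗ[D] W) ≤ A (2*k+2))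
    (hf2 : ∀ k, A (2*k+2) ⊓ (A (2*k+2)).map (c : W →ₗ[D] W) ≤ (A (2*k+1)).map (c : W →ₗ[D] W))
    (hne : ∀ k, A (2*k+1) ⊔ (A (2*k+1)).map (c : W →ₗ[D] W) ≠ A (2*k+2))
    (hex : ∀ x, ∃ k, x ∈ A (2*k)) :
    ∃ R : Set W, R.Infinite ∧ ∃ e : Module.Basis (R × ℤ) D W, ∀ x n, c (e (x, n)) = e (x, n + 1) := by
  classical
  have hstart : Inv c (A (2*0)) (∅ : Set (W × ℤ)) := by
    refine ⟨linearIndepOn_empty _ _, ?_, ?_, ?_, ?_⟩
    · rw [mul_zero, h0]; simp
    · rw [mul_zero, h0]; simp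
    · intro x n m l h; exact absurd h (notMem_empty _)
    · intro x n h; exact absurd h (notMem_empty _)
  have hstep : ∀ k, ∀ T : Set (W × ℤ), Inv c (A (2*k)) T → ∃ T' : Set (W × ℤ), Inv c (A (2*(k+1))) T' ∧
      T ⊆ T' ∧ (∀ x n, (x, n) ∈ T → (x, n + 1) ∈ T') ∧
      (∀ x n, (x, n) ∈ T → (x, n - 1) ∈ T') ∧ ∃ q : W, (q, (0:ℤ)) ∈ T' ∧ (q, (0:ℤ)) ∉ T :=
    fun k T hT => twostep hT (hb1 k) (hb2 k) (hf1 k) (hf2 k) (hne k)
  choose! nxt hn1 hn2 hn3 hn4 hn5 using hstep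
  let S : ℕ → Set (W × ℤ) := fun k => Nat.rec ∅ (fun k T => nxt k T) k
  have hS : ∀ k, Inv c (A (2*k)) (S k) := by
    intro k
    induction k with
    | zero => exact hstart
    | succ k ih => exact hn1 k _ ih
  have hS2 : ∀ k, S k ⊆ S (k+1) := fun k => hn2 k _ (hS k)
  have hS3 : ∀ k x n, (x, n) ∈ S k → (x, n + 1) ∈ S (k+1) := fun k => hn3 k _ (hS k)
  have hS4 : ∀ k x n, (x, n) ∈ S k → (x, n - 1) ∈ S (k+1) := fun k => hn4 k _ (hS k)
  have hS5 : ∀ k, ∃ q : W, (q, (0:ℤ)) ∈ S (k+1) ∧ (q, (0:ℤ)) ∉ S k := fun k => hn5 k _ (hS k)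
  have hmono : Monotone S := monotone_nat_of_le_succ hS2
  set R : Set W := {x | ∃ k, (x, (0:ℤ)) ∈ S k} with hR
  have hall : ∀ x ∈ R, ∀ n : ℤ, ∃ k, (x, n) ∈ S k := by
    rintro x ⟨k, hk⟩ n
    have hpos : ∀ m : ℕ, (x, (m : ℤ)) ∈ S (k + m) := by
      intro m
      induction m with
      | zero => simpa using hk
      | succ m ih => have := hS3 _ _ _ ih; push_cast; exact this
    have hneg : ∀ m : ℕ, (x, -(m : ℤ)) ∈ S (k + m) := by
      intro m
      induction m with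
      | zero => simpa using hk
      | succ m ih =>
        have := hS4 _ _ _ ih
        have e : -((m + 1 : ℕ) : ℤ) = -(m : ℤ) - 1 := by push_cast; ring
        rw [e]; exact this
    rcases le_total 0 n with h | h
    · obtain ⟨m, rfl⟩ := Int.eq_ofNat_of_zero_le h
      exact ⟨_, hpos m⟩
    · obtain ⟨m, hm⟩ := Int.eq_ofNat_of_zero_le (neg_nonneg.2 h)
      have := hneg m
      rw [← hm, neg_neg] at this
      exact ⟨_, this⟩
  have hunion : (⋃ k, S k) = {t | t.1 ∈ R} := by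
    ext ⟨x, n⟩
    simp only [mem_iUnion, mem_ofPred_eq]
    constructor
    · rintro ⟨k, hk⟩
      exact ⟨k, (hS k).zero x n hk⟩
    · intro hx
      exact hall x hx n
  have hind : LinearIndepOn D (orb c) {t : W × ℤ | t.1 ∈ R} := by
    rw [← hunion]
    exact linearIndepOn_iUnion_of_directed (hmono.directed_le) (fun k => (hS k).ind)
  have hspan : span D (orb c '' {t : W × ℤ | t.1 ∈ R}) = ⊤ := by
    rw [eq_top_iff]
    intro x _
    obtain ⟨k, hk⟩ := hex x
    have h1 : x ∈ span D (orb c '' S k) := by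
      rw [(hS k).tot]; exact mem_sup_left hk
    refine span_mono (image_mono ?_) h1
    rw [← hunion]; exact subset_iUnion S k
  have hli : LinearIndependent D (fun t : R × ℤ => orb c (t.1.1, t.2)) := by
    have h1 : LinearIndependent D (fun t : {t : W × ℤ | t.1 ∈ R} => orb c t) := hind.linearIndependent
    exact h1.comp (fun t : R × ℤ => (⟨(t.1.1, t.2), t.1.2⟩ : {t : W × ℤ | t.1 ∈ R})) (by
      rintro ⟨⟨x, hx⟩, n⟩ ⟨⟨y, hy⟩, m⟩ h
      simp only [Subtype.mk.injEq, Prod.mk.injEq] at h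
      obtain ⟨rfl, rfl⟩ := h
      rfl)
  have hsp : ⊤ ≤ span D (range (fun t : R × ℤ => orb c (t.1.1, t.2))) := by
    rw [← hspan]
    apply span_mono
    rintro _ ⟨⟨x, n⟩, hx, rfl⟩
    exact ⟨(⟨x, hx⟩, n), rfl⟩
  refine ⟨R, ?_, Module.Basis.mk hli hsp, ?_⟩
  · choose q hq1 hq2 using hS5
    have hqinj : Function.Injective q := by
      have key : ∀ i j, i < j → q i ≠ q j := by
        intro i j hij h
        apply hq2 j
        rw [← h]
        exact hmono (Nat.succ_le_of_lt hij) (hq1 i)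
      intro i j h
      rcases lt_trichotomy i j with h' | h' | h'
      · exact absurd h (key i j h')
      · exact h'
      · exact absurd h.symm (key j i h')
    exact infinite_of_injective_forall_mem hqinj (fun k => ⟨k+1, hq1 k⟩)
  · intro x n
    rw [Module.Basis.mk_apply, Module.Basis.mk_apply]
    exact (orb_succ c (x.1, n)).symm

end Pool.Helper354.GL
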