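import Mathlib
import Pool.Agent.Helper354.GLShift
import Pool.Agent.Helper354.GLPerm

set_option autoImplicit false

namespace Pool.Helper354.GL

open Submodule Set

variable {D : Type*} [DivisionRing D]

lemma exists_bound (T : (ℕ →₀ D) →ₗ[D] (ℕ →₀ D)) (m : ℕ) :
    ∃ N, ∀ x : ℕ →₀ D, (∀ j, m ≤ j → x j = 0) → ∀ j, N ≤ j → T x j = 0 := by
  induction m with
  | zero =>
    refine ⟨0, fun x hx j _ => ?_⟩
    have : x = 0 := by ext j; exact hx j (Nat.zero_le j)
    rw [this]; simp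
  | succ m ih =>
    obtain ⟨N, hN⟩ := ih
    obtain ⟨K, hK⟩ := (T (Finsupp.single m 1)).support.exists_nat_subset_range
    refine ⟨max N K, fun x hx j hj => ?_⟩
    have hx' : x = (x - Finsupp.single m (x m)) + x m • Finsupp.single m 1 := by
      simp
    rw [hx', map_add, map_smul, Finsupp.add_apply, Finsupp.smul_apply]
    rw [hN (x - Finsupp.single m (x m)) ?_ j (le_trans (le_max_left _ _) hj)]
    · have : T (Finsupp.single m 1) j = 0 := by
        by_contra h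
        have := hK (Finsupp.mem_support_iff.2 h)
        rw [Finset.mem_range] at this
        have := le_max_right N K
        omega
      rw [this]; simp
    · intro i hi
      rw [Finsupp.sub_apply, Finsupp.single_apply]
      split_ifs with h
      · rw [h, sub_self]
      · rw [sub_zero]; exact hx i (by omega)

/-- growth function adapted to an automorphism -/
structure Good (γ : (ℕ →₀ D) ≃ₗ[D] (ℕ →₀ D)) (M : ℕ → ℕ) : Prop where
  fwd : ∀ n, ∀ x : ℕ →₀ D, (∀ j, M n ≤ j → x j = 0) → ∀ j, M (n+1) ≤ j → γ x j = 0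
  bwd : ∀ n, ∀ x : ℕ →₀ D, (∀ j, M n ≤ j → x j = 0) → ∀ j, M (n+1) ≤ j → γ.symm x j = 0

lemma exists_good (γ : (ℕ →₀ D) ≃ₗ[D] (ℕ →₀ D)) :
    ∃ M : ℕ → ℕ, M 0 = 0 ∧ (∀ n, 2 * M n + 1 ≤ M (n+1)) ∧ Good γ M := by
  choose F hF using exists_bound (γ : (ℕ →₀ D) →ₗ[D] (ℕ →₀ D))
  choose G hG using exists_bound (γ.symm : (ℕ →₀ D) →ₗ[D] (ℕ →₀ D))
  let M : ℕ → ℕ := fun n => Nat.rec 0 (fun _ m => max (2 * m + 1) (max (F m) (G m))) n
  have hM : ∀ n, M (n+1) = max (2 * M n + 1) (max (F (M n)) (G (M n))) := fun n => rfl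
  refine ⟨M, rfl, fun n => by rw [hM]; exact le_max_left _ _, ⟨?_, ?_⟩⟩
  · intro n x hx j hj
    apply hF (M n) x hx j
    rw [hM] at hj
    exact le_trans (le_trans (le_max_left _ _) (le_max_right _ _)) hj
  · intro n x hx j hj
    apply hG (M n) x hx j
    rw [hM] at hj
    exact le_trans (le_trans (le_max_right _ _) (le_max_right _ _)) hj

lemma Good.one (M : ℕ → ℕ) (hM : ∀ n, 2 * M n + 1 ≤ M (n+1)) :
    Good (LinearEquiv.refl D (ℕ →₀ D)) M := by
  refine ⟨fun n x hx j hj => hx j ?_, fun n x hx j hj => hx j ?_⟩ <;>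
  · have := hM n; omega

/-- the full initial segments -/
def bigS (M : ℕ → ℕ) (n : ℕ) : Finset ℕ := Finset.range (M (2*n))

/-- the split sets -/
def splitS (M : ℕ → ℕ) (n : ℕ) : Finset ℕ :=
  Finset.range (M (2*n-2)) ∪ Finset.Ico (M (2*n+1)) (M (2*n+1) + (M (2*n) - M (2*n-2)))

lemma M_mono {M : ℕ → ℕ} (hM : ∀ n, 2 * M n + 1 ≤ M (n+1)) : StrictMono M :=
  strictMono_nat_of_lt_succ (fun n => by have := hM n; omega)

lemma card_bigS (M : ℕ → ℕ) (n : ℕ) : (bigS M n).card = M (2*n) := by simp [bigS]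

lemma card_splitS {M : ℕ → ℕ} (hM : ∀ n, 2 * M n + 1 ≤ M (n+1)) (n : ℕ) :
    (splitS M n).card = M (2*n) := by
  have h1 : M (2*n-2) ≤ M (2*n) := (M_mono hM).monotone (by omega)
  have h2 : M (2*n) ≤ M (2*n+1) := (M_mono hM).monotone (by omega)
  rw [splitS, Finset.card_union_of_disjoint, Finset.card_range, Nat.card_Ico]
  · omega
  · rw [Finset.disjoint_left]
    intro i hi hi'
    rw [Finset.mem_range] at hi
    rw [Finset.mem_Ico] at hi'
    omega

lemma mem_bigS {M : ℕ → ℕ} {n i : ℕ} : i ∈ bigS M n ↔ i < M (2*n) := by simp [bigS]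

lemma mem_splitS {M : ℕ → ℕ} {n i : ℕ} : i ∈ splitS M n ↔ i < M (2*n-2) ∨
    (M (2*n+1) ≤ i ∧ i < M (2*n+1) + (M (2*n) - M (2*n-2))) := by simp [splitS]

lemma big_sub_split (M : ℕ → ℕ) (n : ℕ) : bigS M n ⊆ splitS M (n+1) := by
  intro i hi
  rw [mem_bigS] at hi
  rw [mem_splitS]
  left
  have : 2 * (n+1) - 2 = 2 * n := by omega
  rw [this]; exact hi

lemma split_sub_big {M : ℕ → ℕ} (hM : ∀ n, 2 * M n + 1 ≤ M (n+1)) (n : ℕ) :
    splitS M n ⊆ bigS M (n+1) := by
  intro i hi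
  rw [mem_splitS] at hi
  rw [mem_bigS]
  have h1 : M (2*n-2) ≤ M (2*n) := (M_mono hM).monotone (by omega)
  have h2 : M (2*n) ≤ M (2*n+1) := (M_mono hM).monotone (by omega)
  have h3 := hM (2*n+1)
  have h4 : 2 * (n+1) = 2*n+1+1 := by omega
  rw [h4]
  omega

/-- index sets -/
def pset (M : ℕ → ℕ) (n : ℕ) : Finset ℕ := if n % 2 = 0 then bigS M n else splitS M n

def qset (M : ℕ → ℕ) (n : ℕ) : Finset ℕ := if n % 2 = 0 then splitS M n else bigS M n

lemma pset_even (M : ℕ → ℕ) (k : ℕ) : pset M (2*k) = bigS M (2*k) := by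
  rw [pset, if_pos (by omega)]

lemma pset_odd (M : ℕ → ℕ) (k : ℕ) : pset M (2*k+1) = splitS M (2*k+1) := by
  rw [pset, if_neg (by omega)]

lemma qset_even (M : ℕ → ℕ) (k : ℕ) : qset M (2*k) = splitS M (2*k) := by
  rw [qset, if_pos (by omega)]

lemma qset_odd (M : ℕ → ℕ) (k : ℕ) : qset M (2*k+1) = bigS M (2*k+1) := by
  rw [qset, if_neg (by omega)]

lemma pset_mono {M : ℕ → ℕ} (hM : ∀ n, 2 * M n + 1 ≤ M (n+1)) : Monotone (pset M) := by
  apply monotone_nat_of_le_succ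
  intro n
  rcases Nat.even_or_odd' n with ⟨k, rfl | rfl⟩
  · rw [pset_even, pset_odd]; exact big_sub_split M _
  · have : 2 * k + 1 + 1 = 2 * (k+1) := by ring
    rw [this, pset_even, pset_odd, ← this]; exact split_sub_big hM _

lemma qset_mono {M : ℕ → ℕ} (hM : ∀ n, 2 * M n + 1 ≤ M (n+1)) : Monotone (qset M) := by
  apply monotone_nat_of_le_succ
  intro n
  rcases Nat.even_or_odd' n with ⟨k, rfl | rfl⟩
  · rw [qset_even, qset_odd]; exact split_sub_big hM _
  · have : 2 * k + 1 + 1 = 2 * (k+1) := by ring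
    rw [this, qset_even, qset_odd, ← this]; exact big_sub_split M _

lemma M_ge {M : ℕ → ℕ} (hM : ∀ n, 2 * M n + 1 ≤ M (n+1)) (n : ℕ) : n ≤ M n :=
  (M_mono hM).id_le n

lemma pset_exh {M : ℕ → ℕ} (hM : ∀ n, 2 * M n + 1 ≤ M (n+1)) (i : ℕ) : ∃ n, i ∈ pset M n := by
  refine ⟨2 * (i+1), ?_⟩
  rw [pset_even, mem_bigS]
  have := M_ge hM (2 * (2 * (i+1)))
  omega

lemma qset_exh {M : ℕ → ℕ} (hM : ∀ n, 2 * M n + 1 ≤ M (n+1)) (i : ℕ) : ∃ n, i ∈ qset M n := by
  refine ⟨2 * i + 1, ?_⟩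
  rw [qset_odd, mem_bigS]
  have := M_ge hM (2 * (2 * i+1))
  omega

lemma pq_card {M : ℕ → ℕ} (hM : ∀ n, 2 * M n + 1 ≤ M (n+1)) (n : ℕ) :
    (pset M n).card = (qset M n).card := by
  unfold pset qset
  split_ifs
  · rw [card_bigS, card_splitS hM]
  · rw [card_bigS, card_splitS hM]

lemma exists_pi {M : ℕ → ℕ} (hM : ∀ n, 2 * M n + 1 ≤ M (n+1)) :
    ∃ π : Equiv.Perm ℕ, ∀ n i, π i ∈ qset M n ↔ i ∈ pset M n :=
  exists_perm (pset_mono hM) (qset_mono hM) (pset_exh hM) (qset_exh hM) (pq_card hM)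

/-- the permutation operator -/
noncomputable def permOp (π : Equiv.Perm ℕ) : (ℕ →₀ D) ≃ₗ[D] (ℕ →₀ D) := Finsupp.domLCongr π

lemma permOp_symm_apply (π : Equiv.Perm ℕ) (x : ℕ →₀ D) (j : ℕ) :
    (permOp (D := D) π).symm x j = x (π j) := by
  simp [permOp, Finsupp.domLCongr]

theorem crit_of_good (γ : (ℕ →₀ D) ≃ₗ[D] (ℕ →₀ D)) (M : ℕ → ℕ) (hM0 : M 0 = 0)
    (hM : ∀ n, 2 * M n + 1 ≤ M (n+1)) (hγ : Good γ M) (π : Equiv.Perm ℕ)
    (hπ : ∀ n i, π i ∈ qset M n ↔ i ∈ pset M n) :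
    ∃ R : Set (ℕ →₀ D), R.Infinite ∧ ∃ e : Module.Basis (R × ℤ) D (ℕ →₀ D),
      ∀ x n, γ (permOp π (e (x, n))) = e (x, n + 1) := by
  set c : (ℕ →₀ D) ≃ₗ[D] (ℕ →₀ D) := (permOp π).trans γ with hc
  set A : ℕ → Submodule D (ℕ →₀ D) := fun n => Finsupp.supported D D (pset M n : Set ℕ) with hA
  have memA : ∀ n x, x ∈ A n ↔ ∀ j, j ∉ pset M n → x j = 0 := by
    intro n x
    rw [hA, Finsupp.mem_supported']
    simp
  have memcA : ∀ n x, x ∈ (A n).map (c : (ℕ →₀ D) →ₗ[D] (ℕ →₀ D)) ↔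
      ∀ j, j ∉ qset M n → γ.symm x j = 0 := by
    intro n x
    rw [Submodule.mem_map_equiv, memA]
    have h1 : ∀ j, c.symm x j = γ.symm x (π j) := by
      intro j
      show (permOp π).symm (γ.symm x) j = _
      rw [permOp_symm_apply]
    constructor
    · intro h j hj
      have := h (π.symm j) (by
        rw [← hπ]; simpa using hj)
      rw [h1] at this
      simpa using this
    · intro h j hj
      rw [h1]
      apply h
      rw [hπ]; exact hj
  have hmono := M_mono hM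
  have mA : ∀ n, A n ≤ A (n+1) := by
    intro n x hx
    rw [memA] at hx ⊢
    intro j hj
    exact hx j (fun h => hj (pset_mono hM (Nat.le_succ n) h))
  have mcA : ∀ n, (A n).map (c : (ℕ →₀ D) →ₗ[D] (ℕ →₀ D)) ≤ (A (n+1)).map (c : (ℕ →₀ D) →ₗ[D] (ℕ →₀ D)) :=
    fun n => Submodule.map_mono (mA n)
  refine criterion c A ?_ ?_ ?_ ?_ ?_ ?_ ?_
  · -- A 0 = ⊥
    rw [eq_bot_iff]
    intro x hx
    rw [memA] at hx
    rw [Submodule.mem_bot]
    ext j
    apply hx j
    have : pset M 0 = bigS M 0 := pset_even M 0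
    rw [this, mem_bigS, mul_zero, hM0]
    omega
  · -- hb1
    intro k
    apply sup_le _ (mcA _)
    intro x hx
    rw [memA, pset_even] at hx
    rw [memcA, qset_odd]
    intro j hj
    rw [mem_bigS] at hj
    refine hγ.bwd (2 * (2 * k)) x (fun i hi => hx i ?_) j ?_
    · rw [mem_bigS]; omega
    · have := hmono.monotone (show 2 * (2 * k) + 1 ≤ 2 * (2 * k + 1) by omega)
      omega
  · -- hb2
    rintro k x ⟨hx1, hx2⟩
    rw [SetLike.mem_coe, memA, pset_odd] at hx1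
    rw [SetLike.mem_coe, memcA, qset_odd] at hx2
    rw [memA, pset_even]
    have h3 := hγ.fwd (2 * (2*k+1)) (γ.symm x) (fun i hi => hx2 i (by rw [mem_bigS]; omega))
    rw [LinearEquiv.apply_symm_apply] at h3
    intro j hj
    rw [mem_bigS] at hj
    by_cases hj2 : M (2 * (2*k+1) + 1) ≤ j
    · exact h3 j hj2
    · apply hx1
      rw [mem_splitS]
      have e1 : 2 * (2 * k + 1) - 2 = 2 * (2 * k) := by omega
      rw [e1]
      omega
  · -- hf1
    intro k
    apply sup_le (mA _)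
    intro x hx
    rw [memcA, qset_odd] at hx
    have e2 : 2 * k + 2 = 2 * (k + 1) := by ring
    rw [memA, e2, pset_even]
    have h3 := hγ.fwd (2 * (2*k+1)) (γ.symm x) (fun i hi => hx i (by rw [mem_bigS]; omega))
    rw [LinearEquiv.apply_symm_apply] at h3
    intro j hj
    rw [mem_bigS] at hj
    apply h3 j
    have := hmono.monotone (show 2 * (2 * k + 1) + 1 ≤ 2 * (2 * (k + 1)) by omega)
    omega
  · -- hf2
    rintro k x ⟨hx1, hx2⟩
    have e2 : 2 * k + 2 = 2 * (k + 1) := by ring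
    rw [SetLike.mem_coe, memA, e2, pset_even] at hx1
    rw [SetLike.mem_coe, memcA, e2, qset_even] at hx2
    rw [memcA, qset_odd]
    have h3 := hγ.bwd (2 * (2*(k+1))) x (fun i hi => hx1 i (by rw [mem_bigS]; omega))
    intro j hj
    rw [mem_bigS] at hj
    by_cases hj2 : M (2 * (2*(k+1)) + 1) ≤ j
    · exact h3 j hj2
    · apply hx2
      rw [mem_splitS]
      have e1 : 2 * (2 * (k + 1)) - 2 = 2 * (2 * k + 1) := by omega
      rw [e1]
      omega
  · -- hne
    intro k heq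
    have e2 : 2 * k + 2 = 2 * (k + 1) := by ring
    -- every element of the left side vanishes at `M (4k+4) - 1`
    set N := M (2 * (2 * (k+1))) with hN
    have g1 := hM (2 * (2 * k + 1) + 1)
    have e3 : 2 * (2 * k + 1) + 1 + 1 = 2 * (2 * (k+1)) := by ring
    rw [e3, ← hN] at g1
    have g2 : M (2 * (2*k+1)) ≤ M (2 * (2 * k + 1) + 1) := hmono.monotone (by omega)
    have g3 : M (2 * (2*k+1) - 2) ≤ M (2 * (2 * k + 1)) := hmono.monotone (by omega)
    have key : A (2*k+1) ⊔ (A (2*k+1)).map (c : (ℕ →₀ D) →ₗ[D] (ℕ →₀ D)) ≤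
        LinearMap.ker (Finsupp.lapply (R := D) (M := D) (N - 1)) := by
      apply sup_le
      · intro x hx
        rw [memA, pset_odd] at hx
        rw [LinearMap.mem_ker, Finsupp.lapply_apply]
        apply hx
        rw [mem_splitS]
        omega
      · intro x hx
        rw [memcA, qset_odd] at hx
        rw [LinearMap.mem_ker, Finsupp.lapply_apply]
        have h3 := hγ.fwd (2 * (2*k+1)) (γ.symm x) (fun i hi => hx i (by rw [mem_bigS]; omega))
        rw [LinearEquiv.apply_symm_apply] at h3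
        apply h3
        omega
    have hmem : (Finsupp.single (N-1) 1 : ℕ →₀ D) ∈ A (2*k+2) := by
      rw [memA, e2, pset_even]
      intro j hj
      rw [mem_bigS, ← hN] at hj
      rw [Finsupp.single_apply, if_neg]
      omega
    rw [← heq] at hmem
    have := key hmem
    rw [LinearMap.mem_ker, Finsupp.lapply_apply, Finsupp.single_eq_same] at this
    exact one_ne_zero this
  · -- hex
    intro x
    obtain ⟨K, hK⟩ := x.support.exists_nat_subset_range
    refine ⟨K, ?_⟩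
    rw [memA, pset_even]
    intro j hj
    by_contra h
    have := hK (Finsupp.mem_support_iff.2 h)
    rw [Finset.mem_range] at this
    apply hj
    rw [mem_bigS]
    have := M_ge hM (2 * (2 * K))
    omega

/-- reindexing the orbits by natural numbers -/
lemma reindex_nat (c : (ℕ →₀ D) ≃ₗ[D] (ℕ →₀ D)) (h : ∃ R : Set (ℕ →₀ D), R.Infinite ∧
    ∃ e : Module.Basis (R × ℤ) D (ℕ →₀ D), ∀ x n, c (e (x, n)) = e (x, n + 1)) :
    ∃ e : Module.Basis (ℕ × ℤ) D (ℕ →₀ D), ∀ x n, c (e (x, n)) = e (x, n + 1) := by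
  obtain ⟨R, hR, e, he⟩ := h
  have E : R × ℤ ≃ ℕ := e.indexEquiv (Finsupp.basisSingleOne (R := D) (ι := ℕ))
  have hcount : Countable R := by
    have hinj : Function.Injective (fun x : R => E (x, 0)) := by
      intro x y hxy
      have := E.injective hxy
      exact (Prod.mk.inj this).1
    exact hinj.countable
  have hinf : Infinite R := hR.to_subtype
  obtain ⟨F⟩ : Nonempty (R ≃ ℕ) := nonempty_equiv_of_countable
  refine ⟨e.reindex (F.prodCongr (Equiv.refl ℤ)), fun x n => ?_⟩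
  rw [Module.Basis.reindex_apply, Module.Basis.reindex_apply]
  exact he _ _

/-- The countable-dimensional lemma. -/
theorem countable_case (γ : (ℕ →₀ D) ≃ₗ[D] (ℕ →₀ D)) :
    ∃ β : (ℕ →₀ D) ≃ₗ[D] (ℕ →₀ D), ∃ f h : Module.Basis (ℕ × ℤ) D (ℕ →₀ D),
      (∀ x n, β (f (x, n)) = f (x, n + 1)) ∧ (∀ x n, γ (β (h (x, n))) = h (x, n + 1)) := by
  obtain ⟨M, hM0, hM, hγ⟩ := exists_good γ
  obtain ⟨π, hπ⟩ := exists_pi hM
  obtain ⟨f, hf⟩ := reindex_nat (permOp π) (crit_of_good (LinearEquiv.refl D (ℕ →₀ D)) M hM0 hM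
    (Good.one M hM) π hπ)
  obtain ⟨h, hh⟩ := reindex_nat ((permOp π).trans γ) (crit_of_good γ M hM0 hM hγ π hπ)
  exact ⟨permOp π, f, h, hf, hh⟩

end Pool.Helper354.GL
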