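import Mathlib

set_option autoImplicit false

universe u v

namespace Pool.Helper354.GL

open Set

lemma countable_closure {X : Type v} (Step : X → X → Prop) (hS : ∀ x, {y | Step x y}.Countable) (x : X) :
    {y | Relation.ReflTransGen Step x y}.Countable := by
  let L : ℕ → Set X := fun k => Nat.rec {x} (fun _ S => ⋃ y ∈ S, {z | Step y z}) k
  have hL : ∀ k, (L k).Countable := by
    intro k
    induction k with
    | zero => exact countable_singleton x
    | succ k ih => exact ih.biUnion (fun y _ => hS y)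
  have hsub : {y | Relation.ReflTransGen Step x y} ⊆ ⋃ k, L k := by
    intro y hy
    induction hy with
    | refl => exact mem_iUnion.2 ⟨0, rfl⟩
    | tail _ h ih =>
      obtain ⟨k, hk⟩ := mem_iUnion.1 ih
      exact mem_iUnion.2 ⟨k+1, mem_biUnion hk h⟩
  exact (countable_iUnion hL).mono hsub

variable {D : Type u} [DivisionRing D] {V : Type v} [AddCommGroup V] [Module D V]

theorem exists_triangular (hV : ¬ Module.Finite D V) (g : V ≃ₗ[D] V) :
    ∃ (I : Type v) (_ : LinearOrder I) (_ : WellFoundedLT I) (e : Module.Basis (I × ℕ) D V),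
      (∀ i n j m, i < j → e.repr (g (e (i,n))) (j,m) = 0) ∧
      (∀ i n j m, i < j → e.repr (g.symm (e (i,n))) (j,m) = 0) := by
  classical
  let X : Type v := Module.Basis.ofVectorSpaceIndex D V
  let b : Module.Basis X D V := Module.Basis.ofVectorSpace D V
  have hX : Infinite X := by
    by_contra h
    rw [not_infinite_iff_finite] at h
    exact hV (Module.Finite.of_basis b)
  have hcard : Cardinal.mk X = Cardinal.mk (X × ℕ) := by
    rw [Cardinal.mk_prod, Cardinal.mk_nat, Cardinal.lift_aleph0, Cardinal.lift_uzero]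
    exact (Cardinal.mul_eq_left (Cardinal.aleph0_le_mk X) (Cardinal.aleph0_le_mk X)
      Cardinal.aleph0_ne_zero).symm
  obtain ⟨θ⟩ := Cardinal.eq.1 hcard
  let e₀ : Module.Basis (X × ℕ) D V := b.reindex θ
  let Step : X → X → Prop := fun x y => ∃ n m, e₀.repr (g (e₀ (x,n))) (y,m) ≠ 0 ∨
    e₀.repr (g.symm (e₀ (x,n))) (y,m) ≠ 0
  have hS : ∀ x, {y | Step x y}.Countable := by
    intro x
    have hsub : {y | Step x y} ⊆ ⋃ n : ℕ, (Prod.fst '' ((e₀.repr (g (e₀ (x,n)))).support : Set (X × ℕ)) ∪
      Prod.fst '' ((e₀.repr (g.symm (e₀ (x,n)))).support : Set (X × ℕ))) := by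
      rintro y ⟨n, m, h | h⟩
      · exact mem_iUnion.2 ⟨n, Or.inl ⟨(y,m), Finsupp.mem_support_iff.2 h, rfl⟩⟩
      · exact mem_iUnion.2 ⟨n, Or.inr ⟨(y,m), Finsupp.mem_support_iff.2 h, rfl⟩⟩
    refine (countable_iUnion fun n => ?_).mono hsub
    exact ((Finset.finite_toSet _).image _).countable.union ((Finset.finite_toSet _).image _).countable
  have hC := countable_closure Step hS
  obtain ⟨ho, hwf⟩ := exists_wellFoundedLT X
  let Q : X → Set X := fun y => {x | Relation.ReflTransGen Step x y}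
  have hQ : ∀ y, (Q y).Nonempty := fun y => ⟨y, Relation.ReflTransGen.refl⟩
  let r : X → X := fun y => wellFounded_lt.min (Q y) (hQ y)
  have hr1 : ∀ y, Relation.ReflTransGen Step (r y) y := fun y => wellFounded_lt.min_mem (Q y) (hQ y)
  have hr2 : ∀ y z, Step y z → r z ≤ r y := by
    intro y z h
    apply not_lt.1
    intro hlt
    exact wellFounded_lt.not_lt_min (Q z) ((hr1 y).tail h) hlt
  let r' : X → range r := fun y => ⟨r y, mem_range_self y⟩
  have hfib : ∀ i : range r, Nonempty ({y // r' y = i} × ℕ ≃ ℕ) := by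
    intro i
    have hcnt : Countable {y // r' y = i} := by
      have h1 : {y | r' y = i} ⊆ {y | Relation.ReflTransGen Step i.1 y} := by
        intro y hy
        have : r y = i.1 := congrArg Subtype.val hy
        show Relation.ReflTransGen Step i.1 y
        rw [← this]; exact hr1 y
      exact ((hC i.1).mono h1).to_subtype
    have hne : Nonempty {y // r' y = i} := by
      obtain ⟨y, hy⟩ := i.2
      exact ⟨⟨y, Subtype.ext hy⟩⟩
    exact nonempty_equiv_of_countable
  let E := fun i => Classical.choice (hfib i)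
  let φ : X × ℕ ≃ (range r) × ℕ :=
    ((Equiv.prodCongr (Equiv.sigmaFiberEquiv r').symm (Equiv.refl ℕ)).trans
      (Equiv.sigmaProdDistrib _ _)).trans ((Equiv.sigmaCongrRight E).trans (Equiv.sigmaEquivProd _ _))
  have hφ : ∀ y n, (φ (y, n)).1 = r' y := fun y n => rfl
  have hφ2 : ∀ i n, r' (φ.symm (i,n)).1 = i := by
    intro i n
    rw [← hφ (φ.symm (i,n)).1 (φ.symm (i,n)).2]
    simp
  refine ⟨range r, inferInstance, inferInstance, e₀.reindex φ, ?_, ?_⟩
  · intro i n j m hij
    by_contra h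
    rw [Module.Basis.repr_reindex_apply, Module.Basis.reindex_apply] at h
    have hst : Step (φ.symm (i,n)).1 (φ.symm (j,m)).1 := ⟨(φ.symm (i,n)).2, (φ.symm (j,m)).2, Or.inl h⟩
    have h1 : r' (φ.symm (j,m)).1 ≤ r' (φ.symm (i,n)).1 := hr2 _ _ hst
    rw [hφ2, hφ2] at h1
    exact absurd h1 (not_le.2 hij)
  · intro i n j m hij
    by_contra h
    rw [Module.Basis.repr_reindex_apply, Module.Basis.reindex_apply] at h
    have hst : Step (φ.symm (i,n)).1 (φ.symm (j,m)).1 := ⟨(φ.symm (i,n)).2, (φ.symm (j,m)).2, Or.inr h⟩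
    have h1 : r' (φ.symm (j,m)).1 ≤ r' (φ.symm (i,n)).1 := hr2 _ _ hst
    rw [hφ2, hφ2] at h1
    exact absurd h1 (not_le.2 hij)

end Pool.Helper354.GL
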