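import Mathlib
import Pool.Agent.Helper354.GLCountable
import Pool.Agent.Helper354.GLTri

set_option autoImplicit false

universe u v w

namespace Pool.Helper354.GL

open Set Finsupp

variable {D : Type u} [DivisionRing D] {I : Type v} [LinearOrder I]
  {W : Type w} [AddCommGroup W] [Module D W]

/-- lower triangular endomorphisms -/
def Tri (u : (I →₀ W) →ₗ[D] (I →₀ W)) : Prop := ∀ i w j, i < j → u (single i w) j = 0

/-- diagonal blocks -/
noncomputable def dg (u : (I →₀ W) →ₗ[D] (I →₀ W)) (i : I) : W →ₗ[D] W :=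
  (Finsupp.lapply i).comp (u.comp (Finsupp.lsingle i))

omit [LinearOrder I] in
lemma dg_apply (u : (I →₀ W) →ₗ[D] (I →₀ W)) (i : I) (w : W) : dg u i w = u (single i w) i := rfl

lemma Tri.zero_of {u : (I →₀ W) →ₗ[D] (I →₀ W)} (hu : Tri u) {x : I →₀ W} {i : I}
    (hx : ∀ j, i ≤ j → x j = 0) : u x i = 0 := by
  classical
  have h1 : x = ∑ k ∈ x.support, single k (x k) := (Finsupp.sum_single x).symm
  rw [h1, map_sum, Finsupp.finsetSum_apply]
  apply Finset.sum_eq_zero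
  intro k hk
  apply hu
  by_contra h
  exact (Finsupp.mem_support_iff.1 hk) (hx k (not_lt.1 h))

lemma Tri.apply_of {u : (I →₀ W) →ₗ[D] (I →₀ W)} (hu : Tri u) {x : I →₀ W} {i : I}
    (hx : ∀ j, i < j → x j = 0) : u x i = dg u i (x i) := by
  have h1 : x = single i (x i) + (x - single i (x i)) := by simp
  have h2 : u (x - single i (x i)) i = 0 := by
    apply hu.zero_of
    intro j hj
    rw [Finsupp.sub_apply]
    rcases hj.lt_or_eq with h | h
    · rw [hx j h, Finsupp.single_eq_of_ne (ne_of_gt h), sub_zero]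
    · subst h; simp
  conv_lhs => rw [h1]
  rw [map_add, Finsupp.add_apply, h2, add_zero, dg_apply]

lemma Tri.zero_of' {u : (I →₀ W) →ₗ[D] (I →₀ W)} (hu : Tri u) {x : I →₀ W} {i : I}
    (hx : ∀ j, i < j → x j = 0) : ∀ j, i < j → u x j = 0 := by
  intro j hj
  exact hu.zero_of (fun k hk => hx k (lt_of_lt_of_le hj hk))

lemma Tri.comp {u v : (I →₀ W) →ₗ[D] (I →₀ W)} (hu : Tri u) (hv : Tri v) : Tri (u.comp v) := by
  intro i w j hij
  rw [LinearMap.comp_apply]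
  exact hu.zero_of' (hv i w) j hij

lemma Tri.dg_comp {u v : (I →₀ W) →ₗ[D] (I →₀ W)} (hu : Tri u) (hv : Tri v) (i : I) :
    dg (u.comp v) i = (dg u i).comp (dg v i) := by
  ext w
  rw [dg_apply, LinearMap.comp_apply, hu.apply_of (hv i w), LinearMap.comp_apply, dg_apply v]

/-- unitriangular endomorphisms are bijective -/
lemma unitri_bijective [WellFoundedLT I] {u : (I →₀ W) →ₗ[D] (I →₀ W)} (hu : Tri u)
    (h1 : ∀ i w, u (single i w) i = w) : Function.Bijective u := by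
  classical
  constructor
  · rw [injective_iff_map_eq_zero]
    intro x hx
    by_contra hne
    have hs : x.support.Nonempty := Finsupp.support_nonempty_iff.2 hne
    set i := x.support.max' hs with hi
    have hxi : x i ≠ 0 := Finsupp.mem_support_iff.1 (x.support.max'_mem hs)
    have hxj : ∀ j, i < j → x j = 0 := by
      intro j hj
      by_contra h
      exact absurd (x.support.le_max' j (Finsupp.mem_support_iff.2 h)) (not_le.2 hj)
    have := hu.apply_of hxj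
    rw [hx, dg_apply, h1] at this
    exact hxi (by rw [← this]; rfl)
  · have key : ∀ i w, single i w ∈ LinearMap.range u := by
      intro i
      induction i using WellFoundedLT.induction with
      | ind i ih =>
        intro w
        set y := u (single i w) - single i w with hy
        have hy1 : y ∈ LinearMap.range u := by
          have h2 : y = ∑ k ∈ y.support, single k (y k) := (Finsupp.sum_single y).symm
          rw [h2]
          apply Submodule.sum_mem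
          intro k hk
          apply ih
          by_contra hki
          apply Finsupp.mem_support_iff.1 hk
          rw [hy, Finsupp.sub_apply]
          rcases (not_lt.1 hki).lt_or_eq with h | h
          · rw [hu i w k h, Finsupp.single_eq_of_ne (ne_of_gt h), sub_zero]
          · subst h; rw [h1]; simp
        have h3 : single i w = u (single i w) - y := by rw [hy]; abel
        rw [h3]
        exact Submodule.sub_mem _ ⟨_, rfl⟩ hy1
    intro x
    have h2 : x = ∑ k ∈ x.support, single k (x k) := (Finsupp.sum_single x).symm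
    have h4 : x ∈ LinearMap.range u := by
      rw [h2]
      exact Submodule.sum_mem _ (fun k _ => key k _)
    exact h4

omit [LinearOrder I] in
/-- block-diagonal automorphisms -/
lemma exists_blockdiag (β : I → (W ≃ₗ[D] W)) :
    ∃ b : (I →₀ W) ≃ₗ[D] (I →₀ W), (∀ i w, b (single i w) = single i (β i w)) ∧
      (∀ i w, b.symm (single i w) = single i ((β i).symm w)) := by
  classical
  let b1 : (I →₀ W) →ₗ[D] (I →₀ W) := Finsupp.lsum ℕ (fun i => (Finsupp.lsingle i).comp (β i : W →ₗ[D] W))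
  let b2 : (I →₀ W) →ₗ[D] (I →₀ W) := Finsupp.lsum ℕ (fun i => (Finsupp.lsingle i).comp ((β i).symm : W →ₗ[D] W))
  have h1 : ∀ i w, b1 (single i w) = single i (β i w) := by
    intro i w
    simp [b1]
  have h2 : ∀ i w, b2 (single i w) = single i ((β i).symm w) := by
    intro i w
    simp [b2]
  have h12 : b1.comp b2 = LinearMap.id := by
    apply Finsupp.lhom_ext
    intro i w
    rw [LinearMap.comp_apply, h2, h1, LinearEquiv.apply_symm_apply, LinearMap.id_apply]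
  have h21 : b2.comp b1 = LinearMap.id := by
    apply Finsupp.lhom_ext
    intro i w
    rw [LinearMap.comp_apply, h1, h2, LinearEquiv.symm_apply_apply, LinearMap.id_apply]
  exact ⟨LinearEquiv.ofLinearMap b1 b2 h12 h21, h1, h2⟩

lemma orbit_key (c : (I →₀ W) ≃ₗ[D] (I →₀ W))
    (hc : Tri (c : (I →₀ W) →ₗ[D] (I →₀ W))) (hc' : Tri (c.symm : (I →₀ W) →ₗ[D] (I →₀ W)))
    (h : I → Module.Basis (ℕ × ℤ) D W)
    (hh : ∀ i x n, c (single i (h i (x, n))) i = h i (x, n + 1)) (i : I) (x : ℕ) (n : ℤ) :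
    ((c ^ n) (single i (h i (x, 0)))) i = h i (x, n) ∧
      ∀ j, i < j → ((c ^ n) (single i (h i (x, 0)))) j = 0 := by
  induction n using Int.induction_on with
  | zero =>
    rw [zpow_zero]
    refine ⟨?_, fun j hj => ?_⟩
    · show (single i (h i (x, 0))) i = _
      rw [Finsupp.single_eq_same]
    · show (single i (h i (x, 0))) j = _
      rw [Finsupp.single_eq_of_ne (ne_of_gt hj)]
  | succ n ih =>
    have e1 : (c ^ ((n:ℤ) + 1)) (single i (h i (x, 0))) = c ((c ^ (n:ℤ)) (single i (h i (x, 0)))) := by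
      rw [add_comm, zpow_add, zpow_one]; rfl
    rw [e1]
    refine ⟨?_, hc.zero_of' ih.2⟩
    have := hc.apply_of ih.2
    rw [LinearEquiv.coe_coe] at this
    rw [this, dg_apply, ih.1, LinearEquiv.coe_coe, hh]
  | pred n ih =>
    set z := (c ^ (-(n:ℤ))) (single i (h i (x, 0))) with hz
    have e1 : (c ^ (-(n:ℤ) - 1)) (single i (h i (x, 0))) = c.symm z := by
      rw [LinearEquiv.eq_symm_apply, hz]
      have : c ^ (-(n:ℤ)) = c * c ^ (-(n:ℤ) - 1) := by
        rw [← zpow_one_add]; congr 1; ring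
      rw [this]; rfl
    rw [e1]
    refine ⟨?_, hc'.zero_of' ih.2⟩
    have h3 := hc'.apply_of ih.2
    rw [LinearEquiv.coe_coe] at h3
    rw [h3, ih.1]
    have h4 : h i (x, -(n:ℤ)) = dg (c : (I →₀ W) →ₗ[D] (I →₀ W)) i (h i (x, -(n:ℤ) - 1)) := by
      rw [dg_apply, LinearEquiv.coe_coe, hh, sub_add_cancel]
    rw [h4, ← LinearMap.comp_apply, ← hc'.dg_comp hc i]
    have h5 : (c.symm : (I →₀ W) →ₗ[D] (I →₀ W)).comp (c : (I →₀ W) →ₗ[D] (I →₀ W)) = LinearMap.id := by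
      ext1 w; simp
    rw [h5, dg_apply, LinearMap.id_apply, Finsupp.single_eq_same]

/-- bases of orbits for triangular automorphisms -/
lemma orbit_basis [WellFoundedLT I] (c : (I →₀ W) ≃ₗ[D] (I →₀ W))
    (hc : Tri (c : (I →₀ W) →ₗ[D] (I →₀ W))) (hc' : Tri (c.symm : (I →₀ W) →ₗ[D] (I →₀ W)))
    (h : I → Module.Basis (ℕ × ℤ) D W)
    (hh : ∀ i x n, c (single i (h i (x, n))) i = h i (x, n + 1)) :
    ∃ H : Module.Basis (Σ _ : I, ℕ × ℤ) D (I →₀ W), ∀ i x n, c (H ⟨i, x, n⟩) = H ⟨i, x, n + 1⟩ := by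
  classical
  obtain ⟨G, hG⟩ : ∃ G : Module.Basis (Σ _ : I, ℕ × ℤ) D (I →₀ W), ∀ i t, G ⟨i, t⟩ = single i (h i t) :=
    ⟨Finsupp.basis h, fun i t => by rw [Finsupp.coe_basis]⟩
  obtain ⟨H0, hH0⟩ : ∃ H0 : (Σ _ : I, ℕ × ℤ) → (I →₀ W),
      ∀ i x n, H0 ⟨i, x, n⟩ = (c ^ n) (single i (h i (x, 0))) :=
    ⟨fun t => (c ^ t.2.2) (single t.1 (h t.1 (t.2.1, 0))), fun i x n => rfl⟩
  have hH0s : ∀ i x n, H0 ⟨i, x, n+1⟩ = c (H0 ⟨i, x, n⟩) := by
    intro i x n
    rw [hH0, hH0, add_comm, zpow_add, zpow_one]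
    rfl
  have hkey : ∀ i x n, (H0 ⟨i, x, n⟩) i = h i (x, n) ∧ ∀ j, i < j → (H0 ⟨i, x, n⟩) j = 0 := by
    intro i x n
    rw [hH0]
    exact orbit_key c hc hc' h hh i x n
  obtain ⟨Φ, hΦ⟩ : ∃ Φ : (I →₀ W) →ₗ[D] (I →₀ W), ∀ t, Φ (G t) = H0 t :=
    ⟨G.constr ℕ H0, fun t => G.constr_basis ℕ H0 t⟩
  have hΦT : Tri Φ := by
    intro i w j hij
    have : (Finsupp.lapply j).comp (Φ.comp (Finsupp.lsingle i)) = (0 : W →ₗ[D] W) := by
      apply (h i).ext
      rintro ⟨x, n⟩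
      simp only [LinearMap.comp_apply, Finsupp.lsingle_apply, Finsupp.lapply_apply, LinearMap.zero_apply]
      rw [← hG, hΦ]
      exact (hkey i x n).2 j hij
    exact LinearMap.congr_fun this w
  have hΦ1 : ∀ i w, Φ (single i w) i = w := by
    intro i w
    have : (Finsupp.lapply i).comp (Φ.comp (Finsupp.lsingle i)) = (LinearMap.id : W →ₗ[D] W) := by
      apply (h i).ext
      rintro ⟨x, n⟩
      simp only [LinearMap.comp_apply, Finsupp.lsingle_apply, Finsupp.lapply_apply, LinearMap.id_apply]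
      rw [← hG, hΦ]
      exact (hkey i x n).1
    exact LinearMap.congr_fun this w
  obtain ⟨H, hH⟩ : ∃ H : Module.Basis (Σ _ : I, ℕ × ℤ) D (I →₀ W), ∀ t, H t = H0 t := by
    refine ⟨G.map (LinearEquiv.ofBijective Φ (unitri_bijective hΦT hΦ1)), fun t => ?_⟩
    rw [Module.Basis.map_apply, LinearEquiv.ofBijective_apply, hΦ]
  refine ⟨H, fun i x n => ?_⟩
  rw [hH, hH, hH0s]

/-- The main construction on `I →₀ (ℕ →₀ D)`. -/
theorem triangular_case [WellFoundedLT I] (g : (I →₀ (ℕ →₀ D)) ≃ₗ[D] (I →₀ (ℕ →₀ D)))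
    (hg : Tri (g : (I →₀ (ℕ →₀ D)) →ₗ[D] (I →₀ (ℕ →₀ D))))
    (hg' : Tri (g.symm : (I →₀ (ℕ →₀ D)) →ₗ[D] (I →₀ (ℕ →₀ D)))) :
    ∃ b : (I →₀ (ℕ →₀ D)) ≃ₗ[D] (I →₀ (ℕ →₀ D)),
      ∃ F H : Module.Basis (Σ _ : I, ℕ × ℤ) D (I →₀ (ℕ →₀ D)),
        (∀ i x n, b (F ⟨i, x, n⟩) = F ⟨i, x, n + 1⟩) ∧
        (∀ i x n, g (b (H ⟨i, x, n⟩)) = H ⟨i, x, n + 1⟩) := by
  classical
  have hgg : ∀ i, (dg (g : (I →₀ (ℕ →₀ D)) →ₗ[D] (I →₀ (ℕ →₀ D))) i).comp
      (dg (g.symm : (I →₀ (ℕ →₀ D)) →ₗ[D] (I →₀ (ℕ →₀ D))) i) = LinearMap.id := by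
    intro i
    rw [← hg.dg_comp hg' i]
    have h5 : (g : (I →₀ (ℕ →₀ D)) →ₗ[D] (I →₀ (ℕ →₀ D))).comp
      (g.symm : (I →₀ (ℕ →₀ D)) →ₗ[D] (I →₀ (ℕ →₀ D))) = LinearMap.id := by
      apply LinearMap.ext; intro w; simp
    rw [h5]
    apply LinearMap.ext; intro w
    rw [dg_apply, LinearMap.id_apply, Finsupp.single_eq_same, LinearMap.id_apply]
  have hgg' : ∀ i, (dg (g.symm : (I →₀ (ℕ →₀ D)) →ₗ[D] (I →₀ (ℕ →₀ D))) i).comp
      (dg (g : (I →₀ (ℕ →₀ D)) →ₗ[D] (I →₀ (ℕ →₀ D))) i) = LinearMap.id := by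
    intro i
    rw [← hg'.dg_comp hg i]
    have h5 : (g.symm : (I →₀ (ℕ →₀ D)) →ₗ[D] (I →₀ (ℕ →₀ D))).comp
      (g : (I →₀ (ℕ →₀ D)) →ₗ[D] (I →₀ (ℕ →₀ D))) = LinearMap.id := by
      apply LinearMap.ext; intro w; simp
    rw [h5]
    apply LinearMap.ext; intro w
    rw [dg_apply, LinearMap.id_apply, Finsupp.single_eq_same, LinearMap.id_apply]
  obtain ⟨γ, hγ⟩ : ∃ γ : I → ((ℕ →₀ D) ≃ₗ[D] (ℕ →₀ D)), ∀ i w, γ i w = g (single i w) i :=
    ⟨fun i => LinearEquiv.ofLinearMap _ _ (hgg i) (hgg' i), fun i w => rfl⟩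
  choose β f h hf hh using fun i => countable_case (γ i)
  obtain ⟨b, hb1, hb2⟩ := exists_blockdiag β
  have hbT : Tri (b : (I →₀ (ℕ →₀ D)) →ₗ[D] (I →₀ (ℕ →₀ D))) := by
    intro i w j hij
    rw [LinearEquiv.coe_coe, hb1, Finsupp.single_eq_of_ne (ne_of_gt hij)]
  have hbT' : Tri (b.symm : (I →₀ (ℕ →₀ D)) →ₗ[D] (I →₀ (ℕ →₀ D))) := by
    intro i w j hij
    rw [LinearEquiv.coe_coe, hb2, Finsupp.single_eq_of_ne (ne_of_gt hij)]
  obtain ⟨F, hF⟩ := orbit_basis b hbT hbT' f (fun i x n => by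
    rw [hb1, Finsupp.single_eq_same, hf])
  have hcT : Tri ((b.trans g : (I →₀ (ℕ →₀ D)) ≃ₗ[D] (I →₀ (ℕ →₀ D))) :
    (I →₀ (ℕ →₀ D)) →ₗ[D] (I →₀ (ℕ →₀ D))) := hg.comp hbT
  have hcT' : Tri ((b.trans g : (I →₀ (ℕ →₀ D)) ≃ₗ[D] (I →₀ (ℕ →₀ D))).symm :
    (I →₀ (ℕ →₀ D)) →ₗ[D] (I →₀ (ℕ →₀ D))) := hbT'.comp hg'
  obtain ⟨H, hH⟩ := orbit_basis (b.trans g) hcT hcT' h (fun i x n => by
    rw [LinearEquiv.trans_apply, hb1, ← hγ, hh])
  exact ⟨b, F, H, hF, hH⟩

end Pool.Helper354.GL
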