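import Mathlib
import Pool.Agent.Helper354.GLComb

set_option autoImplicit false

universe u v

namespace Pool.Helper354.GL

open Set Finsupp

variable {D : Type u} [DivisionRing D] {V : Type v} [AddCommGroup V] [Module D V]

lemma general_case_aux (hV : ¬ Module.Finite D V) (g : V ≃ₗ[D] V) :
    ∃ (b : V ≃ₗ[D] V) (κ : Type v) (_ : Infinite κ) (F H : Module.Basis (κ × ℤ) D V),
      (∀ i n, b (F (i, n)) = F (i, n + 1)) ∧ (∀ i n, g (b (H (i, n))) = H (i, n + 1)) := by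
  classical
  obtain ⟨I, i1, i2, e, h1, h2⟩ := exists_triangular hV g
  have hI : Nonempty I := by
    by_contra h
    rw [not_nonempty_iff] at h
    exact hV (Module.Finite.of_basis e)
  let E : V ≃ₗ[D] (I →₀ (ℕ →₀ D)) := e.repr.trans (Finsupp.curryLinearEquiv D)
  have hE : ∀ v i n, E v i n = e.repr v (i, n) := fun v i n => rfl
  have hEs : ∀ i n, E.symm (single i (single n 1)) = e (i, n) := by
    intro i n
    rw [LinearEquiv.symm_apply_eq]
    ext j m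
    rw [hE, Module.Basis.repr_self, Finsupp.single_apply, Finsupp.single_apply]
    by_cases hij : i = j
    · subst hij
      by_cases hnm : n = m
      · subst hnm; simp
      · simp [hnm]
    · simp [hij]
  have htri : ∀ u : V ≃ₗ[D] V, (∀ i n j m, i < j → e.repr (u (e (i,n))) (j,m) = 0) →
      Tri ((E.symm.trans (u.trans E) : (I →₀ (ℕ →₀ D)) ≃ₗ[D] (I →₀ (ℕ →₀ D))) :
        (I →₀ (ℕ →₀ D)) →ₗ[D] (I →₀ (ℕ →₀ D))) := by
    intro u hu i w j hij
    have : (Finsupp.lapply j).comp (((E.symm.trans (u.trans E) : (I →₀ (ℕ →₀ D)) ≃ₗ[D] (I →₀ (ℕ →₀ D))) :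
        (I →₀ (ℕ →₀ D)) →ₗ[D] (I →₀ (ℕ →₀ D))).comp (Finsupp.lsingle i)) =
        (0 : (ℕ →₀ D) →ₗ[D] (ℕ →₀ D)) := by
      apply Finsupp.basisSingleOne.ext
      intro n
      rw [Finsupp.coe_basisSingleOne]
      simp only [LinearMap.comp_apply, Finsupp.lsingle_apply, Finsupp.lapply_apply, LinearMap.zero_apply,
        LinearEquiv.coe_coe, LinearEquiv.trans_apply]
      rw [hEs]
      ext m
      rw [hE]
      exact hu i n j m hij
    exact LinearMap.congr_fun this w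
  obtain ⟨b, F, H, hF, hH⟩ := triangular_case (E.symm.trans (g.trans E)) (htri g h1) (htri g.symm h2)
  let τ : (Σ _ : I, ℕ × ℤ) ≃ (I × ℕ) × ℤ :=
    (Equiv.sigmaEquivProd I (ℕ × ℤ)).trans (Equiv.prodAssoc I ℕ ℤ).symm
  have hτ : ∀ i x n, τ.symm ((i, x), n) = ⟨i, x, n⟩ := fun i x n => rfl
  refine ⟨E.trans (b.trans E.symm), I × ℕ, inferInstance, (F.map E.symm).reindex τ,
    (H.map E.symm).reindex τ, ?_, ?_⟩
  · rintro ⟨i, x⟩ n
    rw [Module.Basis.reindex_apply, Module.Basis.reindex_apply, hτ, hτ, Module.Basis.map_apply,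
      Module.Basis.map_apply, LinearEquiv.trans_apply, LinearEquiv.trans_apply,
      LinearEquiv.apply_symm_apply, hF]
  · rintro ⟨i, x⟩ n
    rw [Module.Basis.reindex_apply, Module.Basis.reindex_apply, hτ, hτ, Module.Basis.map_apply,
      Module.Basis.map_apply, LinearEquiv.trans_apply, LinearEquiv.trans_apply,
      LinearEquiv.apply_symm_apply, ← hH]
    simp only [LinearEquiv.trans_apply, LinearEquiv.symm_apply_apply]

/-- free bilateral shifts of infinite multiplicity -/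
def IsFreeShift (s : V ≃ₗ[D] V) : Prop :=
  ∃ (κ : Type v) (_ : Infinite κ) (F : Module.Basis (κ × ℤ) D V), ∀ i n, s (F (i, n)) = F (i, n + 1)

lemma card_prod_int (κ : Type v) [Infinite κ] : Cardinal.mk (κ × ℤ) = Cardinal.mk κ := by
  rw [Cardinal.mk_prod, Cardinal.mk_int, Cardinal.lift_aleph0, Cardinal.lift_uzero]
  exact Cardinal.mul_eq_left (Cardinal.aleph0_le_mk κ) (Cardinal.aleph0_le_mk κ)
      Cardinal.aleph0_ne_zero

lemma IsFreeShift.conj {s t : V ≃ₗ[D] V} (hs : IsFreeShift s) (ht : IsFreeShift t) : IsConj s t := by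
  obtain ⟨κ, i1, F, hF⟩ := hs
  obtain ⟨κ', i2, F', hF'⟩ := ht
  have h1 : Cardinal.mk κ = Cardinal.mk κ' := by
    rw [← card_prod_int κ, ← card_prod_int κ']
    exact Cardinal.mk_congr (F.indexEquiv F')
  obtain ⟨θ⟩ := Cardinal.eq.1 h1
  let a : V ≃ₗ[D] V := F.equiv F' (θ.prodCongr (Equiv.refl ℤ))
  have ha : ∀ i n, a (F (i, n)) = F' (θ i, n) := by
    intro i n
    show (F.equiv F' (θ.prodCongr (Equiv.refl ℤ))) (F (i, n)) = _
    rw [Module.Basis.equiv_apply]; rfl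
  rw [isConj_iff]
  refine ⟨a, ?_⟩
  rw [mul_inv_eq_iff_eq_mul]
  apply LinearEquiv.toLinearMap_injective
  apply F.ext
  rintro ⟨i, n⟩
  show a (s (F (i, n))) = t (a (F (i, n)))
  rw [hF, ha, ha, hF']

lemma IsFreeShift.inv {s : V ≃ₗ[D] V} (hs : IsFreeShift s) : IsFreeShift s⁻¹ := by
  obtain ⟨κ, i1, F, hF⟩ := hs
  refine ⟨κ, i1, F.reindex (Equiv.prodCongr (Equiv.refl κ) (Equiv.neg ℤ)), fun i n => ?_⟩
  rw [Module.Basis.reindex_apply, Module.Basis.reindex_apply]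
  show s.symm (F (i, -n)) = F (i, -(n+1))
  rw [LinearEquiv.symm_apply_eq, hF]
  congr 2
  ring

theorem general_case (hV : ¬ Module.Finite D V) (g : V ≃ₗ[D] V) :
    ∃ b : V ≃ₗ[D] V, IsFreeShift b ∧ IsFreeShift (g * b) := by
  obtain ⟨b, κ, i1, F, H, h1, h2⟩ := general_case_aux hV g
  exact ⟨b, ⟨κ, i1, F, h1⟩, ⟨κ, i1, H, h2⟩⟩

theorem final (hV : ¬ Module.Finite D V) :
    ∃ s : V ≃ₗ[D] V, IsConj s s⁻¹ ∧
      (∀ g : V ≃ₗ[D] V, ∃ b c : V ≃ₗ[D] V, IsConj s b ∧ IsConj s c ∧ g = b * c) ∧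
      (∀ g : V ≃ₗ[D] V, ∃ a b : V ≃ₗ[D] V, IsConj s b ∧ g = a⁻¹ * b⁻¹ * a * b) := by
  obtain ⟨s, hs, -⟩ := general_case hV (1 : V ≃ₗ[D] V)
  refine ⟨s, hs.conj hs.inv, fun g => ?_, fun g => ?_⟩
  · obtain ⟨b, hb, hgb⟩ := general_case hV g
    exact ⟨g * b, b⁻¹, hs.conj hgb, hs.conj hb.inv, by group⟩
  · obtain ⟨b, hb, hgb⟩ := general_case hV g
    obtain ⟨x, hx⟩ := isConj_iff.1 (hb.conj hgb)
    refine ⟨x⁻¹, b⁻¹, hs.conj hb.inv, ?_⟩
    rw [inv_inv, inv_inv, hx]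
    group

end Pool.Helper354.GL
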