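import Mathlib

set_option autoImplicit false

namespace Pool.Helper354.Perc

open MeasureTheory ProbabilityTheory Set
open scoped ENNReal

/-- the nine sub-boxes -/
def sub (c : ℕ × ℕ) (t : Fin 3 × Fin 3) : ℕ × ℕ := (3 * c.1 + t.1, 3 * c.2 + t.2)

/-- recursive badness of boxes (for a fixed configuration of bad sites) -/
def bd (B : Set (ℕ × ℕ)) : ℕ → ℕ × ℕ → Prop
  | 0, c => c ∈ B
  | k + 1, c => ∃ t t' : Fin 3 × Fin 3, t ≠ t' ∧ bd B k (sub c t) ∧ bd B k (sub c t')

/-- the sites of a box -/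
def reg (k : ℕ) (c : ℕ × ℕ) : Set (ℕ × ℕ) := {v | v.1 / 3 ^ k = c.1 ∧ v.2 / 3 ^ k = c.2}

lemma reg_zero (c : ℕ × ℕ) : reg 0 c = {c} := by
  ext v
  simp [reg, Prod.ext_iff]

lemma reg_sub (k : ℕ) (c : ℕ × ℕ) (t : Fin 3 × Fin 3) : reg k (sub c t) ⊆ reg (k + 1) c := by
  rintro v ⟨h1, h2⟩
  simp only [sub] at h1 h2
  constructor
  · rw [pow_succ, ← Nat.div_div_eq_div_mul, h1]
    have := t.1.2; omega
  · rw [pow_succ, ← Nat.div_div_eq_div_mul, h2]
    have := t.2.2; omega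

lemma reg_disjoint (k : ℕ) {c c' : ℕ × ℕ} (h : c ≠ c') : Disjoint (reg k c) (reg k c') := by
  rw [Set.disjoint_left]
  rintro v ⟨h1, h2⟩ ⟨h3, h4⟩
  exact h (Prod.ext (h1.symm.trans h3) (h2.symm.trans h4))

lemma sub_injective (c : ℕ × ℕ) : Function.Injective (sub c) := by
  rintro ⟨a, b⟩ ⟨a', b'⟩ h
  simp only [sub, Prod.mk.injEq] at h
  ext
  · show (a : ℕ) = a'; omega
  · show (b : ℕ) = b'; omega

variable {Ω : Type*} [mΩ : MeasurableSpace Ω] {μ : Measure Ω} [IsProbabilityMeasure μ]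

/-- the event that a box is bad -/
def bad (B : ℕ × ℕ → Set Ω) (k : ℕ) (c : ℕ × ℕ) : Set Ω := {ω | bd {v | ω ∈ B v} k c}

lemma bad_zero (B : ℕ × ℕ → Set Ω) (c : ℕ × ℕ) : bad B 0 c = B c := rfl

lemma bad_succ (B : ℕ × ℕ → Set Ω) (k : ℕ) (c : ℕ × ℕ) : bad B (k + 1) c =
    ⋃ q : {q : (Fin 3 × Fin 3) × (Fin 3 × Fin 3) // q.1 ≠ q.2},
      bad B k (sub c q.1.1) ∩ bad B k (sub c q.1.2) := by
  ext ω
  simp only [mem_iUnion]
  constructor
  · rintro ⟨t, t', h, h1, h2⟩
    exact ⟨⟨(t, t'), h⟩, h1, h2⟩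
  · rintro ⟨⟨⟨t, t'⟩, h⟩, h1, h2⟩
    exact ⟨t, t', h, h1, h2⟩

lemma bad_meas (B : ℕ × ℕ → Set Ω) (k : ℕ) (c : ℕ × ℕ) :
    MeasurableSet[⨆ v ∈ reg k c, MeasurableSpace.generateFrom {B v}] (bad B k c) := by
  induction k generalizing c with
  | zero =>
    rw [bad_zero]
    have h1 : MeasurableSpace.generateFrom {B c} ≤
        ⨆ v ∈ reg 0 c, MeasurableSpace.generateFrom {B v} :=
      le_iSup₂_of_le c (by rw [reg_zero]; rfl) le_rfl
    exact h1 _ (MeasurableSpace.measurableSet_generateFrom rfl)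
  | succ k ih =>
    rw [bad_succ]
    apply @MeasurableSet.iUnion _ _ (_) 
    intro q
    have h1 : ∀ t, MeasurableSet[⨆ v ∈ reg (k+1) c, MeasurableSpace.generateFrom {B v}]
        (bad B k (sub c t)) := by
      intro t
      have h2 : (⨆ v ∈ reg k (sub c t), MeasurableSpace.generateFrom {B v}) ≤
          ⨆ v ∈ reg (k+1) c, MeasurableSpace.generateFrom {B v} :=
        biSup_mono (fun v hv => reg_sub k c t hv)
      exact h2 _ (ih (sub c t))
    exact @MeasurableSet.inter _ (_) _ _ (h1 _) (h1 _)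

lemma gen_le {B : ℕ × ℕ → Set Ω} (hB : ∀ v, MeasurableSet (B v)) (v : ℕ × ℕ) :
    MeasurableSpace.generateFrom {B v} ≤ mΩ := by
  apply MeasurableSpace.generateFrom_le
  rintro s rfl
  exact hB v

lemma bad_measurable {B : ℕ × ℕ → Set Ω} (hB : ∀ v, MeasurableSet (B v)) (k : ℕ) (c : ℕ × ℕ) :
    MeasurableSet (bad B k c) := by
  have h : (⨆ v ∈ reg k c, MeasurableSpace.generateFrom {B v}) ≤ mΩ :=
    iSup₂_le (fun v _ => gen_le hB v)
  exact h _ (bad_meas B k c)

lemma bad_bound {B : ℕ × ℕ → Set Ω} (hB : ∀ v, MeasurableSet (B v)) (hind : iIndepSet B μ)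
    {ε : ℝ≥0∞} (hε : ∀ v, μ (B v) ≤ ε) (hε' : 162 * ε ≤ 1) (k : ℕ) (c : ℕ × ℕ) :
    μ (bad B k c) ≤ ε * (1 / 2) ^ k := by
  induction k generalizing c with
  | zero => rw [bad_zero, pow_zero, mul_one]; exact hε c
  | succ k ih =>
    rw [bad_succ]
    refine (measure_iUnion_fintype_le μ _).trans ?_
    have h1 : ∀ q : {q : (Fin 3 × Fin 3) × (Fin 3 × Fin 3) // q.1 ≠ q.2},
        μ (bad B k (sub c q.1.1) ∩ bad B k (sub c q.1.2)) ≤ (ε * (1/2)^k) * ε := by
      intro q
      have hne : sub c q.1.1 ≠ sub c q.1.2 := fun h => q.2 (sub_injective c h)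
      have hI := indep_iSup_of_disjoint (fun v => gen_le hB v) hind (reg_disjoint k hne)
      rw [Indep_iff] at hI
      rw [hI _ _ (bad_meas B k _) (bad_meas B k _)]
      refine mul_le_mul' (ih _) ((ih _).trans ?_)
      calc ε * (1/2)^k ≤ ε * 1 := by
            gcongr
            exact pow_le_one' (by simp) k
        _ = ε := mul_one ε
    calc ∑ q : {q : (Fin 3 × Fin 3) × (Fin 3 × Fin 3) // q.1 ≠ q.2},
          μ (bad B k (sub c q.1.1) ∩ bad B k (sub c q.1.2))
        ≤ ∑ q : {q : (Fin 3 × Fin 3) × (Fin 3 × Fin 3) // q.1 ≠ q.2}, (ε * (1/2)^k) * ε :=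
          Finset.sum_le_sum (fun q _ => h1 q)
      _ = (Fintype.card {q : (Fin 3 × Fin 3) × (Fin 3 × Fin 3) // q.1 ≠ q.2} : ℝ≥0∞) *
          ((ε * (1/2)^k) * ε) := by
          rw [Finset.sum_const, nsmul_eq_mul, Finset.card_univ]
      _ ≤ 81 * ((ε * (1/2)^k) * ε) := by
          gcongr
          have h2 : Fintype.card {q : (Fin 3 × Fin 3) × (Fin 3 × Fin 3) // q.1 ≠ q.2} ≤ 81 := by
            refine (Fintype.card_subtype_le _).trans ?_
            simp
          exact_mod_cast h2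
      _ = ε * (1/2)^k * (81 * ε) := by ring
      _ ≤ ε * (1/2)^k * (1/2) := by
          gcongr
          rw [ENNReal.le_div_iff_mul_le (by simp) (by simp)]
          calc 81 * ε * 2 = 162 * ε := by ring
            _ ≤ 1 := hε'
      _ = ε * (1/2)^(k+1) := by rw [pow_succ]; ring

theorem bad_union {B : ℕ × ℕ → Set Ω} (hB : ∀ v, MeasurableSet (B v)) (hind : iIndepSet B μ)
    {ε : ℝ≥0∞} (hε : ∀ v, μ (B v) ≤ ε) (hε' : 162 * ε ≤ 1) :
    μ (⋃ k, bad B k (0, 0)) ≤ 2 * ε := by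
  calc μ (⋃ k, bad B k (0, 0)) ≤ ∑' k, μ (bad B k (0, 0)) := measure_iUnion_le _
    _ ≤ ∑' k, ε * (1/2)^k := ENNReal.tsum_le_tsum (fun k => bad_bound hB hind hε hε' k _)
    _ = ε * ∑' k, (1/2)^k := ENNReal.tsum_mul_left
    _ = ε * 2 := by
        rw [ENNReal.tsum_geometric]
        congr 1
        rw [one_div, ENNReal.one_sub_inv_two, inv_inv]
    _ = 2 * ε := mul_comm _ _

/-! deterministic part -/

/-- the core of a good box -/
def core (B : Set (ℕ × ℕ)) : ℕ → ℕ × ℕ → Set (ℕ × ℕ)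
  | 0, c => {c}
  | k + 1, c => {v | ∃ t : Fin 3 × Fin 3, ¬ bd B k (sub c t) ∧ v ∈ core B k (sub c t)}

lemma core_reg (B : Set (ℕ × ℕ)) (k : ℕ) (c : ℕ × ℕ) : core B k c ⊆ reg k c := by
  induction k generalizing c with
  | zero => rw [reg_zero]; exact subset_rfl
  | succ k ih =>
    rintro v ⟨t, -, hv⟩
    exact reg_sub k c t (ih _ hv)

lemma good_sub {B : Set (ℕ × ℕ)} {k : ℕ} {c : ℕ × ℕ} (h : ¬ bd B (k+1) c) (t t' : Fin 3 × Fin 3)
    (hne : t ≠ t') : ¬ bd B k (sub c t) ∨ ¬ bd B k (sub c t') := by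
  by_contra hcon
  push Not at hcon
  exact h ⟨t, t', hne, hcon.1, hcon.2⟩

lemma core_nonempty {B : Set (ℕ × ℕ)} (k : ℕ) (c : ℕ × ℕ) (h : ¬ bd B k c) : (core B k c).Nonempty := by
  induction k generalizing c with
  | zero => exact ⟨c, rfl⟩
  | succ k ih =>
    rcases good_sub h (0, 0) (0, 1) (by simp) with h1 | h1
    · obtain ⟨v, hv⟩ := ih _ h1
      exact ⟨v, _, h1, hv⟩
    · obtain ⟨v, hv⟩ := ih _ h1
      exact ⟨v, _, h1, hv⟩

/-- any two elements of the two sets are related -/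
def Lk (r : ℕ × ℕ → ℕ × ℕ → Prop) (S T : Set (ℕ × ℕ)) : Prop := ∀ x ∈ S, ∀ y ∈ T, r x y

lemma Lk.symm {r : ℕ × ℕ → ℕ × ℕ → Prop} (hr : Equivalence r) {S T : Set (ℕ × ℕ)} (h : Lk r S T) :
    Lk r T S := fun x hx y hy => hr.symm (h y hy x hx)

lemma Lk.trans {r : ℕ × ℕ → ℕ × ℕ → Prop} (hr : Equivalence r) {S T U : Set (ℕ × ℕ)}
    (h : Lk r S T) (h' : Lk r T U) (hT : T.Nonempty) : Lk r S U := by
  obtain ⟨z, hz⟩ := hT
  exact fun x hx y hy => hr.trans (h x hx z hz) (h' z hz y hy)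

/-- a 3 by 3 grid minus at most one cell is connected -/
lemma grid (g : Fin 3 × Fin 3 → Prop) (R : Fin 3 × Fin 3 → Fin 3 × Fin 3 → Prop)
    (hone : ∀ t t', t ≠ t' → g t ∨ g t')
    (hrefl : ∀ t, g t → R t t)
    (hsymm : ∀ t t', g t → g t' → R t t' → R t' t)
    (htrans : ∀ t t' t'', g t → g t' → g t'' → R t t' → R t' t'' → R t t'')
    (hh : ∀ t t' : Fin 3 × Fin 3, g t → g t' → (t'.1 : ℕ) = t.1 + 1 → t'.2 = t.2 → R t t')
    (hv : ∀ t t' : Fin 3 × Fin 3, g t → g t' → (t'.2 : ℕ) = t.2 + 1 → t'.1 = t.1 → R t t')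
    (t t' : Fin 3 × Fin 3) (ht : g t) (ht' : g t') : R t t' := by
  -- a missing cell
  obtain ⟨m, hm⟩ : ∃ m : Fin 3 × Fin 3, ∀ t, t ≠ m → g t := by
    by_cases h : ∃ m, ¬ g m
    · obtain ⟨m, hm⟩ := h
      exact ⟨m, fun t h => (hone m t h.symm).resolve_left hm⟩
    · push Not at h
      exact ⟨(0,0), fun t _ => h t⟩
  -- full rows and columns
  have row : ∀ j : Fin 3, (∀ i, g (i, j)) → ∀ i i', R (i, j) (i', j) := by
    intro j hj
    have h01 : R (0, j) (1, j) := hh _ _ (hj _) (hj _) rfl rfl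
    have h12 : R (1, j) (2, j) := hh _ _ (hj _) (hj _) rfl rfl
    have h02 : R (0, j) (2, j) := htrans _ _ _ (hj _) (hj _) (hj _) h01 h12
    intro i i'
    fin_cases i <;> fin_cases i' <;>
    first
      | exact hrefl _ (hj _)
      | exact h01
      | exact h12
      | exact h02
      | exact hsymm _ _ (hj _) (hj _) h01
      | exact hsymm _ _ (hj _) (hj _) h12
      | exact hsymm _ _ (hj _) (hj _) h02
  have col : ∀ i : Fin 3, (∀ j, g (i, j)) → ∀ j j', R (i, j) (i, j') := by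
    intro i hi
    have h01 : R (i, 0) (i, 1) := hv _ _ (hi _) (hi _) rfl rfl
    have h12 : R (i, 1) (i, 2) := hv _ _ (hi _) (hi _) rfl rfl
    have h02 : R (i, 0) (i, 2) := htrans _ _ _ (hi _) (hi _) (hi _) h01 h12
    intro j j'
    fin_cases j <;> fin_cases j' <;>
    first
      | exact hrefl _ (hi _)
      | exact h01
      | exact h12
      | exact h02
      | exact hsymm _ _ (hi _) (hi _) h01
      | exact hsymm _ _ (hi _) (hi _) h12
      | exact hsymm _ _ (hi _) (hi _) h02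
  have hrow : ∀ j : Fin 3, j ≠ m.2 → ∀ i, g (i, j) := fun j hj i => hm _ (fun h => hj (by rw [← h]))
  have hcol : ∀ i : Fin 3, i ≠ m.1 → ∀ j, g (i, j) := fun i hi j => hm _ (fun h => hi (by rw [← h]))
  obtain ⟨i1, hi1⟩ : ∃ i1 : Fin 3, i1 ≠ m.1 := exists_ne _
  obtain ⟨j1, hj1⟩ : ∃ j1 : Fin 3, j1 ≠ m.2 := exists_ne _
  -- every good cell is related to `(i1, j1)`
  have key : ∀ t, g t → R t (i1, j1) := by
    rintro ⟨i, j⟩ hg
    by_cases hi : i = m.1
    · by_cases hj : j = m.2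
      · -- the cell is `m` itself, so everything is good
        have hall : ∀ t, g t := by
          intro t
          by_cases h : t = m
          · rw [h]
            have : m = (i, j) := by rw [hi, hj]
            rw [this]; exact hg
          · exact hm t h
        exact htrans _ (i, j1) _ hg (hall _) (hall _) (col i (fun j => hall _) j j1)
          (row j1 (fun i => hall _) i i1)
      · exact htrans _ (i1, j) _ hg (hrow j hj i1) (hrow j1 hj1 i1) (row j (hrow j hj) i i1)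
          (col i1 (hcol i1 hi1) j j1)
    · exact htrans _ (i, j1) _ hg (hcol i hi j1) (hrow j1 hj1 i1) (col i (hcol i hi) j j1)
        (row j1 (hrow j1 hj1) i i1)
  exact htrans _ _ _ ht (hrow j1 hj1 i1) ht' (key t ht)
    (hsymm _ _ ht' (hrow j1 hj1 i1) (key t' ht'))

/-- adjacent good boxes are linked, good boxes are internally linked -/
theorem linked {B : Set (ℕ × ℕ)} {r : ℕ × ℕ → ℕ × ℕ → Prop} (hr : Equivalence r)
    (h1 : ∀ v, v ∉ B → r v (v.1 + 1, v.2)) (h2 : ∀ v, v ∉ B → r v (v.1, v.2 + 1)) (k : ℕ) :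
    (∀ c, ¬ bd B k c → Lk r (core B k c) (core B k c)) ∧
    (∀ c, ¬ bd B k c → ¬ bd B k (c.1 + 1, c.2) → Lk r (core B k c) (core B k (c.1 + 1, c.2))) ∧
    (∀ c, ¬ bd B k c → ¬ bd B k (c.1, c.2 + 1) → Lk r (core B k c) (core B k (c.1, c.2 + 1))) := by
  induction k with
  | zero =>
    refine ⟨?_, ?_, ?_⟩
    · rintro c _ x rfl y rfl
      exact hr.refl _
    · rintro c hc _ x rfl y rfl
      exact h1 _ hc
    · rintro c hc _ x rfl y rfl
      exact h2 _ hc
  | succ k ih =>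
    obtain ⟨ih0, ih1, ih2⟩ := ih
    have hin : ∀ c, ¬ bd B (k+1) c → Lk r (core B (k+1) c) (core B (k+1) c) := by
      intro c hc x hx y hy
      obtain ⟨t, ht, hxt⟩ := hx
      obtain ⟨t', ht', hyt⟩ := hy
      have := grid (fun t => ¬ bd B k (sub c t))
        (fun t t' => Lk r (core B k (sub c t)) (core B k (sub c t')))
        (fun t t' hne => good_sub hc t t' hne)
        (fun t ht => ih0 _ ht)
        (fun t t' _ _ h => h.symm hr)
        (fun t t' t'' _ ht' _ h h' => h.trans hr h' (core_nonempty k _ ht'))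
        (fun t t' ht ht' e1 e2 => by
          have e : sub c t' = ((sub c t).1 + 1, (sub c t).2) := by
            simp only [sub, e1, e2, Prod.mk.injEq, and_true]
            ring
          rw [e] at ht' ⊢
          exact ih1 _ ht ht')
        (fun t t' ht ht' e1 e2 => by
          have e : sub c t' = ((sub c t).1, (sub c t).2 + 1) := by
            simp only [sub, e1, e2, Prod.mk.injEq, true_and]
            ring
          rw [e] at ht' ⊢
          exact ih2 _ ht ht')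
        t t' ht ht'
      exact this x hxt y hyt
    refine ⟨hin, ?_, ?_⟩
    · intro c hc hc' x hx y hy
      -- a good pair along the common side
      obtain ⟨j, hj1, hj2⟩ : ∃ j : Fin 3, ¬ bd B k (sub c (2, j)) ∧ ¬ bd B k (sub (c.1+1, c.2) (0, j)) := by
        by_contra hcon
        push Not at hcon
        have a01 := good_sub hc (2, 0) (2, 1) (by simp)
        have a02 := good_sub hc (2, 0) (2, 2) (by simp)
        have a12 := good_sub hc (2, 1) (2, 2) (by simp)
        have b01 := good_sub hc' (0, 0) (0, 1) (by simp)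
        have b02 := good_sub hc' (0, 0) (0, 2) (by simp)
        have b12 := good_sub hc' (0, 1) (0, 2) (by simp)
        have c0 := hcon 0
        have c1 := hcon 1
        have c2 := hcon 2
        tauto
      have e : sub (c.1+1, c.2) (0, j) = ((sub c (2, j)).1 + 1, (sub c (2, j)).2) := by
        simp only [sub, Prod.mk.injEq, and_true]
        show 3 * (c.1 + 1) + 0 = 3 * c.1 + 2 + 1
        ring
      obtain ⟨z, hz⟩ := core_nonempty k _ hj1
      obtain ⟨z', hz'⟩ := core_nonempty k _ hj2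
      have hz1 : z ∈ core B (k+1) c := ⟨_, hj1, hz⟩
      have hz2 : z' ∈ core B (k+1) (c.1+1, c.2) := ⟨_, hj2, hz'⟩
      have hzz : r z z' := by
        rw [e] at hj2 hz'
        exact ih1 _ hj1 hj2 z hz z' hz'
      exact hr.trans (hin c hc x hx z hz1) (hr.trans hzz (hin _ hc' z' hz2 y hy))
    · intro c hc hc' x hx y hy
      obtain ⟨j, hj1, hj2⟩ : ∃ j : Fin 3, ¬ bd B k (sub c (j, 2)) ∧ ¬ bd B k (sub (c.1, c.2+1) (j, 0)) := by
        by_contra hcon
        push Not at hcon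
        have a01 := good_sub hc (0, 2) (1, 2) (by simp)
        have a02 := good_sub hc (0, 2) (2, 2) (by simp)
        have a12 := good_sub hc (1, 2) (2, 2) (by simp)
        have b01 := good_sub hc' (0, 0) (1, 0) (by simp)
        have b02 := good_sub hc' (0, 0) (2, 0) (by simp)
        have b12 := good_sub hc' (1, 0) (2, 0) (by simp)
        have c0 := hcon 0
        have c1 := hcon 1
        have c2 := hcon 2
        tauto
      have e : sub (c.1, c.2+1) (j, 0) = ((sub c (j, 2)).1, (sub c (j, 2)).2 + 1) := by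
        simp only [sub, Prod.mk.injEq, true_and]
        show 3 * (c.2 + 1) + 0 = 3 * c.2 + 2 + 1
        ring
      obtain ⟨z, hz⟩ := core_nonempty k _ hj1
      obtain ⟨z', hz'⟩ := core_nonempty k _ hj2
      have hz1 : z ∈ core B (k+1) c := ⟨_, hj1, hz⟩
      have hz2 : z' ∈ core B (k+1) (c.1, c.2+1) := ⟨_, hj2, hz'⟩
      have hzz : r z z' := by
        rw [e] at hj2 hz'
        exact ih2 _ hj1 hj2 z hz z' hz'
      exact hr.trans (hin c hc x hx z hz1) (hr.trans hzz (hin _ hc' z' hz2 y hy))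

/-- if all the boxes at the corner are good, there is an infinite class -/
theorem infinite_class {B : Set (ℕ × ℕ)} {r : ℕ × ℕ → ℕ × ℕ → Prop} (hr : Equivalence r)
    (h1 : ∀ v, v ∉ B → r v (v.1 + 1, v.2)) (h2 : ∀ v, v ∉ B → r v (v.1, v.2 + 1))
    (hgood : ∀ k, ¬ bd B k (0, 0)) : ∃ v, {w | r v w}.Infinite := by
  have hsub0 : sub (0,0) (0,0) = (0,0) := rfl
  have hmono : ∀ k, core B k (0,0) ⊆ core B (k+1) (0,0) := by
    intro k x hx
    exact ⟨(0,0), by rw [hsub0]; exact hgood k, by rw [hsub0]; exact hx⟩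
  have hmono' : Monotone (fun k => core B k (0,0)) := monotone_nat_of_le_succ hmono
  refine ⟨(0,0), ?_⟩
  have hall : ∀ k, ∀ x ∈ core B k (0,0), r (0,0) x := by
    intro k x hx
    have h0 : ((0,0) : ℕ × ℕ) ∈ core B k (0,0) := hmono' (Nat.zero_le k) rfl
    exact (linked hr h1 h2 k).1 _ (hgood k) _ h0 _ hx
  -- unboundedness
  have hunb : ∀ k, ∃ x, r (0,0) x ∧ 3 ^ k ≤ x.1 + x.2 := by
    intro k
    have hg := hgood (k+1)
    rcases good_sub hg (0, 1) (1, 0) (by simp) with h | h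
    · obtain ⟨x, hx⟩ := core_nonempty k _ h
      refine ⟨x, hall (k+1) x ⟨_, h, hx⟩, ?_⟩
      have h3 := (core_reg B k _ hx).2
      have h4 : (sub (0,0) (0,1)).2 = 1 := rfl
      rw [h4] at h3
      have := Nat.div_mul_le_self x.2 (3^k)
      rw [h3] at this
      omega
    · obtain ⟨x, hx⟩ := core_nonempty k _ h
      refine ⟨x, hall (k+1) x ⟨_, h, hx⟩, ?_⟩
      have h3 := (core_reg B k _ hx).1
      have h4 : (sub (0,0) (1,0)).1 = 1 := rfl
      rw [h4] at h3
      have := Nat.div_mul_le_self x.1 (3^k)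
      rw [h3] at this
      omega
  intro hfin
  obtain ⟨M, hM⟩ := (hfin.image (fun x : ℕ × ℕ => x.1 + x.2)).bddAbove
  obtain ⟨x, hx1, hx2⟩ := hunb (M + 1)
  have h5 : x.1 + x.2 ≤ M := hM ⟨x, hx1, rfl⟩
  have h6 : M + 1 < 3 ^ (M + 1) := Nat.lt_pow_self (by norm_num)
  omega

end Pool.Helper354.Perc
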