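import Mathlib

set_option autoImplicit false

namespace Pool.Helper354.Perc

open MeasureTheory ProbabilityTheory Set
open scoped ENNReal NNReal

variable {X : Type*}

/-- Bernoulli product measure on the configurations `X → Bool`. -/
noncomputable def bern (X : Type*) (p : ℝ≥0) (hp : p ≤ 1) : Measure (X → Bool) :=
  Measure.infinitePi (fun _ : X => (PMF.bernoulli p hp).toMeasure)

instance (p : ℝ≥0) (hp : p ≤ 1) : IsProbabilityMeasure (bern X p hp) := by
  unfold bern; infer_instance

/-- the σ-algebra of one coordinate -/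
def co (x : X) : MeasurableSpace (X → Bool) := MeasurableSpace.comap (fun ω : X → Bool => ω x) ⊤

lemma co_le (x : X) : co x ≤ (inferInstance : MeasurableSpace (X → Bool)) := by
  rintro _ ⟨s, -, rfl⟩
  exact (measurable_pi_apply x) (MeasurableSet.of_discrete)

lemma co_indep (p : ℝ≥0) (hp : p ≤ 1) : iIndep (fun x : X => co x) (bern X p hp) := by
  have h := iIndepFun_infinitePi (ι := X) (Ω := fun _ => Bool) (𝓧 := fun _ => Bool)
    (P := fun _ : X => (PMF.bernoulli p hp).toMeasure)
    (X := fun _ b => b) (fun _ => measurable_id)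
  rw [iIndepFun_iff_iIndep] at h
  exact h

/-- the σ-algebra generated by the coordinates of `S` -/
def cos (S : Set X) : MeasurableSpace (X → Bool) := ⨆ x ∈ S, co x

lemma cos_le (S : Set X) : cos S ≤ (inferInstance : MeasurableSpace (X → Bool)) :=
  iSup₂_le (fun x _ => co_le x)

lemma cos_mono {S T : Set X} (h : S ⊆ T) : cos S ≤ cos T := biSup_mono (fun _ hx => h hx)

lemma meas_coord {S : Set X} {x : X} (hx : x ∈ S) (b : Bool) :
    MeasurableSet[cos S] {ω : X → Bool | ω x = b} := by
  have h1 : co x ≤ cos S := le_iSup₂_of_le x hx le_rfl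
  exact h1 _ ⟨{b}, MeasurableSpace.measurableSet_top, rfl⟩

lemma cos_indep (p : ℝ≥0) (hp : p ≤ 1) {S T : Set X} (h : Disjoint S T) {A B : Set (X → Bool)}
    (hA : MeasurableSet[cos S] A) (hB : MeasurableSet[cos T] B) :
    bern X p hp (A ∩ B) = bern X p hp A * bern X p hp B := by
  have := indep_iSup_of_disjoint (fun x => co_le x) (co_indep p hp) h
  rw [Indep_iff] at this
  exact this A B hA hB

lemma iIndepSet_of_disjoint (p : ℝ≥0) (hp : p ≤ 1) {α : Type*} (E : α → Set X)
    (hE : ∀ a b, a ≠ b → Disjoint (E a) (E b)) (B : α → Set (X → Bool))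
    (hB : ∀ a, MeasurableSet[cos (E a)] (B a)) : iIndepSet B (bern X p hp) := by
  classical
  rw [iIndepSet_iff_meas_biInter (fun a => cos_le _ _ (hB a))]
  intro s
  induction s using Finset.induction_on with
  | empty => simp
  | insert a s ha ih =>
    rw [Finset.set_biInter_insert, Finset.prod_insert ha, ← ih]
    refine cos_indep p hp (S := E a) (T := ⋃ b ∈ s, E b) ?_ (hB a) ?_
    · rw [Set.disjoint_iUnion₂_right]
      intro b hb
      exact hE a b (fun h => ha (h ▸ hb))
    · refine @Finset.measurableSet_biInter _ _ (_) _ _ (fun b hb => ?_)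
      exact cos_mono (subset_biUnion_of_mem (u := fun b => E b) hb) _ (hB b)

lemma bern_all (p : ℝ≥0) (hp : p ≤ 1) (s : Finset X) :
    bern X p hp {ω | ∀ x ∈ s, ω x = true} = (p : ℝ≥0∞) ^ s.card := by
  have h1 : {ω : X → Bool | ∀ x ∈ s, ω x = true} = Set.pi s (fun _ => {true}) := by
    ext ω; simp [Set.mem_pi]
  rw [h1]
  unfold bern
  rw [Measure.infinitePi_pi _ (fun _ _ => MeasurableSet.of_discrete)]
  simp only [PMF.toMeasure_apply_singleton _ _ (measurableSet_singleton _)]
  simp [PMF.bernoulli_apply]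

end Pool.Helper354.Perc
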