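import Mathlib
import Pool.Agent.Helper354.PercBox
import Pool.Agent.Helper354.PercMeas

set_option autoImplicit false
set_option linter.unusedSectionVars false

namespace Pool.Helper354.Perc

open MeasureTheory ProbabilityTheory Set
open scoped ENNReal NNReal

/-- vertices: lattice points with a hub (`none`) and `n` leaves -/
abbrev Vt (n : ℕ) : Type := (ℤ × ℤ) × Option (Fin n)

/-- nearest neighbours -/
def NN (v w : ℤ × ℤ) : Prop := |v.1 - w.1| + |v.2 - w.2| = 1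

/-- fast pairs -/
def Fast (v w : ℤ × ℤ) : Prop :=
  (0 ≤ v.1 ∧ 0 ≤ v.2 ∧ (w = (v.1 + 1, v.2) ∨ w = (v.1, v.2 + 1))) ∨
  (v.1 < 0 ∧ v.2 < 0 ∧ (w = (v.1 - 1, v.2) ∨ w = (v.1, v.2 - 1)))

def Nb (v w : ℤ × ℤ) : Prop := w = v ∨ Fast v w

lemma NN.symm {v w : ℤ × ℤ} (h : NN v w) : NN w v := by
  unfold NN at *; rw [abs_sub_comm w.1, abs_sub_comm w.2]; exact h

/-- the graph -/
def gr (n : ℕ) : SimpleGraph (Vt n) where
  Adj a b := (a.2 = none ∧ b.2 = none ∧ NN a.1 b.1) ∨ (a.2 ≠ none ∧ b.2 = none ∧ Nb a.1 b.1) ∨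
    (a.2 = none ∧ b.2 ≠ none ∧ Nb b.1 a.1)
  symm := ⟨by
    rintro a b (⟨h1, h2, h3⟩ | ⟨h1, h2, h3⟩ | ⟨h1, h2, h3⟩)
    · exact Or.inl ⟨h2, h1, h3.symm⟩
    · exact Or.inr (Or.inr ⟨h2, h1, h3⟩)
    · exact Or.inr (Or.inl ⟨h2, h1, h3⟩)⟩
  loopless := ⟨by
    rintro a (⟨h1, h2, h3⟩ | ⟨h1, h2, h3⟩ | ⟨h1, h2, h3⟩)
    · unfold NN at h3; simp at h3
    · exact h1 h2
    · exact h2 h1⟩

variable {n : ℕ}

lemma adj_hub {v w : ℤ × ℤ} (h : NN v w) : (gr n).Adj (v, none) (w, none) := Or.inl ⟨rfl, rfl, h⟩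

lemma adj_leaf {v w : ℤ × ℤ} (h : Nb v w) (i : Fin n) : (gr n).Adj (v, some i) (w, none) :=
  Or.inr (Or.inl ⟨by simp, rfl, h⟩)

lemma not_adj_leaf (v w : ℤ × ℤ) (i j : Fin n) : ¬ (gr n).Adj (v, some i) (w, some j) := by
  rintro (⟨h1, h2, h3⟩ | ⟨h1, h2, h3⟩ | ⟨h1, h2, h3⟩)
  · simp at h1
  · simp at h2
  · simp at h1

/-! ### geometry of the graph -/

/-- l1 distance -/
def l1 (v w : ℤ × ℤ) : ℤ := |v.1 - w.1| + |v.2 - w.2|

lemma l1_step {a b : Vt n} (h : (gr n).Adj a b) : l1 a.1 b.1 ≤ 1 := by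
  rcases h with (⟨h1, h2, h3⟩ | ⟨h1, h2, h3⟩ | ⟨h1, h2, h3⟩)
  · exact h3.le
  · rcases h3 with h3 | ⟨-, -, h3 | h3⟩ | ⟨-, -, h3 | h3⟩ <;> rw [h3] <;> simp [l1]
  · rcases h3 with h3 | ⟨-, -, h3 | h3⟩ | ⟨-, -, h3 | h3⟩ <;> rw [h3] <;> simp [l1]

lemma l1_triangle (u v w : ℤ × ℤ) : l1 u w ≤ l1 u v + l1 v w := by
  unfold l1
  have h1 := abs_sub_le u.1 v.1 w.1
  have h2 := abs_sub_le u.2 v.2 w.2
  omega

lemma l1_walk {a b : Vt n} (p : (gr n).Walk a b) : l1 a.1 b.1 ≤ p.length := by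
  induction p with
  | nil => simp [l1]
  | cons h p ih =>
    rw [SimpleGraph.Walk.length_cons]
    have h1 := l1_step h
    have h2 := l1_triangle _ _ _ |>.trans (add_le_add h1 ih)
    push_cast
    linarith

lemma hub_walk (k : ℕ) : ∀ v w : ℤ × ℤ, l1 v w = k →
    ∃ p : (gr n).Walk (v, none) (w, none), p.length = k := by
  induction k with
  | zero =>
    intro v w h
    unfold l1 at h
    have h1 := abs_nonneg (v.1 - w.1)
    have h2 := abs_nonneg (v.2 - w.2)
    have h3 : v.1 - w.1 = 0 := abs_eq_zero.1 (by omega)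
    have h4 : v.2 - w.2 = 0 := abs_eq_zero.1 (by omega)
    have : v = w := Prod.ext (by omega) (by omega)
    subst this
    exact ⟨SimpleGraph.Walk.nil, rfl⟩
  | succ k ih =>
    intro v w h
    obtain ⟨v', h1, h2⟩ : ∃ v', NN v v' ∧ l1 v' w = k := by
      unfold l1 at h
      rcases lt_trichotomy v.1 w.1 with hc | hc | hc
      · refine ⟨(v.1 + 1, v.2), by simp [NN], ?_⟩
        unfold l1
        rw [abs_of_nonpos (by omega : v.1 - w.1 ≤ 0)] at h
        rw [abs_of_nonpos (by show v.1 + 1 - w.1 ≤ 0; omega)]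
        show -(v.1 + 1 - w.1) + |v.2 - w.2| = k
        push_cast at h; linarith
      · rcases lt_trichotomy v.2 w.2 with hd | hd | hd
        · refine ⟨(v.1, v.2 + 1), by simp [NN], ?_⟩
          unfold l1
          rw [abs_of_nonpos (by omega : v.2 - w.2 ≤ 0)] at h
          rw [abs_of_nonpos (a := (v.1, v.2 + 1).2 - w.2) (by show v.2 + 1 - w.2 ≤ 0; omega)]
          show |v.1 - w.1| + -(v.2 + 1 - w.2) = k
          push_cast at h; linarith
        · exfalso
          rw [hc, hd, sub_self, sub_self, abs_zero] at h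
          push_cast at h; omega
        · refine ⟨(v.1, v.2 - 1), by simp [NN], ?_⟩
          unfold l1
          rw [abs_of_nonneg (by omega : 0 ≤ v.2 - w.2)] at h
          rw [abs_of_nonneg (a := (v.1, v.2 - 1).2 - w.2) (by show 0 ≤ v.2 - 1 - w.2; omega)]
          show |v.1 - w.1| + (v.2 - 1 - w.2) = k
          push_cast at h; linarith
      · refine ⟨(v.1 - 1, v.2), by simp [NN], ?_⟩
        unfold l1
        rw [abs_of_nonneg (by omega : 0 ≤ v.1 - w.1)] at h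
        rw [abs_of_nonneg (by show 0 ≤ v.1 - 1 - w.1; omega)]
        show (v.1 - 1 - w.1) + |v.2 - w.2| = k
        push_cast at h; linarith
    obtain ⟨p, hp⟩ := ih v' w h2
    exact ⟨SimpleGraph.Walk.cons (adj_hub h1) p, by rw [SimpleGraph.Walk.length_cons, hp]⟩

lemma l1_nonneg (v w : ℤ × ℤ) : 0 ≤ l1 v w := by unfold l1; positivity

lemma to_hub (a : Vt n) : ∃ p : (gr n).Walk a (a.1, none), p.length ≤ 1 := by
  obtain ⟨v, o⟩ := a
  cases o with
  | none => exact ⟨SimpleGraph.Walk.nil, by simp⟩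
  | some i => exact ⟨SimpleGraph.Walk.cons (adj_leaf (Or.inl rfl) i) SimpleGraph.Walk.nil, by simp⟩

lemma short_walk (a b : Vt n) : ∃ p : (gr n).Walk a b, (p.length : ℤ) ≤ l1 a.1 b.1 + 2 := by
  obtain ⟨p, hp⟩ := to_hub a
  obtain ⟨q, hq⟩ := to_hub b
  obtain ⟨r, hr⟩ := hub_walk (n := n) (l1 a.1 b.1).toNat a.1 b.1 (by
    rw [Int.toNat_of_nonneg (l1_nonneg _ _)])
  refine ⟨p.append (r.append q.reverse), ?_⟩
  rw [SimpleGraph.Walk.length_append, SimpleGraph.Walk.length_append,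
    SimpleGraph.Walk.length_reverse, hr]
  have := l1_nonneg a.1 b.1
  push_cast
  rw [Int.toNat_of_nonneg this]
  omega

lemma gr_connected : (gr n).Connected := by
  rw [SimpleGraph.connected_iff]
  exact ⟨fun a b => by obtain ⟨p, -⟩ := short_walk a b; exact ⟨p⟩, ⟨((0, 0), none)⟩⟩

lemma gr_degree : ∃ D : ℕ, ∀ a : Vt n, ((gr n).neighborSet a).encard ≤ (D : ℕ∞) := by
  refine ⟨9 * (n + 1), fun a => ?_⟩
  let T : Finset (Vt n) := ((Finset.Icc (a.1.1 - 1) (a.1.1 + 1)) ×ˢ (Finset.Icc (a.1.2 - 1) (a.1.2 + 1))) ×ˢ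
    (Finset.univ : Finset (Option (Fin n)))
  have hsub : (gr n).neighborSet a ⊆ (T : Set (Vt n)) := by
    intro b hb
    have h1 : l1 a.1 b.1 ≤ 1 := l1_step hb
    unfold l1 at h1
    have h2 := abs_nonneg (a.1.1 - b.1.1)
    have h3 := abs_nonneg (a.1.2 - b.1.2)
    have h4 := abs_le.1 (show |a.1.1 - b.1.1| ≤ 1 by omega)
    have h5 := abs_le.1 (show |a.1.2 - b.1.2| ≤ 1 by omega)
    simp only [T, Finset.coe_product, Set.mem_prod, Finset.coe_Icc, Set.mem_Icc, Finset.coe_univ,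
      Set.mem_univ, and_true]
    omega
  calc ((gr n).neighborSet a).encard ≤ (T : Set (Vt n)).encard := Set.encard_le_encard hsub
    _ = T.card := Set.encard_coe_eq_coe_finsetCard T
    _ ≤ (9 * (n + 1) : ℕ) := by
      have : T.card = 9 * (n + 1) := by
        simp only [T, Finset.card_product, Int.card_Icc, Finset.card_univ, Fintype.card_option,
          Fintype.card_fin]
        have e1 : (a.1.1 + 1 + 1 - (a.1.1 - 1)).toNat = 3 := by omega
        have e2 : (a.1.2 + 1 + 1 - (a.1.2 - 1)).toNat = 3 := by omega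
        rw [e1, e2]
      exact_mod_cast this.le

/-- the rough isometry -/
def proj (a : Vt n) : Fin 2 → ℤ := ![a.1.1, a.1.2]

lemma gr_rough : ∃ (f : Vt n → (Fin 2 → ℤ)) (C K : ℕ),
    (∀ x y : Vt n, (∑ i, |f x i - f y i|) ≤ (C : ℤ) * ((gr n).dist x y : ℤ) + (K : ℤ) ∧
      ((gr n).dist x y : ℤ) ≤ (C : ℤ) * (∑ i, |f x i - f y i|) + (K : ℤ)) ∧
    ∀ z : Fin 2 → ℤ, ∃ x : Vt n, (∑ i, |z i - f x i|) ≤ (K : ℤ) := by
  refine ⟨proj, 1, 2, fun x y => ?_, fun z => ⟨((z 0, z 1), none), ?_⟩⟩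
  · have hs : (∑ i, |proj x i - proj y i|) = l1 x.1 y.1 := by
      rw [Fin.sum_univ_two]; rfl
    rw [hs]
    constructor
    · obtain ⟨p, hp⟩ := (gr_connected (n := n)).exists_walk_length_eq_dist x y
      have := l1_walk p
      rw [hp] at this
      push_cast; linarith
    · obtain ⟨p, hp⟩ := short_walk x y
      have := SimpleGraph.dist_le p
      push_cast
      have h2 : ((gr n).dist x y : ℤ) ≤ p.length := by exact_mod_cast this
      linarith
  · rw [Fin.sum_univ_two]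
    simp [proj]

/-! ### percolation configurations -/

/-- configurations -/
abbrev Cf (n : ℕ) : Type := (gr n).edgeSet → Bool

/-- the graph of the open edges -/
def og (ω : Cf n) : SimpleGraph (Vt n) :=
  SimpleGraph.fromEdgeSet {e : Sym2 (Vt n) | ∃ h : e ∈ (gr n).edgeSet, ω ⟨e, h⟩ = true}

lemma og_adj (ω : Cf n) (a b : Vt n) :
    (og ω).Adj a b ↔ ∃ h : (gr n).Adj a b, ω ⟨s(a, b), h⟩ = true := by
  unfold og
  rw [SimpleGraph.fromEdgeSet_adj]
  constructor
  · rintro ⟨⟨h, h'⟩, -⟩; exact ⟨h, h'⟩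
  · rintro ⟨h, h'⟩; exact ⟨⟨h, h'⟩, h.ne⟩

/-- embeddings of the quadrant -/
def io (s : Bool) (v : ℕ × ℕ) : ℤ × ℤ := if s then ((v.1 : ℤ), (v.2 : ℤ)) else (-1 - (v.1 : ℤ), -1 - (v.2 : ℤ))

lemma io_inj (s : Bool) : Function.Injective (io s) := by
  rintro ⟨a, b⟩ ⟨c, d⟩ h
  cases s
  · simp only [io, Bool.false_eq_true, if_false, Prod.mk.injEq] at h
    ext
    · show a = c; omega
    · show b = d; omega
  · simp only [io, if_true, Prod.mk.injEq] at h
    ext
    · show a = c; omega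
    · show b = d; omega

/-- steps of the quadrant -/
def stp (δ : Bool) (v : ℕ × ℕ) : ℕ × ℕ := if δ then (v.1 + 1, v.2) else (v.1, v.2 + 1)

lemma fast_io (s δ : Bool) (v : ℕ × ℕ) : Fast (io s v) (io s (stp δ v)) := by
  cases s
  · right
    refine ⟨by simp only [io]; simp; omega, by simp only [io]; simp; omega, ?_⟩
    cases δ
    · right; simp only [io, stp]; simp; ring
    · left; simp only [io, stp]; simp; ring
  · left
    refine ⟨by simp [io], by simp [io], ?_⟩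
    cases δ
    · right; simp [io, stp]
    · left; simp [io, stp]

lemma io_ne (s δ : Bool) (v : ℕ × ℕ) : io s (stp δ v) ≠ io s v := by
  intro h
  have := io_inj s h
  cases δ
  · simp [stp, Prod.ext_iff] at this
  · simp [stp, Prod.ext_iff] at this

/-- the two edges of a two-path through a leaf -/
def E1 (s : Bool) (v : ℕ × ℕ) (i : Fin n) : (gr n).edgeSet :=
  ⟨s((io s v, some i), (io s v, none)), adj_leaf (Or.inl rfl) i⟩

def E2 (s : Bool) (v : ℕ × ℕ) (δ : Bool) (i : Fin n) : (gr n).edgeSet :=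
  ⟨s((io s v, some i), (io s (stp δ v), none)), adj_leaf (Or.inr (fast_io s δ v)) i⟩

lemma E1_ne_E2 (s : Bool) (v : ℕ × ℕ) (δ : Bool) (i : Fin n) : E1 s v i ≠ E2 s v δ i := by
  intro h
  have h1 : s(((io s v, some i) : Vt n), (io s v, none)) = s((io s v, some i), (io s (stp δ v), none)) :=
    congrArg Subtype.val h
  rw [Sym2.congr_right] at h1
  exact io_ne s δ v (Prod.ext_iff.1 h1).1.symm

/-- the edges at a leaf -/
def leafE (n : ℕ) (v : ℤ × ℤ) (i : Fin n) : Set (gr n).edgeSet := {e | (v, some i) ∈ e.1}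

lemma leafE_disj {v w : ℤ × ℤ} {i j : Fin n} (h : ((v, some i) : Vt n) ≠ (w, some j)) :
    Disjoint (leafE n v i) (leafE n w j) := by
  rw [Set.disjoint_left]
  rintro ⟨e, he⟩ h1 h2
  have h3 := (Sym2.mem_and_mem_iff h).1 ⟨h1, h2⟩
  have h4 : e = s(((v, some i) : Vt n), (w, some j)) := h3
  rw [h4] at he
  exact not_adj_leaf _ _ _ _ he

/-- the event that the two-path through leaf `i` is not open -/
def Ac (s : Bool) (v : ℕ × ℕ) (δ : Bool) (i : Fin n) : Set (Cf n) :=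
  {ω | ¬ (ω (E1 s v i) = true ∧ ω (E2 s v δ i) = true)}

lemma Ac_meas (s : Bool) (v : ℕ × ℕ) (δ : Bool) (i : Fin n) :
    MeasurableSet[Perc.cos (leafE n (io s v) i)] (Ac s v δ i) := by
  have h1 : MeasurableSet[Perc.cos (leafE n (io s v) i)] {ω : Cf n | ω (E1 s v i) = true} :=
    meas_coord (by show _ ∈ s(_, _); simp) true
  have h2 : MeasurableSet[Perc.cos (leafE n (io s v) i)] {ω : Cf n | ω (E2 s v δ i) = true} :=
    meas_coord (by show _ ∈ s(_, _); simp) true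
  exact @MeasurableSet.compl _ _ (_) (@MeasurableSet.inter _ (_) _ _ h1 h2)

lemma Ac_measure (p : ℝ≥0) (hp : p ≤ 1) (s : Bool) (v : ℕ × ℕ) (δ : Bool) (i : Fin n) :
    bern (gr n).edgeSet p hp (Ac s v δ i) = 1 - (p : ℝ≥0∞) ^ 2 := by
  classical
  have h1 : (Ac s v δ i)ᶜ = {ω : Cf n | ∀ x ∈ ({E1 s v i, E2 s v δ i} : Finset _), ω x = true} := by
    ext ω
    simp [Ac]
  have h2 : bern (gr n).edgeSet p hp ((Ac s v δ i)ᶜ) = (p : ℝ≥0∞) ^ 2 := by
    rw [h1, bern_all, Finset.card_pair (E1_ne_E2 s v δ i)]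
  have hm : MeasurableSet (Ac s v δ i) := cos_le _ _ (Ac_meas s v δ i)
  have h3 := prob_compl_eq_one_sub (μ := bern (gr n).edgeSet p hp) hm.compl
  rw [compl_compl, h2] at h3
  exact h3

/-- no open two-path in direction `δ` -/
def BadDir (n : ℕ) (s : Bool) (v : ℕ × ℕ) (δ : Bool) : Set (Cf n) := ⋂ i, Ac s v δ i

lemma BadDir_measure (p : ℝ≥0) (hp : p ≤ 1) (s : Bool) (v : ℕ × ℕ) (δ : Bool) :
    bern (gr n).edgeSet p hp (BadDir n s v δ) = (1 - (p : ℝ≥0∞) ^ 2) ^ n := by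
  classical
  have hI : iIndepSet (fun i : Fin n => Ac s v δ i) (bern (gr n).edgeSet p hp) :=
    iIndepSet_of_disjoint p hp (fun i => leafE n (io s v) i)
      (fun i j hij => leafE_disj (fun h => hij (by simpa using h))) _ (fun i => Ac_meas s v δ i)
  rw [iIndepSet_iff_meas_biInter (fun i => cos_le _ _ (Ac_meas s v δ i))] at hI
  have h1 := hI Finset.univ
  simp only [Finset.mem_univ, iInter_true] at h1
  unfold BadDir
  rw [h1, Finset.prod_congr rfl (fun i _ => Ac_measure p hp s v δ i)]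
  simp

/-- bad sites -/
def Bad (n : ℕ) (s : Bool) (v : ℕ × ℕ) : Set (Cf n) := BadDir n s v true ∪ BadDir n s v false

lemma Bad_measure (p : ℝ≥0) (hp : p ≤ 1) (s : Bool) (v : ℕ × ℕ) :
    bern (gr n).edgeSet p hp (Bad n s v) ≤ 2 * (1 - (p : ℝ≥0∞) ^ 2) ^ n := by
  unfold Bad
  refine (measure_union_le _ _).trans ?_
  rw [BadDir_measure, BadDir_measure, two_mul]

/-- the edges at the leaves of a site -/
def siteE (n : ℕ) (s : Bool) (v : ℕ × ℕ) : Set (gr n).edgeSet := ⋃ i, leafE n (io s v) i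

lemma Bad_meas (s : Bool) (v : ℕ × ℕ) : MeasurableSet[Perc.cos (siteE n s v)] (Bad n s v) := by
  have h1 : ∀ δ, MeasurableSet[Perc.cos (siteE n s v)] (BadDir n s v δ) := by
    intro δ
    apply @MeasurableSet.iInter _ _ (_)
    intro i
    exact cos_mono (subset_iUnion (fun i => leafE n (io s v) i) i) _ (Ac_meas s v δ i)
  exact @MeasurableSet.union _ (_) _ _ (h1 true) (h1 false)

lemma Bad_indep (p : ℝ≥0) (hp : p ≤ 1) (s : Bool) :
    iIndepSet (Bad n s) (bern (gr n).edgeSet p hp) := by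
  apply iIndepSet_of_disjoint p hp (siteE n s) _ _ (Bad_meas s)
  intro v w hvw
  unfold siteE
  rw [Set.disjoint_iUnion_left]
  intro i
  rw [Set.disjoint_iUnion_right]
  intro j
  apply leafE_disj
  intro h
  exact hvw (io_inj s (Prod.ext_iff.1 h).1)

lemma quadrant (s : Bool) (ω : Cf n) (h : ω ∉ ⋃ k, bad (Bad n s) k (0, 0)) :
    ∃ v : ℕ × ℕ, ((og ω).connectedComponentMk (io s v, none)).supp.Infinite := by
  have hgood : ∀ k, ¬ bd {v | ω ∈ Bad n s v} k (0, 0) := by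
    intro k hk
    exact h (mem_iUnion.2 ⟨k, hk⟩)
  let r : ℕ × ℕ → ℕ × ℕ → Prop := fun x y => (og ω).Reachable (io s x, none) (io s y, none)
  have hr : Equivalence r := ⟨fun _ => SimpleGraph.Reachable.refl _, fun h => h.symm, fun h h' => h.trans h'⟩
  have hstep : ∀ v, ω ∉ Bad n s v → ∀ δ, r v (stp δ v) := by
    intro v hv δ
    have h1 : ω ∉ BadDir n s v δ := by
      intro h2
      apply hv
      cases δ
      · exact Or.inr h2
      · exact Or.inl h2
    unfold BadDir at h1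
    rw [mem_iInter] at h1
    push Not at h1
    obtain ⟨i, hi⟩ := h1
    have h2 : ω (E1 s v i) = true ∧ ω (E2 s v δ i) = true := by
      by_contra hcon
      exact hi hcon
    have a1 : (og ω).Adj (io s v, some i) (io s v, none) := (og_adj _ _ _).2 ⟨_, h2.1⟩
    have a2 : (og ω).Adj (io s v, some i) (io s (stp δ v), none) := (og_adj _ _ _).2 ⟨_, h2.2⟩
    exact a1.symm.reachable.trans a2.reachable
  obtain ⟨v, hv⟩ := infinite_class hr (fun v hv => hstep v hv true) (fun v hv => hstep v hv false) hgood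
  refine ⟨v, ?_⟩
  have hinj : Function.Injective (fun w : ℕ × ℕ => ((io s w, none) : Vt n)) := by
    intro a b hab
    exact io_inj s (Prod.ext_iff.1 hab).1
  refine (hv.image hinj.injOn).mono ?_
  rintro _ ⟨w, hw, rfl⟩
  rw [SimpleGraph.ConnectedComponent.mem_supp_iff, SimpleGraph.ConnectedComponent.eq]
  exact hw.symm

end Pool.Helper354.Perc
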