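import Mathlib
import Pool.Agent.Helper354.PercGraph

set_option autoImplicit false
set_option linter.unusedSectionVars false

namespace Pool.Helper354.Perc

open MeasureTheory ProbabilityTheory Set
open scoped ENNReal NNReal

variable {n : ℕ}

/-- the four directions -/
def dirs : Fin 4 → ℤ × ℤ := ![(1, 0), (-1, 0), (0, 1), (0, -1)]

lemma NN_dirs {v w : ℤ × ℤ} (h : NN v w) : ∃ j, w = v + dirs j := by
  unfold NN at h
  have h1 := abs_nonneg (v.1 - w.1)
  have h2 := abs_nonneg (v.2 - w.2)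
  have h3 := abs_le.1 (show |v.1 - w.1| ≤ 1 by omega)
  have h4 := abs_le.1 (show |v.2 - w.2| ≤ 1 by omega)
  rcases lt_trichotomy v.1 w.1 with hc | hc | hc
  · refine ⟨0, ?_⟩
    have e1 : |v.1 - w.1| = 1 := by rw [show v.1 - w.1 = -1 by omega]; rfl
    have e2 : v.2 - w.2 = 0 := abs_eq_zero.1 (by omega)
    ext
    · show w.1 = v.1 + 1; omega
    · show w.2 = v.2 + 0; omega
  · have e1 : |v.1 - w.1| = 0 := by rw [hc, sub_self]; rfl
    rcases lt_trichotomy v.2 w.2 with hd | hd | hd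
    · refine ⟨2, ?_⟩
      ext
      · show w.1 = v.1 + 0; omega
      · show w.2 = v.2 + 1; omega
    · exfalso
      rw [hd, sub_self, abs_zero] at h
      omega
    · refine ⟨3, ?_⟩
      ext
      · show w.1 = v.1 + 0; omega
      · show w.2 = v.2 + -1; omega
  · refine ⟨1, ?_⟩
    have e1 : |v.1 - w.1| = 1 := by rw [show v.1 - w.1 = 1 by omega]; rfl
    have e2 : v.2 - w.2 = 0 := abs_eq_zero.1 (by omega)
    ext
    · show w.1 = v.1 + -1; omega
    · show w.2 = v.2 + 0; omega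

lemma dirs_NN (v : ℤ × ℤ) (j : Fin 4) : NN v (v + dirs j) := by
  unfold NN
  fin_cases j <;> simp [dirs]

/-- the positions of the lattice path with directions `ds` started at `u` -/
def pos (u : ℤ × ℤ) {L : ℕ} (ds : Fin L → Fin 4) : ℕ → ℤ × ℤ
  | 0 => u
  | k + 1 => pos u ds k + (if h : k < L then dirs (ds ⟨k, h⟩) else 0)

lemma pos_succ (u : ℤ × ℤ) {L : ℕ} (ds : Fin L → Fin 4) (k : Fin L) :
    pos u ds (k + 1) = pos u ds k + dirs (ds k) := by
  show pos u ds k + (if h : (k : ℕ) < L then dirs (ds ⟨k, h⟩) else 0) = _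
  rw [dif_pos k.2]

lemma pos_NN (u : ℤ × ℤ) {L : ℕ} (ds : Fin L → Fin 4) (k : Fin L) :
    NN (pos u ds k) (pos u ds (k + 1)) := by
  rw [pos_succ]; exact dirs_NN _ _

/-- the edges of the path -/
def edg (n : ℕ) (u : ℤ × ℤ) {L : ℕ} (ds : Fin L → Fin 4) (k : Fin L) : (gr n).edgeSet :=
  ⟨s((pos u ds k, none), (pos u ds (k + 1), none)), adj_hub (pos_NN u ds k)⟩

/-- the event that all the edges of the path are open -/
def Op (n : ℕ) (u : ℤ × ℤ) {L : ℕ} (ds : Fin L → Fin 4) : Set (Cf n) :=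
  {ω | ∀ k : Fin L, ω (edg n u ds k) = true}

/-- self-avoiding -/
def SA (u : ℤ × ℤ) {L : ℕ} (ds : Fin L → Fin 4) : Prop := Set.InjOn (pos u ds) {k | k ≤ L}

lemma edg_inj (u : ℤ × ℤ) {L : ℕ} (ds : Fin L → Fin 4) (h : SA u ds) :
    Function.Injective (edg n u ds) := by
  intro k k' he
  have h1 : s(((pos u ds k, none) : Vt n), (pos u ds (k + 1), none)) =
      s((pos u ds k', none), (pos u ds (k' + 1), none)) := congrArg Subtype.val he
  rw [Sym2.eq_iff] at h1
  have hk := k.2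
  have hk' := k'.2
  rcases h1 with ⟨h2, -⟩ | ⟨h2, h3⟩
  · have h4 := (Prod.ext_iff.1 h2).1
    have := h (by show (k : ℕ) ≤ L; omega) (by show (k' : ℕ) ≤ L; omega) h4
    exact Fin.ext this
  · have h4 := (Prod.ext_iff.1 h2).1
    have h5 := (Prod.ext_iff.1 h3).1
    have a1 := h (by show (k : ℕ) ≤ L; omega) (by show (k' : ℕ) + 1 ≤ L; omega) h4
    have a2 := h (by show (k : ℕ) + 1 ≤ L; omega) (by show (k' : ℕ) ≤ L; omega) h5
    omega

lemma Op_measure (p : ℝ≥0) (hp : p ≤ 1) (u : ℤ × ℤ) {L : ℕ} (ds : Fin L → Fin 4) (h : SA u ds) :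
    bern (gr n).edgeSet p hp (Op n u ds) = (p : ℝ≥0∞) ^ L := by
  classical
  have h1 : Op n u ds = {ω : Cf n | ∀ x ∈ (Finset.univ.image (edg n u ds)), ω x = true} := by
    ext ω
    simp [Op]
  rw [h1, bern_all, Finset.card_image_of_injective _ (edg_inj u ds h), Finset.card_univ,
    Fintype.card_fin]

lemma Op_meas (u : ℤ × ℤ) {L : ℕ} (ds : Fin L → Fin 4) : MeasurableSet (Op n u ds) := by
  have h1 : Op n u ds = ⋂ k, {ω : Cf n | ω (edg n u ds k) = true} := by
    ext ω; simp [Op]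
  rw [h1]
  apply MeasurableSet.iInter
  intro k
  exact measurableSet_eq_fun (measurable_pi_apply (edg n u ds k)) measurable_const

/-- there is an open self-avoiding path of length `L` from `u` -/
def Wk (n : ℕ) (u : ℤ × ℤ) (L : ℕ) : Set (Cf n) := ⋃ ds : {ds : Fin L → Fin 4 // SA u ds}, Op n u ds.1

lemma Wk_meas (u : ℤ × ℤ) (L : ℕ) : MeasurableSet (Wk n u L) := by
  classical
  have : Finite {ds : Fin L → Fin 4 // SA u ds} := inferInstance
  have : Countable {ds : Fin L → Fin 4 // SA u ds} := inferInstance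
  exact MeasurableSet.iUnion (fun ds => Op_meas u ds.1)

lemma Wk_measure (p : ℝ≥0) (hp : p ≤ 1) (u : ℤ × ℤ) (L : ℕ) :
    bern (gr n).edgeSet p hp (Wk n u L) ≤ (4 * (p : ℝ≥0∞)) ^ L := by
  classical
  unfold Wk
  refine (measure_iUnion_fintype_le _ _).trans ?_
  calc ∑ ds : {ds : Fin L → Fin 4 // SA u ds}, bern (gr n).edgeSet p hp (Op n u ds.1)
      = ∑ ds : {ds : Fin L → Fin 4 // SA u ds}, (p : ℝ≥0∞) ^ L :=
        Finset.sum_congr rfl (fun ds _ => Op_measure p hp u ds.1 ds.2)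
    _ = (Fintype.card {ds : Fin L → Fin 4 // SA u ds} : ℝ≥0∞) * (p : ℝ≥0∞) ^ L := by
        rw [Finset.sum_const, nsmul_eq_mul, Finset.card_univ]
    _ ≤ (4 : ℝ≥0∞) ^ L * (p : ℝ≥0∞) ^ L := by
        gcongr
        have h1 : Fintype.card {ds : Fin L → Fin 4 // SA u ds} ≤ 4 ^ L := by
          refine (Fintype.card_subtype_le _).trans ?_
          simp
        exact_mod_cast h1
    _ = (4 * (p : ℝ≥0∞)) ^ L := (mul_pow _ _ _).symm

/-- the barrier is crossed -/
def Bar (n : ℕ) : Set (Cf n) := ⋃ m : ℕ, (Wk n ((m : ℤ), 0) (m + 2) ∪ Wk n (0, (m : ℤ)) (m + 2))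

lemma Bar_meas : MeasurableSet (Bar n) :=
  MeasurableSet.iUnion (fun _ => (Wk_meas _ _).union (Wk_meas _ _))

/-- open edges of the slow graph, except those inside the first quadrant -/
def sl (ω : Cf n) : SimpleGraph (ℤ × ℤ) where
  Adj v w := NN v w ∧ (og ω).Adj (v, none) (w, none) ∧ ¬ ((0 ≤ v.1 ∧ 0 ≤ v.2) ∧ (0 ≤ w.1 ∧ 0 ≤ w.2))
  symm := ⟨fun v w ⟨h1, h2, h3⟩ => ⟨h1.symm, h2.symm, fun h => h3 ⟨h.2, h.1⟩⟩⟩
  loopless := ⟨fun v ⟨h1, _, _⟩ => by unfold NN at h1; simp at h1⟩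

lemma sl_l1 {ω : Cf n} {v w : ℤ × ℤ} (p : (sl ω).Walk v w) : l1 v w ≤ p.length := by
  induction p with
  | nil => simp [l1]
  | cons h p ih =>
    rw [SimpleGraph.Walk.length_cons]
    have h1 : l1 _ _ = 1 := h.1
    have h2 := l1_triangle _ _ _ |>.trans (add_le_add h1.le ih)
    push_cast
    linarith

/-- a connection through the barrier implies `Bar` -/
lemma crossing (ω : Cf n) (u w : ℤ × ℤ) (hu1 : 0 ≤ u.1) (hu2 : 0 ≤ u.2) (hw1 : w.1 < 0) (hw2 : w.2 < 0)
    (h : (sl ω).Reachable u w) : ω ∈ Bar n := by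
  obtain ⟨q, hq⟩ := h.exists_isPath
  have hlen : u.1 + u.2 + 2 ≤ (q.length : ℤ) := by
    have h1 := sl_l1 q
    unfold l1 at h1
    rw [abs_of_pos (by omega), abs_of_pos (by omega)] at h1
    omega
  have hL0 : 0 < q.length := by omega
  have hadj := fun k (hk : k < q.length) => q.adj_getVert_succ hk
  -- first step
  have hu : u.1 = 0 ∨ u.2 = 0 := by
    have h1 := hadj 0 hL0
    rw [SimpleGraph.Walk.getVert_zero] at h1
    obtain ⟨h2, -, h3⟩ := h1
    obtain ⟨j, hj⟩ := NN_dirs h2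
    by_contra hcon
    push Not at hcon
    apply h3
    refine ⟨⟨hu1, hu2⟩, ?_⟩
    rw [hj]
    fin_cases j <;> simp [dirs] <;> omega
  obtain ⟨m, hm⟩ : ∃ m : ℕ, (m : ℤ) = u.1 + u.2 := ⟨(u.1 + u.2).toNat, by omega⟩
  have hmL : m + 2 ≤ q.length := by omega
  have hdir : ∀ k : Fin (m + 2), ∃ j, q.getVert (k + 1) = q.getVert k + dirs j := by
    intro k
    exact NN_dirs (hadj k (by omega)).1
  choose ds hds using hdir
  have hpos : ∀ k, k ≤ m + 2 → pos u ds k = q.getVert k := by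
    intro k
    induction k with
    | zero => intro _; rw [SimpleGraph.Walk.getVert_zero]; rfl
    | succ k ih =>
      intro hk
      have h1 := pos_succ u ds ⟨k, by omega⟩
      have h2 := hds ⟨k, by omega⟩
      simp only at h1 h2
      rw [h1, h2, ih (by omega)]
  have hSA : SA u ds := by
    intro a ha b hb hab
    have ha' : a ≤ m + 2 := ha
    have hb' : b ≤ m + 2 := hb
    rw [hpos a ha', hpos b hb'] at hab
    exact hq.getVert_injOn (by show a ≤ q.length; omega) (by show b ≤ q.length; omega) hab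
  have hOp : ω ∈ Op n u ds := by
    intro k
    have h1 := (hadj k (by omega)).2.1
    rw [og_adj] at h1
    obtain ⟨h2, h3⟩ := h1
    have e : edg n u ds k = ⟨s((q.getVert k, none), (q.getVert (k + 1), none)), h2⟩ := by
      apply Subtype.ext
      show s(((pos u ds k, none) : Vt n), (pos u ds (k + 1), none)) = _
      rw [hpos k (by omega), hpos (k + 1) (by omega)]
    rw [e]; exact h3
  have hW : ω ∈ Wk n u (m + 2) := mem_iUnion.2 ⟨⟨ds, hSA⟩, hOp⟩
  refine mem_iUnion.2 ⟨m, ?_⟩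
  rcases hu with hu | hu
  · right
    have : u = (0, (m : ℤ)) := Prod.ext hu (by show u.2 = m; omega)
    rw [← this]; exact hW
  · left
    have : u = ((m : ℤ), 0) := Prod.ext (by show u.1 = m; omega) hu
    rw [← this]; exact hW

/-- without a crossing the two quadrants are not connected -/
lemma separated (ω : Cf n) (h : ω ∉ Bar n) (u w : ℤ × ℤ) (hu1 : 0 ≤ u.1) (hu2 : 0 ≤ u.2)
    (hw1 : w.1 < 0) (hw2 : w.2 < 0) : ¬ (og ω).Reachable (u, none) (w, none) := by
  let R : Set (ℤ × ℤ) := {x | ∃ u : ℤ × ℤ, 0 ≤ u.1 ∧ 0 ≤ u.2 ∧ (sl ω).Reachable u x}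
  have hRH1 : ∀ x : ℤ × ℤ, 0 ≤ x.1 → 0 ≤ x.2 → x ∈ R := fun x h1 h2 => ⟨x, h1, h2, SimpleGraph.Reachable.refl x⟩
  have hRH2 : ∀ x ∈ R, ¬ (x.1 < 0 ∧ x.2 < 0) := by
    rintro x ⟨u, h1, h2, h3⟩ ⟨h4, h5⟩
    exact h (crossing ω u x h1 h2 h4 h5 h3)
  have hclosed : ∀ a b : Vt n, (og ω).Adj a b → a.1 ∈ R → b.1 ∈ R := by
    intro a b hab ha
    have hab' := hab
    rw [og_adj] at hab
    obtain ⟨hg, -⟩ := hab
    rcases hg with (⟨g1, g2, g3⟩ | ⟨g1, g2, g3⟩ | ⟨g1, g2, g3⟩)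
    · by_cases hb : 0 ≤ b.1.1 ∧ 0 ≤ b.1.2
      · exact hRH1 _ hb.1 hb.2
      · obtain ⟨u, h1, h2, h3⟩ := ha
        have e1 : a = (a.1, none) := Prod.ext rfl g1
        have e2 : b = (b.1, none) := Prod.ext rfl g2
        rw [e1, e2] at hab'
        have h4 : (sl ω).Adj a.1 b.1 := ⟨g3, hab', fun hh => hb hh.2⟩
        exact ⟨u, h1, h2, h3.trans h4.reachable⟩
    · rcases g3 with g3 | ⟨f1, f2, g3⟩ | ⟨f1, f2, g3⟩
      · rw [g3]; exact ha
      · apply hRH1
        · rcases g3 with g3 | g3 <;> rw [g3] <;> simp <;> omega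
        · rcases g3 with g3 | g3 <;> rw [g3] <;> simp <;> omega
      · exact absurd ⟨f1, f2⟩ (hRH2 _ ha)
    · rcases g3 with g3 | ⟨f1, f2, g3⟩ | ⟨f1, f2, g3⟩
      · rw [← g3]; exact ha
      · exact hRH1 _ f1 f2
      · exfalso
        apply hRH2 _ ha
        rcases g3 with g3 | g3 <;> rw [g3] <;> simp <;> omega
  intro hreach
  have hall : ∀ b : Vt n, (og ω).Reachable (u, none) b → b.1 ∈ R := by
    rintro b ⟨p⟩
    have : ∀ {a b : Vt n} (p : (og ω).Walk a b), a.1 ∈ R → b.1 ∈ R := by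
      intro a b p
      induction p with
      | nil => exact id
      | cons h p ih => exact fun ha => ih (hclosed _ _ h ha)
    exact this p (hRH1 u hu1 hu2)
  exact hRH2 _ (hall _ hreach) ⟨hw1, hw2⟩

end Pool.Helper354.Perc
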