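import Mathlib
import Pool.Agent.Helper354.PercBarrier

set_option autoImplicit false
set_option linter.unusedSectionVars false

namespace Pool.Helper354.Perc

open MeasureTheory ProbabilityTheory Set
open scoped ENNReal NNReal

lemma Bar_measure (n : ℕ) (p : ℝ≥0) (hp : p ≤ 1) (h4 : 4 * (p : ℝ≥0∞) ≤ 1 / 4) :
    bern (gr n).edgeSet p hp (Bar n) ≤ 1 / 6 := by
  unfold Bar
  refine (measure_iUnion_le _).trans ?_
  have h1 : ∀ m : ℕ, bern (gr n).edgeSet p hp (Wk n ((m : ℤ), 0) (m + 2) ∪ Wk n (0, (m : ℤ)) (m + 2)) ≤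
      1 / 8 * (1 / 4) ^ m := by
    intro m
    refine (measure_union_le _ _).trans ?_
    have h2 : ∀ u, bern (gr n).edgeSet p hp (Wk n u (m + 2)) ≤ (1 / 4) ^ (m + 2) := by
      intro u
      exact (Wk_measure p hp u (m + 2)).trans (pow_le_pow_left' h4 _)
    calc bern (gr n).edgeSet p hp (Wk n ((m : ℤ), 0) (m + 2)) +
          bern (gr n).edgeSet p hp (Wk n (0, (m : ℤ)) (m + 2)) ≤ (1 / 4) ^ (m + 2) + (1 / 4) ^ (m + 2) :=
          add_le_add (h2 _) (h2 _)
      _ = (2 * (1 / 4) ^ 2) * (1 / 4) ^ m := by ring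
      _ = 1 / 8 * (1 / 4) ^ m := by
          congr 1
          have : (2 * (1 / 4) ^ 2 : ℝ≥0∞) = ENNReal.ofReal (2 * (1 / 4) ^ 2) := by
            rw [ENNReal.ofReal_mul (by norm_num), ENNReal.ofReal_pow (by norm_num),
              ENNReal.ofReal_div_of_pos (by norm_num)]
            simp
          rw [this]
          have h5 : (1 / 8 : ℝ≥0∞) = ENNReal.ofReal (1 / 8) := by
            rw [ENNReal.ofReal_div_of_pos (by norm_num)]
            simp
          rw [h5]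
          norm_num
  calc ∑' m : ℕ, bern (gr n).edgeSet p hp (Wk n ((m : ℤ), 0) (m + 2) ∪ Wk n (0, (m : ℤ)) (m + 2))
      ≤ ∑' m : ℕ, 1 / 8 * (1 / 4 : ℝ≥0∞) ^ m := ENNReal.tsum_le_tsum h1
    _ = 1 / 8 * (1 - 1 / 4)⁻¹ := by rw [ENNReal.tsum_mul_left, ENNReal.tsum_geometric]
    _ ≤ 1 / 6 := by
        have h2 : (1 - 1 / 4 : ℝ≥0∞) = ENNReal.ofReal (3 / 4) := by
          have : (1 / 4 : ℝ≥0∞) = ENNReal.ofReal (1 / 4) := by
            rw [ENNReal.ofReal_div_of_pos (by norm_num)]; simp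
          rw [this, ← ENNReal.ofReal_one, ← ENNReal.ofReal_sub _ (by norm_num)]
          norm_num
        have h5 : (1 / 8 : ℝ≥0∞) = ENNReal.ofReal (1 / 8) := by
            rw [ENNReal.ofReal_div_of_pos (by norm_num)]
            simp
        have h6 : (1 / 6 : ℝ≥0∞) = ENNReal.ofReal (1 / 6) := by
            rw [ENNReal.ofReal_div_of_pos (by norm_num)]
            simp
        rw [h2, h5, h6, ← ENNReal.ofReal_inv_of_pos (by norm_num), ← ENNReal.ofReal_mul (by norm_num)]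
        norm_num

lemma exists_n : ∃ n : ℕ, 162 * (2 * (1 - ((1 / 16 : ℝ≥0) : ℝ≥0∞) ^ 2) ^ n) ≤ 1 := by
  have hx : (1 - ((1 / 16 : ℝ≥0) : ℝ≥0∞) ^ 2) = ENNReal.ofReal (255 / 256) := by
    have h1 : (((1 / 16 : ℝ≥0) : ℝ≥0∞) ^ 2) = ENNReal.ofReal (1 / 256) := by
      rw [← ENNReal.coe_pow, ENNReal.ofReal]
      congr 1
      rw [← NNReal.coe_inj]
      push_cast
      rw [Real.coe_toNNReal _ (by norm_num)]
      norm_num
    rw [h1, ← ENNReal.ofReal_one, ← ENNReal.ofReal_sub _ (by norm_num)]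
    norm_num
  obtain ⟨n, hn⟩ := exists_pow_lt_of_lt_one (show (0:ℝ) < 1 / 324 by norm_num)
    (show (255 / 256 : ℝ) < 1 by norm_num)
  refine ⟨n, ?_⟩
  rw [hx, ← ENNReal.ofReal_pow (by norm_num)]
  have e1 : (2 : ℝ≥0∞) = ENNReal.ofReal 2 := by simp
  have e2 : (162 : ℝ≥0∞) = ENNReal.ofReal 162 := by simp
  rw [e1, e2, ← ENNReal.ofReal_mul (by norm_num), ← ENNReal.ofReal_mul (by norm_num),
    ← ENNReal.ofReal_one]
  apply ENNReal.ofReal_le_ofReal
  linarith

/-- The counterexample. -/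
theorem counterexample : ∃ (n : ℕ) (p : ℝ≥0) (hp : p ≤ 1) (A : Set (Cf n)), MeasurableSet A ∧
    0 < bern (gr n).edgeSet p hp A ∧
    ∀ ω ∈ A, ∃ c₁ c₂ : (og ω).ConnectedComponent, c₁.supp.Infinite ∧ c₂.supp.Infinite ∧ c₁ ≠ c₂ := by
  obtain ⟨n, hn⟩ := exists_n
  have hp : (1 / 16 : ℝ≥0) ≤ 1 := by
    rw [← NNReal.coe_le_coe]; push_cast; norm_num
  set ε : ℝ≥0∞ := 2 * (1 - ((1 / 16 : ℝ≥0) : ℝ≥0∞) ^ 2) ^ n with hε
  set μ := bern (gr n).edgeSet (1 / 16) hp with hμ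
  have hQ : ∀ s, μ (⋃ k, bad (Bad n s) k (0, 0)) ≤ 1 / 81 := by
    intro s
    refine (bad_union (fun v => cos_le _ _ (Bad_meas s v)) (Bad_indep _ hp s)
      (fun v => Bad_measure _ hp s v) hn).trans ?_
    rw [ENNReal.le_div_iff_mul_le (by simp) (by simp)]
    calc 2 * ε * 81 = 162 * ε := by ring
      _ ≤ 1 := hn
  have hB : μ (Bar n) ≤ 1 / 6 := by
    apply Bar_measure
    have h1 : 4 * ((1 / 16 : ℝ≥0) : ℝ≥0∞) = 1 / 4 := by
      have : ((1 / 16 : ℝ≥0) : ℝ≥0∞) = ENNReal.ofReal (1 / 16) := by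
        rw [ENNReal.ofReal]
        congr 1
        rw [← NNReal.coe_inj, Real.coe_toNNReal _ (by norm_num)]
        push_cast; norm_num
      rw [this]
      have e1 : (4 : ℝ≥0∞) = ENNReal.ofReal 4 := by simp
      have e2 : (1 / 4 : ℝ≥0∞) = ENNReal.ofReal (1 / 4) := by
        rw [ENNReal.ofReal_div_of_pos (by norm_num)]; simp
      rw [e2, e1, ← ENNReal.ofReal_mul (by norm_num)]
      norm_num
    exact h1.le
  have hQm : ∀ s, MeasurableSet (⋃ k, bad (Bad n s) k (0, 0)) := fun s =>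
    MeasurableSet.iUnion (fun k => bad_measurable (fun v => cos_le _ _ (Bad_meas s v)) k _)
  set N : Set (Cf n) := (⋃ k, bad (Bad n true) k (0, 0)) ∪ (⋃ k, bad (Bad n false) k (0, 0)) ∪ Bar n with hN
  have hNm : MeasurableSet N := ((hQm true).union (hQm false)).union Bar_meas
  have hNμ : μ N ≤ 1 / 81 + 1 / 81 + 1 / 6 :=
    (measure_union_le _ _).trans (add_le_add ((measure_union_le _ _).trans
      (add_le_add (hQ true) (hQ false))) hB)
  have hNlt : μ N < 1 := by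
    refine lt_of_le_of_lt hNμ ?_
    have h5 : (1 / 81 : ℝ≥0∞) = ENNReal.ofReal (1 / 81) := by
      rw [ENNReal.ofReal_div_of_pos (by norm_num)]; simp
    have h6 : (1 / 6 : ℝ≥0∞) = ENNReal.ofReal (1 / 6) := by
      rw [ENNReal.ofReal_div_of_pos (by norm_num)]; simp
    rw [h5, h6, ← ENNReal.ofReal_add (by norm_num) (by norm_num),
      ← ENNReal.ofReal_add (by norm_num) (by norm_num), ENNReal.ofReal_lt_one]
    norm_num
  refine ⟨n, 1 / 16, hp, Nᶜ, hNm.compl, ?_, ?_⟩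
  · rw [prob_compl_eq_one_sub hNm]
    exact tsub_pos_of_lt hNlt
  · intro ω hω
    rw [hN, mem_compl_iff, mem_union, mem_union, not_or, not_or] at hω
    obtain ⟨⟨h1, h2⟩, h3⟩ := hω
    obtain ⟨v, hv⟩ := quadrant true ω h1
    obtain ⟨w, hw⟩ := quadrant false ω h2
    refine ⟨_, _, hv, hw, ?_⟩
    rw [Ne, SimpleGraph.ConnectedComponent.eq]
    apply separated ω h3
    · simp [io]
    · simp [io]
    · simp only [io, Bool.false_eq_true, if_false]; omega
    · simp only [io, Bool.false_eq_true, if_false]; omega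

end Pool.Helper354.Perc
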